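import Pool.Agent.H75.PSys.Sound

/-!
Completeness of the simulation, and the set generated by the simulating P system.
-/

set_option linter.unusedSectionVars false
set_option linter.unusedSimpArgs false

namespace Pool.Agent.H75.PSys

open Multiset

variable {Q R : Type} [Fintype Q] [DecidableEq Q] [Fintype R] [DecidableEq R]

/-- Local transitions of a counter region. -/
def LT (i : R) (X M Y : Multiset (Obj Q R)) : Prop :=
  ∃ a b, LocalMax (A1 i) A2 X a b ∧ msg a b = M ∧ nxt X a b = Y

theorem mk_step {prog : Q → Instr Q R} {x y : SC Q R} (a b : Pick (Obj Q R))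
    (ρ : Multiset (Obj Q R × R)) (M Y : R → Multiset (Obj Q R))
    (hL : LocalMax S1 (S2 prog) x.s a b) (hLT : ∀ i, LT i (x.a i) (M i) (Y i))
    (hρ : ρ.map Prod.fst = fltr .inn (prods a + prods b))
    (hs : y.s = nxt x.s a b + ∑ r, M r)
    (ha : ∀ r, y.a r = Y r + (ρ.filter (fun q => q.2 = r)).map Prod.fst)
    (he : y.e = x.e + card (fltr .out (prods a + prods b))) : SStep prog x y := by
  choose A B h1 h2 h3 using hLT
  refine ⟨fun m => Option.elim m a A, fun m => Option.elim m b B, ρ, ?_, hρ, ?_, ?_, he⟩
  · intro m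
    rcases m with _ | r
    · exact hL
    · exact h1 r
  · rw [hs]
    congr 1
    exact Finset.sum_congr rfl fun r _ => (h2 r).symm
  · intro r
    rw [ha, ← h3]
    rfl

theorem mem_os {i : R} {n : ℕ} {o : Obj Q R} (h : o ∈ os Q i n) : o = .o i :=
  (mem_replicate.1 h).2

theorem lt_rest (i : R) (n : ℕ) : LT i (.b ::ₘ os Q i n) 0 (.b ::ₘ os Q i n) := by
  refine ⟨some (.b, {(.b, .here)}), none, ⟨?_, ?_, ?_, ?_, ?_⟩, ?_, ?_⟩
  · intro o v h
    simp only [Option.some.injEq, Prod.mk.injEq] at h
    obtain ⟨rfl, rfl⟩ := h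
    simp
  · simp
  · simp
  · simp
  · intro _ o ho
    rw [used_some, sub_singleton, erase_cons_head] at ho
    rw [mem_os ho, A2_o]
  · simp [msg, fltr_singleton]
  · rw [nxt_of (os Q i n) (by simp [← singleton_add])]
    simp only [prods_some, prods_none, add_zero, fltr_singleton, reduceIte, ← singleton_add]
    abel

theorem lt_leave (i : R) (n : ℕ) : LT i (.b ::ₘ os Q i n) 0 (os Q i n) := by
  refine ⟨some (.b, 0), none, ⟨?_, ?_, ?_, ?_, ?_⟩, ?_, ?_⟩
  · intro o v h
    simp only [Option.some.injEq, Prod.mk.injEq] at h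
    obtain ⟨rfl, rfl⟩ := h
    simp
  · simp
  · simp
  · simp
  · intro _ o ho
    rw [used_some, sub_singleton, erase_cons_head] at ho
    rw [mem_os ho, A2_o]
  · simp [msg]
  · rw [nxt_of (os Q i n) (by simp [← singleton_add])]
    simp

theorem lt_p (i : R) (n : ℕ) : LT i (.p i ::ₘ os Q i n) 0 (.x i ::ₘ .y i ::ₘ os Q i n) := by
  refine ⟨some (.p i, {(.x i, .here), (.y i, .here)}), none, ⟨?_, ?_, ?_, ?_, ?_⟩, ?_, ?_⟩
  · intro o v h
    simp only [Option.some.injEq, Prod.mk.injEq] at h
    obtain ⟨rfl, rfl⟩ := h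
    simp
  · simp
  · simp
  · simp
  · intro _ o ho
    rw [used_some, sub_singleton, erase_cons_head] at ho
    rw [mem_os ho, A2_o]
  · simp [msg, fltr_cons, fltr_singleton]
  · rw [nxt_of (os Q i n) (by simp [← singleton_add])]
    simp only [prods_some, prods_none, add_zero, insert_eq_cons, fltr_cons, fltr_singleton,
      reduceIte, ← singleton_add]
    abel

theorem lt_z (i : R) (n : ℕ) : LT i (.z i ::ₘ os Q i n) 0 (.w i ::ₘ os Q i n) := by
  refine ⟨some (.z i, {(.w i, .here)}), none, ⟨?_, ?_, ?_, ?_, ?_⟩, ?_, ?_⟩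
  · intro o v h
    simp only [Option.some.injEq, Prod.mk.injEq] at h
    obtain ⟨rfl, rfl⟩ := h
    simp
  · simp
  · simp
  · simp
  · intro _ o ho
    rw [used_some, sub_singleton, erase_cons_head] at ho
    rw [mem_os ho, A2_o]
  · simp [msg, fltr_cons, fltr_singleton]
  · rw [nxt_of (os Q i n) (by simp [← singleton_add])]
    simp only [prods_some, prods_none, add_zero, insert_eq_cons, fltr_cons, fltr_singleton,
      reduceIte, ← singleton_add]
    abel

theorem lt_w (i : R) : LT i (.w i ::ₘ os Q i 0) 0 (.b ::ₘ os Q i 0) := by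
  refine ⟨none, some (.w i, {(.b, .here)}), ⟨?_, ?_, ?_, ?_, ?_⟩, ?_, ?_⟩
  · simp
  · intro o v h
    simp only [Option.some.injEq, Prod.mk.injEq] at h
    obtain ⟨rfl, rfl⟩ := h
    simp
  · simp
  · intro _ o ho
    simp at ho
  · simp
  · simp [msg, fltr_singleton]
  · rw [nxt_of (os Q i 0) (by simp [← singleton_add])]
    simp [fltr_singleton]

theorem lt_xy (i : R) (m : ℕ) : LT i (.x i ::ₘ .y i ::ₘ os Q i (m + 1)) {.o i}
    (.b ::ₘ .y i ::ₘ os Q i m) := by
  refine ⟨some (.o i, {(.o i, .out)}), some (.x i, {(.b, .here)}), ⟨?_, ?_, ?_, ?_, ?_⟩, ?_, ?_⟩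
  · intro o v h
    simp only [Option.some.injEq, Prod.mk.injEq] at h
    obtain ⟨rfl, rfl⟩ := h
    simp
  · intro o v h
    simp only [Option.some.injEq, Prod.mk.injEq] at h
    obtain ⟨rfl, rfl⟩ := h
    simp
  · rw [used_some, used_some, os, replicate_succ, ← singleton_add, ← singleton_add,
      ← singleton_add, show ({.x i} + ({.y i} + ({.o i} + replicate m (.o i))) :
        Multiset (Obj Q R)) = ({.o i} + {.x i}) + ({.y i} + replicate m (.o i)) by abel]
    exact le_self_add
  · simp
  · simp
  · simp [msg, fltr_cons, fltr_singleton]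
  · rw [nxt_of (.y i ::ₘ os Q i m) (by
      simp only [used_some, os, replicate_succ, ← singleton_add]
      abel)]
    simp only [prods_some, fltr_add, fltr_singleton, reduceCtorEq, reduceIte, ← singleton_add]
    abel

theorem lt_after (i : R) (m : ℕ) : LT i (.b ::ₘ .y i ::ₘ os Q i m) 0 (.b ::ₘ os Q i m) := by
  refine ⟨some (.b, {(.b, .here)}), some (.y i, 0), ⟨?_, ?_, ?_, ?_, ?_⟩, ?_, ?_⟩
  · intro o v h
    simp only [Option.some.injEq, Prod.mk.injEq] at h
    obtain ⟨rfl, rfl⟩ := h
    simp
  · intro o v h
    simp only [Option.some.injEq, Prod.mk.injEq] at h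
    obtain ⟨rfl, rfl⟩ := h
    simp
  · rw [used_some, used_some, ← singleton_add, ← singleton_add, ← add_assoc]
    exact le_self_add
  · simp
  · simp
  · simp [msg, fltr_cons, fltr_singleton]
  · rw [nxt_of (os Q i m) (by
      simp only [used_some, ← singleton_add]
      abel)]
    simp only [prods_some, fltr_add, fltr_singleton, fltr_zero, reduceIte, ← singleton_add]
    abel

/-- The canonical contents of the skin region. -/
def canonS : Phase Q R → Multiset (Obj Q R)
  | .main q => {.ctrl (.P q)}
  | .d1 _ l => {.ctrl (.D1 l)}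
  | .d2 _ l => {.ctrl (.D2 l)}
  | .d3 r l => {.ctrl (.D3 l), .o r}
  | .z1 _ l => {.ctrl (.Z1 l)}
  | .z2 _ l => {.ctrl (.Z2 l)}
  | .fin => 0

/-- The canonical contents of the counter regions. -/
def canonA : Phase Q R → (R → ℕ) → R → Multiset (Obj Q R)
  | .main _, n, i => .b ::ₘ os Q i (n i)
  | .d1 r _, n, i => if i = r then .p i ::ₘ os Q i (n i) else .b ::ₘ os Q i (n i)
  | .d2 r _, n, i => if i = r then .x i ::ₘ .y i ::ₘ os Q i (n i) else .b ::ₘ os Q i (n i)
  | .d3 r _, n, i => if i = r then .b ::ₘ .y i ::ₘ os Q i (n i) else .b ::ₘ os Q i (n i)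
  | .z1 r _, n, i => if i = r then .z i ::ₘ os Q i (n i) else .b ::ₘ os Q i (n i)
  | .z2 r _, n, i => if i = r then .w i ::ₘ os Q i (n i) else .b ::ₘ os Q i (n i)
  | .fin, _, _ => 0

/-- The canonical configurations. -/
def canon (c : Phase Q R × (R → ℕ) × ℕ) : SC Q R := ⟨canonS c.1, canonA c.1 c.2.1, c.2.2⟩

/-- Choices in the skin region with one object, used by the second catalyst. -/
theorem skin_max {prog : Q → Instr Q R} {o : Obj Q R} {v : Out (Obj Q R)}
    (hv : v ∈ S2 prog o) : LocalMax S1 (S2 prog) {o} none (some (o, v)) := by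
  refine ⟨by simp, ?_, by simp, ?_, by simp⟩
  · intro o' v' h
    simp only [Option.some.injEq, Prod.mk.injEq] at h
    obtain ⟨rfl, rfl⟩ := h
    exact hv
  · intro _ o' ho'
    simp at ho'

/-- A canonical step which sends nothing. -/
theorem plain_mk {prog : Q → Instr Q R} {k : Ctrl Q} {v : Out (Obj Q R)}
    (hv : v ∈ S2 prog (.ctrl k)) (hin : fltr .inn v = 0) {x y : SC Q R}
    (hx : x.s = {.ctrl k}) (M : R → Multiset (Obj Q R))
    (hLT : ∀ i, LT i (x.a i) (M i) (y.a i)) (hs : y.s = fltr .here v + ∑ i, M i)
    (he : y.e = x.e + card (fltr .out v)) : SStep prog x y := by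
  refine mk_step none (some (.ctrl k, v)) 0 M y.a ?_ hLT ?_ ?_ ?_ ?_
  · rw [hx]; exact skin_max hv
  · simp [hin]
  · rw [hs, hx]; simp [nxt]
  · simp
  · simp [he]

/-- A canonical step which sends an object into the region `r`. -/
theorem send_mk {prog : Q → Instr Q R} {k : Ctrl Q} {v : Out (Obj Q R)}
    (hv : v ∈ S2 prog (.ctrl k)) {u : Obj Q R} (r : R) (hin : fltr .inn v = {u}) {x y : SC Q R}
    (hx : x.s = {.ctrl k}) (Y : R → Multiset (Obj Q R))
    (hLT : ∀ i, LT i (x.a i) 0 (Y i)) (hs : y.s = fltr .here v)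
    (ha : ∀ i, y.a i = if i = r then u ::ₘ Y i else Y i)
    (he : y.e = x.e + card (fltr .out v)) : SStep prog x y := by
  refine mk_step none (some (.ctrl k, v)) {(u, r)} (fun _ => 0) Y ?_ hLT ?_ ?_ ?_ ?_
  · rw [hx]; exact skin_max hv
  · simp [hin]
  · rw [hs, hx]; simp [nxt]
  · intro i
    rw [ha]
    by_cases h : i = r
    · subst h
      simp [filter_singleton, ← singleton_add, add_comm]
    · simp [filter_singleton, h, Ne.symm h]
  · simp [he]

/-- Canonical steps. -/
theorem canon_step {prog : Q → Instr Q R} {c d : Phase Q R × (R → ℕ) × ℕ} (h : Next prog c d)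
    (hc : c.1 ≠ .fin) (hd : d.1 ≠ .fin) : SStep prog (canon c) (canon d) := by
  cases h with
  | @goto q l n e hq =>
    refine plain_mk (k := .P q) (v := {(.ctrl (.P l), .here)}) (by simp [S2, hq])
      (by simp [fltr_singleton]) rfl (fun _ => 0) (fun i => lt_rest i (n i)) ?_ ?_
    · simp [canon, canonS, fltr_singleton]
    · simp [canon, fltr_singleton]
  | @inc q r l n e hq =>
    refine send_mk (k := .P q) (v := {(.o r, .inn), (.ctrl (.P l), .here)}) (by simp [S2, hq])
      (u := .o r) r (by simp [fltr_cons, fltr_singleton]) rfl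
      (fun i => .b ::ₘ os Q i (n i)) (fun i => lt_rest i (n i)) ?_ ?_ ?_
    · simp [canon, canonS, fltr_cons, fltr_singleton]
    · intro i
      simp only [canon, canonA]
      split_ifs with h
      · subst h
        rw [Function.update_self, os, replicate_succ, cons_swap]
      · rw [Function.update_of_ne h]
    · simp [canon, fltr_cons, fltr_singleton]
  | @emit q l n e hq =>
    refine plain_mk (k := .P q) (v := {(.t, .out), (.ctrl (.P l), .here)}) (by simp [S2, hq])
      (by simp [fltr_cons, fltr_singleton]) rfl (fun _ => 0) (fun i => lt_rest i (n i)) ?_ ?_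
    · simp [canon, canonS, fltr_cons, fltr_singleton]
    · simp [canon, fltr_cons, fltr_singleton]
  | @forkL q l l' n e hq =>
    refine plain_mk (k := .P q) (v := {(.ctrl (.P l), .here)}) (by simp [S2, hq])
      (by simp [fltr_singleton]) rfl (fun _ => 0) (fun i => lt_rest i (n i)) ?_ ?_
    · simp [canon, canonS, fltr_singleton]
    · simp [canon, fltr_singleton]
  | @forkR q l l' n e hq =>
    refine plain_mk (k := .P q) (v := {(.ctrl (.P l'), .here)}) (by simp [S2, hq])
      (by simp [fltr_singleton]) rfl (fun _ => 0) (fun i => lt_rest i (n i)) ?_ ?_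
    · simp [canon, canonS, fltr_singleton]
    · simp [canon, fltr_singleton]
  | stop hq => exact absurd rfl hd
  | @jzD q r l0 l1 n e hq =>
    refine send_mk (k := .P q) (v := {(.p r, .inn), (.ctrl (.D1 l1), .here)}) (by simp [S2, hq])
      (u := .p r) r (by simp [fltr_cons, fltr_singleton]) rfl
      (fun i => if i = r then os Q i (n i) else .b ::ₘ os Q i (n i)) (fun i => ?_) ?_ ?_ ?_
    · split_ifs with h
      · exact lt_leave i (n i)
      · exact lt_rest i (n i)
    · simp [canon, canonS, fltr_cons, fltr_singleton]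
    · intro i
      simp only [canon, canonA]
      split_ifs with h
      · subst h; rfl
      · rfl
    · simp [canon, fltr_cons, fltr_singleton]
  | @jzZ q r l0 l1 n e hq =>
    refine send_mk (k := .P q) (v := {(.z r, .inn), (.ctrl (.Z1 l0), .here)}) (by simp [S2, hq])
      (u := .z r) r (by simp [fltr_cons, fltr_singleton]) rfl
      (fun i => if i = r then os Q i (n i) else .b ::ₘ os Q i (n i)) (fun i => ?_) ?_ ?_ ?_
    · split_ifs with h
      · exact lt_leave i (n i)
      · exact lt_rest i (n i)
    · simp [canon, canonS, fltr_cons, fltr_singleton]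
    · intro i
      simp only [canon, canonA]
      split_ifs with h
      · subst h; rfl
      · rfl
    · simp [canon, fltr_cons, fltr_singleton]
  | @d12 r l n e =>
    refine plain_mk (k := .D1 l) (v := {(.ctrl (.D2 l), .here)}) (by simp [S2])
      (by simp [fltr_singleton]) rfl (fun _ => 0) (fun i => ?_) ?_ ?_
    · simp only [canon, canonA]
      split_ifs with h
      · exact lt_p i (n i)
      · exact lt_rest i (n i)
    · simp [canon, canonS, fltr_singleton]
    · simp [canon, fltr_singleton]
  | @d23 r l n e m hm =>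
    refine plain_mk (k := .D2 l) (v := {(.ctrl (.D3 l), .here)}) (by simp [S2])
      (by simp [fltr_singleton]) rfl (fun i => if i = r then {.o i} else 0) (fun i => ?_) ?_ ?_
    · simp only [canon, canonA]
      split_ifs with h
      · subst h
        rw [Function.update_self, hm]
        exact lt_xy i m
      · rw [Function.update_of_ne h]
        exact lt_rest i (n i)
    · rw [Finset.sum_ite_eq']
      simp [canon, canonS, fltr_singleton, ← singleton_add]
    · simp [canon, fltr_singleton]
  | @d3m r l n e =>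
    refine mk_step (some (.ctrl (.D3 l), {(.ctrl (.P l), .here)})) (some (.o r, 0)) 0
      (fun _ => 0) (canon (.main l, n, e)).a ?_ (fun i => ?_) ?_ ?_ ?_ ?_
    · refine ⟨?_, ?_, ?_, by simp, by simp⟩
      · intro o' v' h
        simp only [Option.some.injEq, Prod.mk.injEq] at h
        obtain ⟨rfl, rfl⟩ := h
        simp [S1]
      · intro o' v' h
        simp only [Option.some.injEq, Prod.mk.injEq] at h
        obtain ⟨rfl, rfl⟩ := h
        simp [S2]
      · simp [canon, canonS, ← singleton_add]
    · simp only [canon, canonA]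
      split_ifs with h
      · exact lt_after i (n i)
      · exact lt_rest i (n i)
    · simp [fltr_singleton]
    · simp only [canon, canonS]
      rw [nxt_of 0 (by simp [← singleton_add])]
      simp [fltr_singleton]
    · simp
    · simp [canon, fltr_singleton]
  | @z12 r l n e =>
    refine plain_mk (k := .Z1 l) (v := {(.ctrl (.Z2 l), .here)}) (by simp [S2])
      (by simp [fltr_singleton]) rfl (fun _ => 0) (fun i => ?_) ?_ ?_
    · simp only [canon, canonA]
      split_ifs with h
      · exact lt_z i (n i)
      · exact lt_rest i (n i)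
    · simp [canon, canonS, fltr_singleton]
    · simp [canon, fltr_singleton]
  | @z2m r l n e hn =>
    refine plain_mk (k := .Z2 l) (v := {(.ctrl (.P l), .here)}) (by simp [S2])
      (by simp [fltr_singleton]) rfl (fun _ => 0) (fun i => ?_) ?_ ?_
    · simp only [canon, canonA]
      split_ifs with h
      · subst h
        rw [hn]
        exact lt_w i
      · exact lt_rest i (n i)
    · simp [canon, canonS, fltr_singleton]
    · simp [canon, fltr_singleton]
  | fin => exact absurd rfl hc

/-- The last step. -/
theorem stop_step {prog : Q → Instr Q R} {q : Q} {e : ℕ} (hq : prog q = .stop) :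
    SStep prog (canon (.main q, 0, e)) (canon (.fin, 0, e)) := by
  refine plain_mk (k := .P q) (v := 0) (by simp [S2, hq]) (by simp) rfl (fun _ => 0)
    (fun i => lt_leave i 0) ?_ ?_
  · simp [canon, canonS]
  · simp [canon]

theorem halt_fin {prog : Q → Instr Q R} {e : ℕ} : SHalt prog (canon (.fin, 0, e)) := by
  intro m o ho
  rcases m with _ | r
  · exact absurd ho (by simp [canon, canonS, SC.cont])
  · exact absurd ho (by simp [canon, canonA, SC.cont])

/-! ### Counter machines -/

/-- The steps of a nondeterministic counter machine with output. -/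
inductive MStep (prog : Q → Instr Q R) :
    Q × (R → ℕ) × ℕ → Q × (R → ℕ) × ℕ → Prop
  | goto {q l n e} : prog q = .goto l → MStep prog (q, n, e) (l, n, e)
  | inc {q r l n e} : prog q = .inc r l →
      MStep prog (q, n, e) (l, Function.update n r (n r + 1), e)
  | emit {q l n e} : prog q = .emit l → MStep prog (q, n, e) (l, n, e + 1)
  | forkL {q l l' n e} : prog q = .fork l l' → MStep prog (q, n, e) (l, n, e)
  | forkR {q l l' n e} : prog q = .fork l l' → MStep prog (q, n, e) (l', n, e)
  | dec {q r l0 l1 n e m} : prog q = .jz r l0 l1 → n r = m + 1 →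
      MStep prog (q, n, e) (l1, Function.update n r m, e)
  | zero {q r l0 l1 n e} : prog q = .jz r l0 l1 → n r = 0 → MStep prog (q, n, e) (l0, n, e)

/-- Machine steps as phase transitions through canonical configurations. -/
theorem canon_of_mstep {prog : Q → Instr Q R} {c d : Q × (R → ℕ) × ℕ} (h : MStep prog c d) :
    Relation.ReflTransGen (SStep prog) (canon (.main c.1, c.2)) (canon (.main d.1, d.2)) := by
  cases h with
  | goto hq => exact .single (canon_step (.goto hq) (by simp) (by simp))
  | inc hq => exact .single (canon_step (.inc hq) (by simp) (by simp))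
  | emit hq => exact .single (canon_step (.emit hq) (by simp) (by simp))
  | forkL hq => exact .single (canon_step (.forkL hq) (by simp) (by simp))
  | forkR hq => exact .single (canon_step (.forkR hq) (by simp) (by simp))
  | dec hq hm =>
    exact .head (canon_step (.jzD hq) (by simp) (by simp))
      (.head (canon_step .d12 (by simp) (by simp))
        (.head (canon_step (.d23 hm) (by simp) (by simp))
          (.single (canon_step .d3m (by simp) (by simp)))))
  | zero hq hm =>
    exact .head (canon_step (.jzZ hq) (by simp) (by simp))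
      (.head (canon_step .z12 (by simp) (by simp))
        (.single (canon_step (.z2m hm) (by simp) (by simp))))

theorem canon_of_msteps {prog : Q → Instr Q R} {c d : Q × (R → ℕ) × ℕ}
    (h : Relation.ReflTransGen (MStep prog) c d) :
    Relation.ReflTransGen (SStep prog) (canon (.main c.1, c.2)) (canon (.main d.1, d.2)) := by
  induction h with
  | refl => exact .refl
  | tail _ h ih => exact ih.trans (canon_of_mstep h)

/-- A path of phases that starts at `c` and ends in the final phase comes from a computation of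
the machine. -/
def GoodFrom (prog : Q → Instr Q R) (e : ℕ) : Phase Q R × (R → ℕ) × ℕ → Prop
  | (.main q, n, e') => ∃ q' n', Relation.ReflTransGen (MStep prog) (q, n, e') (q', n', e) ∧
      prog q' = .stop
  | (.d1 r l, n, e') => ∃ m, n r = m + 1 ∧ ∃ q' n', Relation.ReflTransGen (MStep prog)
      (l, Function.update n r m, e') (q', n', e) ∧ prog q' = .stop
  | (.d2 r l, n, e') => ∃ m, n r = m + 1 ∧ ∃ q' n', Relation.ReflTransGen (MStep prog)
      (l, Function.update n r m, e') (q', n', e) ∧ prog q' = .stop
  | (.d3 _ l, n, e') => ∃ q' n', Relation.ReflTransGen (MStep prog) (l, n, e') (q', n', e) ∧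
      prog q' = .stop
  | (.z1 r l, n, e') => n r = 0 ∧ ∃ q' n', Relation.ReflTransGen (MStep prog)
      (l, n, e') (q', n', e) ∧ prog q' = .stop
  | (.z2 r l, n, e') => n r = 0 ∧ ∃ q' n', Relation.ReflTransGen (MStep prog)
      (l, n, e') (q', n', e) ∧ prog q' = .stop
  | (.fin, _, e') => e' = e

theorem goodFrom {prog : Q → Instr Q R} {e : ℕ} {n' : R → ℕ} {c : Phase Q R × (R → ℕ) × ℕ}
    (h : Relation.ReflTransGen (Next prog) c (.fin, n', e)) : GoodFrom prog e c := by
  induction h using Relation.ReflTransGen.head_induction_on with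
  | refl => exact rfl
  | head h1 _ ih =>
    cases h1 with
    | goto hq =>
      obtain ⟨q', n', h, hs⟩ := ih
      exact ⟨q', n', .head (.goto hq) h, hs⟩
    | inc hq =>
      obtain ⟨q', n', h, hs⟩ := ih
      exact ⟨q', n', .head (.inc hq) h, hs⟩
    | emit hq =>
      obtain ⟨q', n', h, hs⟩ := ih
      exact ⟨q', n', .head (.emit hq) h, hs⟩
    | forkL hq =>
      obtain ⟨q', n', h, hs⟩ := ih
      exact ⟨q', n', .head (.forkL hq) h, hs⟩
    | forkR hq =>
      obtain ⟨q', n', h, hs⟩ := ih
      exact ⟨q', n', .head (.forkR hq) h, hs⟩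
    | @stop q n e' hq =>
      have h : e' = e := ih
      subst h
      exact ⟨q, n, .refl, hq⟩
    | jzD hq =>
      obtain ⟨m, hm, q', n', h, hs⟩ := ih
      exact ⟨q', n', .head (.dec hq hm) h, hs⟩
    | jzZ hq =>
      obtain ⟨hm, q', n', h, hs⟩ := ih
      exact ⟨q', n', .head (.zero hq hm) h, hs⟩
    | d12 => exact ih
    | @d23 r l n e' m hm =>
      obtain ⟨q', n', h, hs⟩ := ih
      exact ⟨m, hm, q', n', h, hs⟩
    | d3m => exact ih
    | z12 => exact ih
    | z2m hm => exact ⟨hm, ih⟩
    | fin => exact ih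

/-! ### The set generated by the P system -/

theorem canon_clean (c : Phase Q R × (R → ℕ) × ℕ) : (canon c).Clean := by
  obtain ⟨ph, n, e⟩ := c
  intro m
  rcases m with _ | r
  · cases ph <;> simp [canon, canonS, SC.cont]
  · cases ph <;> simp only [canon, canonA, SC.cont] <;>
      first
        | (split_ifs <;> simp [os, mem_replicate])
        | simp [os, mem_replicate]

theorem init_eq (prog : Q → Instr Q R) (q0 : Q) :
    (sys prog q0).init = toConf prog q0 (canon (.main q0, 0, 0)) := by
  apply PSystem.Conf.ext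
  · funext m
    rcases m with _ | r
    · rfl
    · rfl
  · rfl

theorem steps_iff [Nonempty R] (prog : Q → Instr Q R) (q0 : Q) {x : SC Q R} (hx : x.Clean)
    (c' : (sys prog q0).Conf) :
    Relation.ReflTransGen (sys prog q0).Step (toConf prog q0 x) c' ↔
      ∃ y, Relation.ReflTransGen (SStep prog) x y ∧ c' = toConf prog q0 y := by
  constructor
  · intro h
    have : ∃ y, Relation.ReflTransGen (SStep prog) x y ∧ c' = toConf prog q0 y ∧ y.Clean := by
      induction h with
      | refl => exact ⟨x, .refl, rfl, hx⟩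
      | tail _ h ih =>
        obtain ⟨y, hy, rfl, hcl⟩ := ih
        obtain ⟨z, hz, rfl⟩ := (step_iff prog q0 hcl _).1 h
        exact ⟨z, hy.tail hz, rfl, hz.clean hcl⟩
    obtain ⟨y, h1, h2, _⟩ := this
    exact ⟨y, h1, h2⟩
  · rintro ⟨y, hy, rfl⟩
    have : Relation.ReflTransGen (sys prog q0).Step (toConf prog q0 x) (toConf prog q0 y) ∧
        y.Clean := by
      induction hy with
      | refl => exact ⟨.refl, hx⟩
      | tail _ h ih =>
        obtain ⟨h1, hcl⟩ := ih
        exact ⟨h1.tail ((step_iff prog q0 hcl _).2 ⟨_, h, rfl⟩), h.clean hcl⟩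
    exact this.1

theorem inPhase_init (q0 : Q) : InPhase (Q := Q) (R := R) (.main q0) 0 0
    (canon (.main q0, 0, 0)) :=
  ⟨rfl, fun _ => Or.inr rfl, rfl⟩

/-- The set generated by the simulating P system, for a machine all of whose halting computations
end with empty counters. -/
theorem N_sys [Nonempty R] (prog : Q → Instr Q R) (q0 : Q)
    (hclean : ∀ q n e, Relation.ReflTransGen (MStep prog) (q0, 0, 0) (q, n, e) →
      prog q = .stop → n = 0) :
    (sys prog q0).N = {e | ∃ q n, Relation.ReflTransGen (MStep prog) (q0, 0, 0) (q, n, e) ∧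
      prog q = .stop} := by
  ext e
  constructor
  · rintro ⟨c, hc, hh, hr⟩
    rw [init_eq] at hc
    obtain ⟨y, hy, rfl⟩ := (steps_iff prog q0 (canon_clean _) c).1 hc
    have hr' : y.e = e := hr
    obtain ⟨n', hn'⟩ := sound hy ((halting_iff prog q0).1 hh) (inPhase_init q0)
    rw [hr'] at hn'
    exact goodFrom hn'
  · rintro ⟨q, n, h, hs⟩
    have hn := hclean q n e h hs
    subst hn
    refine ⟨toConf prog q0 (canon (.fin, 0, e)), ?_, (halting_iff prog q0).2 halt_fin, rfl⟩
    rw [init_eq, steps_iff prog q0 (canon_clean _)]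
    exact ⟨_, (canon_of_msteps h).tail (stop_step hs), rfl⟩

end Pool.Agent.H75.PSys
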