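import Mathlib

/-!
# Purely catalytic cell-like P systems

The definitions follow the standard ones: a finite alphabet `O`, a set `C` of catalysts, a finite
rooted tree of membranes, initial multisets `w`, finite sets of catalytic rules `c a → c v` whose
produced objects carry targets, maximally parallel and synchronous steps, and the set `N` of the
results of all halting computations.
-/

namespace Pool.Agent.H75.PSys

/-- Target indications: stay here, move to the parent region (or leave the system from the skin),
or move to a nondeterministically chosen child membrane. -/
inductive Target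
  | here | out | inn
  deriving DecidableEq

/-- A catalytic rule `c a → c v`: the catalyst `cat`, the object `obj` and the multiset `prod` of
the produced objects, each of them with its target. -/
structure Rule (O : Type) where
  cat : O
  obj : O
  prod : Multiset (O × Target)

/-- The left-hand side `c a` of a rule. -/
def Rule.lhs {O : Type} (ρ : Rule O) : Multiset O := {ρ.cat, ρ.obj}

/-- A purely catalytic cell-like P system. -/
structure PSystem where
  /-- The alphabet of objects. -/
  O : Type
  [fintypeO : Fintype O]
  [decO : DecidableEq O]
  /-- The set of catalysts. -/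
  C : Finset O
  /-- The membranes; every membrane delimits one region. -/
  M : Type
  [fintypeM : Fintype M]
  [decM : DecidableEq M]
  /-- The skin membrane. -/
  skin : M
  /-- The membrane directly surrounding a given one. -/
  parent : M → Option M
  parent_skin : parent skin = none
  /-- The membranes form a tree with root `skin`. -/
  reach_skin : ∀ m, Relation.ReflTransGen (fun a b => parent a = some b) m skin
  /-- The initial multisets of objects. -/
  w : M → Multiset O
  /-- The rules of the regions. -/
  rules : M → Set (Rule O)
  rules_finite : ∀ m, (rules m).Finite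
  /-- Every rule is catalytic. -/
  catalytic : ∀ m, ∀ ρ ∈ rules m, ρ.cat ∈ C ∧ ρ.obj ∉ C
  /-- The output region: an elementary membrane, or the environment (`none`). -/
  iout : Option M
  iout_elementary : ∀ m, iout = some m → ∀ m', parent m' ≠ some m

attribute [instance] PSystem.fintypeO PSystem.decO PSystem.fintypeM PSystem.decM

namespace PSystem

variable (Γ : PSystem)

/-- A configuration: the contents of all regions, and the number of objects that have been sent to
the environment so far. -/
@[ext] structure Conf where
  reg : Γ.M → Multiset Γ.O
  env : ℕ

/-- The initial configuration. -/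
def init : Γ.Conf := ⟨Γ.w, 0⟩

/-- The rules that may be used in region `m`: a rule which sends an object `in` is not applicable
in an elementary membrane. -/
def Usable (m : Γ.M) (ρ : Rule Γ.O) : Prop :=
  ρ ∈ Γ.rules m ∧ ((∃ p ∈ ρ.prod, p.2 = Target.inn) → ∃ m', Γ.parent m' = some m)

/-- The multiset `σ` of rules is applicable in region `m`. -/
def Applicable (c : Γ.Conf) (m : Γ.M) (σ : Multiset (Rule Γ.O)) : Prop :=
  (∀ ρ ∈ σ, Γ.Usable m ρ) ∧ (σ.map Rule.lhs).sum ≤ c.reg m

/-- The multiset `σ` of rules is a maximal applicable multiset of rules in region `m`. -/
def MaxApplicable (c : Γ.Conf) (m : Γ.M) (σ : Multiset (Rule Γ.O)) : Prop :=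
  Γ.Applicable c m σ ∧ ∀ τ, Γ.Applicable c m τ → σ ≤ τ → τ = σ

/-- The possible destinations of an object produced in region `m` with a given target; `none` is
the environment. -/
def Dest (m : Γ.M) : Target → Option Γ.M → Prop
  | .here, d => d = some m
  | .out, d => d = Γ.parent m
  | .inn, d => ∃ m', Γ.parent m' = some m ∧ d = some m'

/-- One maximally parallel step: in every region `m` a maximal applicable multiset `σ m` of rules
is applied, and `D m` lists the objects produced there, each with its target and its
(nondeterministically chosen, if the target is `inn`) destination. -/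
def Step (c c' : Γ.Conf) : Prop :=
  ∃ (σ : Γ.M → Multiset (Rule Γ.O)) (D : Γ.M → Multiset (Γ.O × Target × Option Γ.M)),
    (∀ m, Γ.MaxApplicable c m (σ m)) ∧
    (∀ m, (D m).map (fun q => (q.1, q.2.1)) = (σ m).bind Rule.prod) ∧
    (∀ m, ∀ q ∈ D m, Γ.Dest m q.2.1 q.2.2) ∧
    (∀ m, c'.reg m = c.reg m - (σ m).map Rule.obj +
      ∑ m', ((D m').filter (fun q => q.2.2 = some m)).map Prod.fst) ∧
    c'.env = c.env + ∑ m', Multiset.card ((D m').filter (fun q => q.2.2 = none))

/-- No rule is applicable anywhere. -/
def Halting (c : Γ.Conf) : Prop :=
  ∀ m ρ, Γ.Usable m ρ → ¬ ρ.lhs ≤ c.reg m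

/-- The result of a configuration: the number of objects in the output membrane, or the number of
objects sent to the environment. -/
def result (c : Γ.Conf) : ℕ :=
  match Γ.iout with
  | none => c.env
  | some m => Multiset.card (c.reg m)

/-- The set of natural numbers generated by the system: the results of all halting
computations. -/
def N : Set ℕ :=
  {n | ∃ c, Relation.ReflTransGen Γ.Step Γ.init c ∧ Γ.Halting c ∧ Γ.result c = n}

end PSystem

/-- The family `NP_m(pcat_r)`: at most `m` membranes and at most `r` catalysts. -/
def NP (m r : ℕ) : Set (Set ℕ) :=
  {S | ∃ Γ : PSystem, Fintype.card Γ.M ≤ m ∧ Γ.C.card ≤ r ∧ Γ.N = S}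

/-- The family `NP_*(pcat_r)`: any number of membranes and at most `r` catalysts. -/
def NPstar (r : ℕ) : Set (Set ℕ) :=
  {S | ∃ Γ : PSystem, Γ.C.card ≤ r ∧ Γ.N = S}

/-- The family of recursively enumerable sets of natural numbers. -/
def NRE : Set (Set ℕ) := {S | REPred fun n => n ∈ S}

end Pool.Agent.H75.PSys
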