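import Pool.Agent.H75.PSys.StepIff

/-!
Local analysis of the regions of the simulating P system.
-/

set_option linter.unusedSectionVars false
set_option linter.unusedSimpArgs false

namespace Pool.Agent.H75.PSys

open Multiset

variable {Q R : Type} [Fintype Q] [DecidableEq Q] [Fintype R] [DecidableEq R]

/-- What remains in a region and is produced for it. -/
def nxt (X : Multiset (Obj Q R)) (a b : Pick (Obj Q R)) : Multiset (Obj Q R) :=
  X - (used a + used b) + fltr .here (prods a + prods b)

/-- What is sent out. -/
def msg (a b : Pick (Obj Q R)) : Multiset (Obj Q R) := fltr .out (prods a + prods b)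

/-- Register contents. -/
abbrev os (Q : Type) {R : Type} (r : R) (n : ℕ) : Multiset (Obj Q R) := replicate n (.o r)

@[simp] theorem A1_b (r : R) : A1 r (.b : Obj Q R) = {{(.b, .here)}, 0} := rfl
@[simp] theorem A1_o (r : R) : A1 r (.o r : Obj Q R) = {{(.o r, .out)}} := by simp [A1]
@[simp] theorem A1_p (r : R) : A1 r (.p r : Obj Q R) = {{(.x r, .here), (.y r, .here)}} := by
  simp [A1]
@[simp] theorem A1_z (r : R) : A1 r (.z r : Obj Q R) = {{(.w r, .here)}} := by simp [A1]
@[simp] theorem A1_x (r i : R) : A1 r (.x i : Obj Q R) = {trapOut} := rfl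
@[simp] theorem A1_y (r i : R) : A1 r (.y i : Obj Q R) = {trapOut} := rfl
@[simp] theorem A1_w (r i : R) : A1 r (.w i : Obj Q R) = {trapOut} := rfl
@[simp] theorem A2_b : A2 (.b : Obj Q R) = {trapOut} := rfl
@[simp] theorem A2_o (r : R) : A2 (.o r : Obj Q R) = ∅ := rfl
@[simp] theorem A2_p (r : R) : A2 (.p r : Obj Q R) = {trapOut} := rfl
@[simp] theorem A2_z (r : R) : A2 (.z r : Obj Q R) = {trapOut} := rfl
@[simp] theorem A2_x (r : R) : A2 (.x r : Obj Q R) = {{(.b, .here)}} := rfl
@[simp] theorem A2_y (r : R) : A2 (.y r : Obj Q R) = {0} := rfl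
@[simp] theorem A2_w (r : R) : A2 (.w r : Obj Q R) = {{(.b, .here)}} := rfl

theorem trap_mem_nxt_left {X : Multiset (Obj Q R)} {b : Pick (Obj Q R)} {o : Obj Q R} :
    Obj.trap ∈ nxt X (some (o, trapOut)) b := by
  unfold nxt
  rw [mem_add]
  right
  rw [fltr_add, mem_add]
  left
  simp [trapOut, fltr_singleton]

theorem trap_mem_nxt_right {X : Multiset (Obj Q R)} {a : Pick (Obj Q R)} {o : Obj Q R} :
    Obj.trap ∈ nxt X a (some (o, trapOut)) := by
  unfold nxt
  rw [mem_add]
  right
  rw [fltr_add, mem_add]
  right
  simp [trapOut, fltr_singleton]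

theorem LocalMax.mem1 {T1 T2 : Obj Q R → Set (Out (Obj Q R))} {X : Multiset (Obj Q R)}
    {b : Pick (Obj Q R)} {o : Obj Q R} {v : Out (Obj Q R)}
    (h : LocalMax T1 T2 X (some (o, v)) b) : o ∈ X := by
  have := h.le
  exact mem_of_le ((le_add_of_nonneg_right (zero_le)).trans this) (mem_singleton_self o)

theorem LocalMax.mem2 {T1 T2 : Obj Q R → Set (Out (Obj Q R))} {X : Multiset (Obj Q R)}
    {a : Pick (Obj Q R)} {o : Obj Q R} {v : Out (Obj Q R)}
    (h : LocalMax T1 T2 X a (some (o, v))) : o ∈ X := by
  have := h.le
  exact mem_of_le ((le_add_of_nonneg_left (zero_le)).trans this) (mem_singleton_self o)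

theorem nxt_of {X : Multiset (Obj Q R)} {a b : Pick (Obj Q R)} (rest : Multiset (Obj Q R))
    (h : X = used a + used b + rest) : nxt X a b = rest + fltr .here (prods a + prods b) := by
  rw [nxt, h, add_tsub_cancel_left]

/-- The message sent by a pick that emits a register object. -/
theorem msg_ne_zero {r : R} {b : Pick (Obj Q R)} {o : Obj Q R} :
    msg (some (o, {(.o r, .out)})) b ≠ 0 := by
  unfold msg
  rw [prods_some, fltr_add, fltr_singleton, if_pos rfl]
  simp

/-- A counter region at rest. -/
def IsRest (r : R) (n : ℕ) (X : Multiset (Obj Q R)) : Prop := X = os Q r n ∨ X = .b ::ₘ os Q r n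

theorem rest_step {r : R} {n : ℕ} {X : Multiset (Obj Q R)} (hX : IsRest r n X)
    {a b : Pick (Obj Q R)} (h : LocalMax (A1 r) A2 X a b) :
    .trap ∈ nxt X a b ∨ msg a b ≠ 0 ∨ (msg a b = 0 ∧ IsRest r n (nxt X a b)) := by
  -- the second catalyst
  rcases b with _ | ⟨o', v'⟩
  swap
  · left
    have h1 := h.val2 o' v' rfl
    have h2 := h.mem2
    rcases hX with rfl | rfl
    · rw [mem_replicate] at h2
      rw [h2.2, A2_o] at h1
      exact absurd h1 (by simp)
    · rw [mem_cons, mem_replicate] at h2
      rcases h2 with rfl | h2
      · rw [A2_b, Set.mem_singleton_iff] at h1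
        rw [h1]
        exact trap_mem_nxt_right
      · rw [h2.2, A2_o] at h1
        exact absurd h1 (by simp)
  rcases a with _ | ⟨o, v⟩
  · right; right
    have h1 := h.max1 rfl
    rw [used_none, tsub_zero] at h1
    refine ⟨by simp [msg], ?_⟩
    rcases hX with rfl | rfl
    · left
      simp [nxt]
    · exfalso
      have := h1 .b (mem_cons_self _ _)
      rw [A1_b] at this
      exact absurd this (Set.insert_nonempty _ _).ne_empty
  · have h1 := h.val1 o v rfl
    have h2 := h.mem1
    rcases hX with rfl | rfl
    · rw [mem_replicate] at h2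
      obtain ⟨_, rfl⟩ := h2
      rw [A1_o, Set.mem_singleton_iff] at h1
      subst h1
      right; left
      exact msg_ne_zero
    · rw [mem_cons, mem_replicate] at h2
      rcases h2 with rfl | ⟨_, rfl⟩
      · right; right
        rw [A1_b, Set.mem_insert_iff, Set.mem_singleton_iff] at h1
        rcases h1 with rfl | rfl
        · refine ⟨by simp [msg, fltr_singleton], Or.inr ?_⟩
          rw [nxt_of (os Q r n) (by simp [← singleton_add])]
          simp only [prods_some, prods_none, add_zero, fltr_singleton, reduceIte, ← singleton_add]
          abel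
        · refine ⟨by simp [msg], Or.inl ?_⟩
          rw [nxt_of (os Q r n) (by simp [← singleton_add])]
          simp
      · rw [A1_o, Set.mem_singleton_iff] at h1
        subst h1
        right; left
        exact msg_ne_zero

/-- A counter region into which a probe `p` has just been sent. -/
def IsP (r : R) (n : ℕ) (X : Multiset (Obj Q R)) : Prop :=
  X = .p r ::ₘ os Q r n ∨ X = .p r ::ₘ .b ::ₘ os Q r n

/-- A counter region in which the decrement takes place. -/
def IsXY (r : R) (n : ℕ) (X : Multiset (Obj Q R)) : Prop := X = .x r ::ₘ .y r ::ₘ os Q r n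

/-- A counter region after the decrement. -/
def IsAfter (r : R) (n : ℕ) (X : Multiset (Obj Q R)) : Prop :=
  X = .b ::ₘ .y r ::ₘ os Q r n ∨ X = .x r ::ₘ os Q r n

/-- A counter region into which a probe `z` has just been sent. -/
def IsZ (r : R) (n : ℕ) (X : Multiset (Obj Q R)) : Prop :=
  X = .z r ::ₘ os Q r n ∨ X = .z r ::ₘ .b ::ₘ os Q r n

/-- A counter region during the test for zero. -/
def IsW (r : R) (n : ℕ) (X : Multiset (Obj Q R)) : Prop := X = .w r ::ₘ os Q r n

theorem p_step {r : R} {n : ℕ} {X : Multiset (Obj Q R)} (hX : IsP r n X)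
    {a b : Pick (Obj Q R)} (h : LocalMax (A1 r) A2 X a b) :
    .trap ∈ nxt X a b ∨ (msg a b = 0 ∧ IsXY r n (nxt X a b)) := by
  rcases b with _ | ⟨o', v'⟩
  swap
  · left
    have h1 := h.val2 o' v' rfl
    have h2 := h.mem2
    have h3 : o' = .p r ∨ o' = .b ∨ o' = .o r := by
      rcases hX with rfl | rfl
      · rw [mem_cons, mem_replicate] at h2; tauto
      · rw [mem_cons, mem_cons, mem_replicate] at h2; tauto
    rcases h3 with rfl | rfl | rfl
    · rw [A2_p, Set.mem_singleton_iff] at h1
      rw [h1]; exact trap_mem_nxt_right
    · rw [A2_b, Set.mem_singleton_iff] at h1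
      rw [h1]; exact trap_mem_nxt_right
    · rw [A2_o] at h1
      exact absurd h1 (by simp)
  have hmax := h.max2 rfl
  rcases a with _ | ⟨o, v⟩
  · exfalso
    have := hmax (.p r) (by rcases hX with rfl | rfl <;> simp)
    simp at this
  · have h1 := h.val1 o v rfl
    have h2 := h.mem1
    by_cases hop : o = .p r
    · subst hop
      rw [A1_p, Set.mem_singleton_iff] at h1
      subst h1
      rcases hX with rfl | rfl
      · right
        refine ⟨by simp [msg, fltr_cons, fltr_singleton], ?_⟩
        rw [IsXY, nxt_of (os Q r n) (by simp [← singleton_add])]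
        simp only [prods_some, prods_none, add_zero, insert_eq_cons, fltr_cons, fltr_singleton,
          reduceIte, ← singleton_add]
        abel
      · exfalso
        have := hmax .b (by simp)
        simp at this
    · exfalso
      have hp : (.p r : Obj Q R) ∈ X := by rcases hX with rfl | rfl <;> simp
      have := hmax (.p r) (by
        rw [used_some, mem_sub, count_singleton, if_neg (Ne.symm hop)]
        exact count_pos.2 hp)
      simp at this

theorem xy_step {r : R} {n : ℕ} {X : Multiset (Obj Q R)} (hX : IsXY r n X)
    {a b : Pick (Obj Q R)} (h : LocalMax (A1 r) A2 X a b) :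
    .trap ∈ nxt X a b ∨ ∃ m, n = m + 1 ∧ msg a b = {.o r} ∧ IsAfter r m (nxt X a b) := by
  unfold IsXY at hX
  subst hX
  rcases a with _ | ⟨o, v⟩
  · exfalso
    have hmax := h.max1 rfl
    -- one of `x r`, `y r` is left
    have hx : (.x r : Obj Q R) ∈ (.x r ::ₘ .y r ::ₘ os Q r n) - used b ∨
        (.y r : Obj Q R) ∈ (.x r ::ₘ .y r ::ₘ os Q r n) - used b := by
      rcases b with _ | ⟨o', v'⟩
      · left; simp
      · by_cases hx : o' = .x r
        · subst hx; right; simp
        · left
          rw [used_some, mem_sub, count_singleton, if_neg (Ne.symm hx)]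
          exact count_pos.2 (mem_cons_self _ _)
    rcases hx with hx | hx
    · have := hmax _ hx
      simp at this
    · have := hmax _ hx
      simp at this
  · have h1 := h.val1 o v rfl
    have h2 := h.mem1
    rw [mem_cons, mem_cons, mem_replicate] at h2
    rcases h2 with rfl | rfl | ⟨hn, rfl⟩
    · rw [A1_x, Set.mem_singleton_iff] at h1
      left; rw [h1]; exact trap_mem_nxt_left
    · rw [A1_y, Set.mem_singleton_iff] at h1
      left; rw [h1]; exact trap_mem_nxt_left
    · right
      obtain ⟨m, rfl⟩ := Nat.exists_eq_succ_of_ne_zero hn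
      rw [A1_o, Set.mem_singleton_iff] at h1
      subst h1
      refine ⟨m, rfl, ?_⟩
      rcases b with _ | ⟨o', v'⟩
      · exfalso
        have hmax := h.max2 rfl (.x r) (by
          rw [used_some, mem_sub, count_singleton, if_neg (by simp)]
          exact count_pos.2 (mem_cons_self _ _))
        simp at hmax
      · have h3 := h.val2 o' v' rfl
        have h4 := h.mem2
        rw [mem_cons, mem_cons, mem_replicate] at h4
        rcases h4 with rfl | rfl | ⟨_, rfl⟩
        · rw [A2_x, Set.mem_singleton_iff] at h3
          subst h3
          refine ⟨by simp [msg, fltr_cons, fltr_singleton], Or.inl ?_⟩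
          rw [nxt_of (.y r ::ₘ os Q r m) (by
            simp only [used_some, os, Nat.succ_eq_add_one, replicate_succ, ← singleton_add]
            abel)]
          simp only [prods_some, fltr_add, fltr_singleton, reduceCtorEq, reduceIte,
            ← singleton_add]
          abel
        · rw [A2_y, Set.mem_singleton_iff] at h3
          subst h3
          refine ⟨by simp [msg, fltr_add, fltr_singleton], Or.inr ?_⟩
          rw [nxt_of (.x r ::ₘ os Q r m) (by
            simp only [used_some, os, Nat.succ_eq_add_one, replicate_succ, ← singleton_add]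
            abel)]
          simp only [prods_some, fltr_add, fltr_singleton, reduceCtorEq, reduceIte, fltr_zero,
            ← singleton_add]
          abel
        · rw [A2_o] at h3
          exact absurd h3 (by simp)

theorem after_step {r : R} {n : ℕ} {X : Multiset (Obj Q R)} (hX : IsAfter r n X)
    {a b : Pick (Obj Q R)} (h : LocalMax (A1 r) A2 X a b) :
    .trap ∈ nxt X a b ∨ msg a b ≠ 0 ∨ (msg a b = 0 ∧ IsRest r n (nxt X a b)) := by
  rcases hX with rfl | rfl
  · -- the blocker and `y`
    rcases b with _ | ⟨o', v'⟩
    · exfalso
      have hmax := h.max2 rfl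
      have hx : (.b : Obj Q R) ∈ (.b ::ₘ .y r ::ₘ os Q r n) - used a ∨
          (.y r : Obj Q R) ∈ (.b ::ₘ .y r ::ₘ os Q r n) - used a := by
        rcases a with _ | ⟨o', v'⟩
        · left; simp
        · by_cases hx : o' = .b
          · subst hx; right; simp
          · left
            rw [used_some, mem_sub, count_singleton, if_neg (Ne.symm hx)]
            exact count_pos.2 (mem_cons_self _ _)
      rcases hx with hx | hx
      · have := hmax _ hx
        simp at this
      · have := hmax _ hx
        simp at this
    · have h3 := h.val2 o' v' rfl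
      have h4 := h.mem2
      rw [mem_cons, mem_cons, mem_replicate] at h4
      rcases h4 with rfl | rfl | ⟨_, rfl⟩
      · rw [A2_b, Set.mem_singleton_iff] at h3
        left; rw [h3]; exact trap_mem_nxt_right
      · rw [A2_y, Set.mem_singleton_iff] at h3
        subst h3
        rcases a with _ | ⟨o, v⟩
        · exfalso
          have hmax := h.max1 rfl .b (by
            rw [used_some, mem_sub, count_singleton, if_neg (by simp)]
            exact count_pos.2 (mem_cons_self _ _))
          rw [A1_b] at hmax
          exact absurd hmax (Set.insert_nonempty _ _).ne_empty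
        · have h1 := h.val1 o v rfl
          have h2 := h.mem1
          rw [mem_cons, mem_cons, mem_replicate] at h2
          rcases h2 with rfl | rfl | ⟨_, rfl⟩
          · right; right
            rw [A1_b, Set.mem_insert_iff, Set.mem_singleton_iff] at h1
            rcases h1 with rfl | rfl
            · refine ⟨by simp [msg, fltr_add, fltr_singleton], Or.inr ?_⟩
              rw [nxt_of (os Q r n) (by
                simp only [used_some, ← singleton_add]; abel)]
              simp only [prods_some, fltr_add, fltr_singleton, reduceIte, fltr_zero,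
                ← singleton_add]
              abel
            · refine ⟨by simp [msg], Or.inl ?_⟩
              rw [nxt_of (os Q r n) (by
                simp only [used_some, ← singleton_add]; abel)]
              simp
          · rw [A1_y, Set.mem_singleton_iff] at h1
            left; rw [h1]; exact trap_mem_nxt_left
          · rw [A1_o, Set.mem_singleton_iff] at h1
            subst h1
            right; left
            exact msg_ne_zero
      · rw [A2_o] at h3
        exact absurd h3 (by simp)
  · -- the symbol `x`
    rcases a with _ | ⟨o, v⟩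
    · rcases b with _ | ⟨o', v'⟩
      · exfalso
        have hmax := h.max1 rfl (.x r) (by simp)
        simp at hmax
      · have h3 := h.val2 o' v' rfl
        have h4 := h.mem2
        rw [mem_cons, mem_replicate] at h4
        rcases h4 with rfl | ⟨_, rfl⟩
        · rw [A2_x, Set.mem_singleton_iff] at h3
          subst h3
          right; right
          refine ⟨by simp [msg, fltr_singleton], ?_⟩
          rcases Nat.eq_zero_or_pos n with rfl | hn
          · right
            rw [nxt_of (os Q r 0) (by simp [← singleton_add])]
            simp [fltr_singleton]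
          · exfalso
            have hmax := h.max1 rfl (.o r) (by
              rw [used_some, mem_sub, count_singleton, if_neg (by simp)]
              exact count_pos.2 (mem_cons_of_mem (mem_replicate.2 ⟨by omega, rfl⟩)))
            simp at hmax
        · rw [A2_o] at h3
          exact absurd h3 (by simp)
    · have h1 := h.val1 o v rfl
      have h2 := h.mem1
      rw [mem_cons, mem_replicate] at h2
      rcases h2 with rfl | ⟨_, rfl⟩
      · rw [A1_x, Set.mem_singleton_iff] at h1
        left; rw [h1]; exact trap_mem_nxt_left
      · rw [A1_o, Set.mem_singleton_iff] at h1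
        subst h1
        right; left
        exact msg_ne_zero

theorem z_step {r : R} {n : ℕ} {X : Multiset (Obj Q R)} (hX : IsZ r n X)
    {a b : Pick (Obj Q R)} (h : LocalMax (A1 r) A2 X a b) :
    .trap ∈ nxt X a b ∨ (msg a b = 0 ∧ IsW r n (nxt X a b)) := by
  rcases b with _ | ⟨o', v'⟩
  swap
  · left
    have h1 := h.val2 o' v' rfl
    have h2 := h.mem2
    have h3 : o' = .z r ∨ o' = .b ∨ o' = .o r := by
      rcases hX with rfl | rfl
      · rw [mem_cons, mem_replicate] at h2; tauto
      · rw [mem_cons, mem_cons, mem_replicate] at h2; tauto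
    rcases h3 with rfl | rfl | rfl
    · rw [A2_z, Set.mem_singleton_iff] at h1
      rw [h1]; exact trap_mem_nxt_right
    · rw [A2_b, Set.mem_singleton_iff] at h1
      rw [h1]; exact trap_mem_nxt_right
    · rw [A2_o] at h1
      exact absurd h1 (by simp)
  have hmax := h.max2 rfl
  rcases a with _ | ⟨o, v⟩
  · exfalso
    have := hmax (.z r) (by rcases hX with rfl | rfl <;> simp)
    simp at this
  · have h1 := h.val1 o v rfl
    have h2 := h.mem1
    by_cases hop : o = .z r
    · subst hop
      rw [A1_z, Set.mem_singleton_iff] at h1
      subst h1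
      rcases hX with rfl | rfl
      · right
        refine ⟨by simp [msg, fltr_singleton], ?_⟩
        rw [IsW, nxt_of (os Q r n) (by simp [← singleton_add])]
        simp only [prods_some, prods_none, add_zero, fltr_singleton,
          reduceIte, ← singleton_add]
        abel
      · exfalso
        have := hmax .b (by simp)
        simp at this
    · exfalso
      have hp : (.z r : Obj Q R) ∈ X := by rcases hX with rfl | rfl <;> simp
      have := hmax (.z r) (by
        rw [used_some, mem_sub, count_singleton, if_neg (Ne.symm hop)]
        exact count_pos.2 hp)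
      simp at this

theorem w_step {r : R} {n : ℕ} {X : Multiset (Obj Q R)} (hX : IsW r n X)
    {a b : Pick (Obj Q R)} (h : LocalMax (A1 r) A2 X a b) :
    .trap ∈ nxt X a b ∨ msg a b ≠ 0 ∨ (n = 0 ∧ msg a b = 0 ∧ IsRest r n (nxt X a b)) := by
  unfold IsW at hX
  subst hX
  rcases a with _ | ⟨o, v⟩
  · rcases b with _ | ⟨o', v'⟩
    · exfalso
      have hmax := h.max1 rfl (.w r) (by simp)
      simp at hmax
    · have h3 := h.val2 o' v' rfl
      have h4 := h.mem2
      rw [mem_cons, mem_replicate] at h4
      rcases h4 with rfl | ⟨_, rfl⟩
      · rw [A2_w, Set.mem_singleton_iff] at h3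
        subst h3
        right; right
        rcases Nat.eq_zero_or_pos n with rfl | hn
        · refine ⟨rfl, by simp [msg, fltr_singleton], Or.inr ?_⟩
          rw [nxt_of (os Q r 0) (by simp [← singleton_add])]
          simp [fltr_singleton]
        · exfalso
          have hmax := h.max1 rfl (.o r) (by
            rw [used_some, mem_sub, count_singleton, if_neg (by simp)]
            exact count_pos.2 (mem_cons_of_mem (mem_replicate.2 ⟨by omega, rfl⟩)))
          simp at hmax
      · rw [A2_o] at h3
        exact absurd h3 (by simp)
  · have h1 := h.val1 o v rfl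
    have h2 := h.mem1
    rw [mem_cons, mem_replicate] at h2
    rcases h2 with rfl | ⟨_, rfl⟩
    · rw [A1_w, Set.mem_singleton_iff] at h1
      left; rw [h1]; exact trap_mem_nxt_left
    · rw [A1_o, Set.mem_singleton_iff] at h1
      subst h1
      right; left
      exact msg_ne_zero

end Pool.Agent.H75.PSys
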