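import Pool.Agent.H75.PSys.Universal

/-!
Every recursively enumerable set of natural numbers is generated by a purely catalytic P system
with two catalysts and three membranes.
-/

set_option linter.unusedSectionVars false

namespace Pool.Agent.H75.PSys

open Multiset

theorem N_sys_eq {Q R : Type} [Fintype Q] [DecidableEq Q] [Fintype R] [DecidableEq R] [Nonempty R]
    (prog : Q → Instr Q R) (q0 : Q) {S : Set ℕ}
    (h1 : ∀ q n e, Relation.ReflTransGen (MStep prog) (q0, 0, 0) (q, n, e) →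
      prog q = .stop → e ∈ S)
    (h2 : ∀ e ∈ S, ∃ q, Relation.ReflTransGen (MStep prog) (q0, 0, 0) (q, 0, e) ∧
      prog q = .stop) :
    (sys prog q0).N = S := by
  ext e
  constructor
  · rintro ⟨c, hc, hh, hr⟩
    rw [init_eq] at hc
    obtain ⟨y, hy, rfl⟩ := (steps_iff prog q0 (canon_clean _) c).1 hc
    have hr' : y.e = e := hr
    obtain ⟨n', hn'⟩ := sound hy ((halting_iff prog q0).1 hh) (inPhase_init q0)
    rw [hr'] at hn'
    obtain ⟨q, n, h3, h4⟩ := goodFrom hn'
    exact h1 q n e h3 h4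
  · intro he
    obtain ⟨q, h, hs⟩ := h2 e he
    refine ⟨toConf prog q0 (canon (.fin, 0, e)), ?_, (halting_iff prog q0).2 halt_fin, rfl⟩
    rw [init_eq, steps_iff prog q0 (canon_clean _)]
    exact ⟨_, (canon_of_msteps h).tail (stop_step hs), rfl⟩

theorem w_count {Q R : Type} [Fintype Q] [DecidableEq Q] [Fintype R] [DecidableEq R]
    (prog : Q → Instr Q R) (q0 : Q) (m : Option R) (c : Obj Q R)
    (hc : c ∈ ({.c1, .c2} : Finset (Obj Q R))) :
    count c ((sys prog q0).w m : Multiset (Obj Q R)) = 1 := by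
  rw [Finset.mem_insert, Finset.mem_singleton] at hc
  rcases m with _ | r
  · change count c ({.c1, .c2, .ctrl (.P q0)} : Multiset (Obj Q R)) = 1
    rcases hc with rfl | rfl <;> simp
  · change count c ({.c1, .c2, .b} : Multiset (Obj Q R)) = 1
    rcases hc with rfl | rfl <;> simp

/-- The lower bound. -/
theorem exists_system {S : Set ℕ} (hS : S ∈ NRE) :
    ∃ Γ : PSystem, Fintype.card Γ.M = 3 ∧ Γ.C.card = 2 ∧
      (∀ m, ∀ c ∈ Γ.C, count c (Γ.w m) = 1) ∧
      (∀ m, ∀ ρ ∈ Γ.rules m, ∀ p ∈ ρ.prod, p.1 ∉ Γ.C) ∧ Γ.iout = none ∧ Γ.N = S := by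
  obtain ⟨Q, _, _, prog, q0, h1, h2⟩ := exists_two_counter hS
  refine ⟨sys prog q0, ?_, ?_, w_count prog q0, sys_no_catalyst prog q0, rfl,
    N_sys_eq prog q0 h1 h2⟩
  · change Fintype.card (Option (Fin 2)) = 3
    rfl
  · change Finset.card ({.c1, .c2} : Finset (Obj Q (Fin 2))) = 2
    exact Finset.card_pair (by simp)

end Pool.Agent.H75.PSys
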