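import Pool.Agent.H75.PSys.Complete
import Pool.Agent.H83.CounterMachine

/-!
Every recursively enumerable set of natural numbers is generated by a nondeterministic counter
machine with two counters and output.
-/

set_option linter.unusedSectionVars false
set_option linter.unusedSimpArgs false

namespace Pool.Agent.H75.PSys

open Function

section Acc

variable {Q R : Type} [DecidableEq R]

/-- A computation of length `k` leads from `c` to a halting configuration which satisfies `F`. -/
def Acc (prog : Q → Instr Q R) (F : Q × (R → ℕ) × ℕ → Prop) : ℕ → Q × (R → ℕ) × ℕ → Prop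
  | 0, c => prog c.1 = .stop ∧ F c
  | k + 1, c => ∃ c', MStep prog c c' ∧ Acc prog F k c'

theorem reach_of_acc {prog : Q → Instr Q R} {F : Q × (R → ℕ) × ℕ → Prop} {k : ℕ}
    {c : Q × (R → ℕ) × ℕ} (h : Acc prog F k c) :
    ∃ c', Relation.ReflTransGen (MStep prog) c c' ∧ prog c'.1 = .stop ∧ F c' := by
  induction k generalizing c with
  | zero => exact ⟨c, .refl, h.1, h.2⟩
  | succ k ih =>
    obtain ⟨c', h1, h2⟩ := h
    obtain ⟨c'', h3, h4⟩ := ih h2
    exact ⟨c'', .head h1 h3, h4⟩

theorem acc_of_reach {prog : Q → Instr Q R} {F : Q × (R → ℕ) × ℕ → Prop}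
    {c c' : Q × (R → ℕ) × ℕ} (h : Relation.ReflTransGen (MStep prog) c c')
    (h1 : prog c'.1 = .stop) (h2 : F c') : ∃ k, Acc prog F k c := by
  induction h using Relation.ReflTransGen.head_induction_on with
  | refl => exact ⟨0, h1, h2⟩
  | head h3 _ ih =>
    obtain ⟨k, hk⟩ := ih
    exact ⟨k + 1, _, h3, hk⟩

/-- All computations from `c` pass through `c'` after exactly `d` steps. -/
def LeadsIn (prog : Q → Instr Q R) (d : ℕ) (c c' : Q × (R → ℕ) × ℕ) : Prop :=
  ∀ F k, Acc prog F k c ↔ ∃ k', k = k' + d ∧ Acc prog F k' c'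

theorem LeadsIn.refl (prog : Q → Instr Q R) (c : Q × (R → ℕ) × ℕ) : LeadsIn prog 0 c c := by
  intro F k
  constructor
  · exact fun h => ⟨k, rfl, h⟩
  · rintro ⟨k', rfl, h⟩
    exact h

theorem LeadsIn.trans {prog : Q → Instr Q R} {d d' : ℕ} {c c' c'' : Q × (R → ℕ) × ℕ}
    (h : LeadsIn prog d c c') (h' : LeadsIn prog d' c' c'') : LeadsIn prog (d' + d) c c'' := by
  intro F k
  rw [h F k]
  constructor
  · rintro ⟨k', rfl, h1⟩
    obtain ⟨k'', rfl, h2⟩ := (h' F k').1 h1
    exact ⟨k'', by omega, h2⟩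
  · rintro ⟨k'', rfl, h2⟩
    exact ⟨k'' + d', by omega, (h' F _).2 ⟨k'', rfl, h2⟩⟩

theorem leadsIn_one {prog : Q → Instr Q R} {c c' : Q × (R → ℕ) × ℕ} (h1 : prog c.1 ≠ .stop)
    (h2 : ∀ c'', MStep prog c c'' ↔ c'' = c') : LeadsIn prog 1 c c' := by
  intro F k
  cases k with
  | zero =>
    constructor
    · exact fun h => absurd h.1 h1
    · rintro ⟨k', h, _⟩
      omega
  | succ k =>
    constructor
    · rintro ⟨c'', h3, h4⟩
      rw [h2] at h3
      subst h3
      exact ⟨k, rfl, h4⟩
    · rintro ⟨k', h, h4⟩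
      have : k' = k := by omega
      subst this
      exact ⟨c', (h2 c').2 rfl, h4⟩

theorem leadsIn_goto {prog : Q → Instr Q R} {q l : Q} {n : R → ℕ} {e : ℕ}
    (h : prog q = .goto l) : LeadsIn prog 1 (q, n, e) (l, n, e) := by
  refine leadsIn_one (by simp [h]) fun c'' => ⟨fun h' => ?_, ?_⟩
  · cases h' <;> simp_all
  · rintro rfl
    exact .goto h

theorem leadsIn_emit {prog : Q → Instr Q R} {q l : Q} {n : R → ℕ} {e : ℕ}
    (h : prog q = .emit l) : LeadsIn prog 1 (q, n, e) (l, n, e + 1) := by
  refine leadsIn_one (by simp [h]) fun c'' => ⟨fun h' => ?_, ?_⟩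
  · cases h' <;> simp_all
  · rintro rfl
    exact .emit h

theorem leadsIn_inc {prog : Q → Instr Q R} {q l : Q} {r : R} {n : R → ℕ} {e : ℕ}
    (h : prog q = .inc r l) : LeadsIn prog 1 (q, n, e) (l, update n r (n r + 1), e) := by
  refine leadsIn_one (by simp [h]) fun c'' => ⟨fun h' => ?_, ?_⟩
  · cases h' with
    | inc hq =>
      rw [h] at hq
      cases hq
      rfl
    | goto hq => rw [h] at hq; cases hq
    | emit hq => rw [h] at hq; cases hq
    | forkL hq => rw [h] at hq; cases hq
    | forkR hq => rw [h] at hq; cases hq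
    | dec hq _ => rw [h] at hq; cases hq
    | zero hq _ => rw [h] at hq; cases hq
  · rintro rfl
    exact .inc h

theorem leadsIn_zero {prog : Q → Instr Q R} {q l0 l1 : Q} {r : R} {n : R → ℕ} {e : ℕ}
    (h : prog q = .jz r l0 l1) (hn : n r = 0) : LeadsIn prog 1 (q, n, e) (l0, n, e) := by
  refine leadsIn_one (by simp [h]) fun c'' => ⟨fun h' => ?_, ?_⟩
  · cases h' with
    | inc hq => rw [h] at hq; cases hq
    | goto hq => rw [h] at hq; cases hq
    | emit hq => rw [h] at hq; cases hq
    | forkL hq => rw [h] at hq; cases hq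
    | forkR hq => rw [h] at hq; cases hq
    | dec hq hm =>
      rw [h] at hq
      cases hq
      omega
    | zero hq _ =>
      rw [h] at hq
      cases hq
      rfl
  · rintro rfl
    exact .zero h hn

theorem leadsIn_dec {prog : Q → Instr Q R} {q l0 l1 : Q} {r : R} {n : R → ℕ} {e m : ℕ}
    (h : prog q = .jz r l0 l1) (hn : n r = m + 1) :
    LeadsIn prog 1 (q, n, e) (l1, update n r m, e) := by
  refine leadsIn_one (by simp [h]) fun c'' => ⟨fun h' => ?_, ?_⟩
  · cases h' with
    | inc hq => rw [h] at hq; cases hq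
    | goto hq => rw [h] at hq; cases hq
    | emit hq => rw [h] at hq; cases hq
    | forkL hq => rw [h] at hq; cases hq
    | forkR hq => rw [h] at hq; cases hq
    | dec hq hm =>
      rw [h] at hq
      cases hq
      have h5 := hm.symm.trans hn
      rw [Nat.add_right_cancel h5]
    | zero hq hm =>
      rw [h] at hq
      cases hq
      omega
  · rintro rfl
    exact .dec h hn

theorem acc_fork {prog : Q → Instr Q R} {q l l' : Q} {n : R → ℕ} {e : ℕ}
    (h : prog q = .fork l l') (F : Q × (R → ℕ) × ℕ → Prop) (k : ℕ) :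
    Acc prog F k (q, n, e) ↔ ∃ k', k = k' + 1 ∧
      (Acc prog F k' (l, n, e) ∨ Acc prog F k' (l', n, e)) := by
  cases k with
  | zero =>
    constructor
    · intro h'
      have h1 : prog q = .stop := h'.1
      rw [h] at h1
      cases h1
    · rintro ⟨k', h, _⟩
      omega
  | succ k =>
    constructor
    · rintro ⟨c'', h3, h4⟩
      refine ⟨k, rfl, ?_⟩
      cases h3 with
      | forkL hq => rw [h] at hq; cases hq; exact Or.inl h4
      | forkR hq => rw [h] at hq; cases hq; exact Or.inr h4
      | inc hq => rw [h] at hq; cases hq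
      | goto hq => rw [h] at hq; cases hq
      | emit hq => rw [h] at hq; cases hq
      | dec hq _ => rw [h] at hq; cases hq
      | zero hq _ => rw [h] at hq; cases hq
    · rintro ⟨k', hk, h4⟩
      have : k' = k := by omega
      subst this
      rcases h4 with h4 | h4
      · exact ⟨_, .forkL h, h4⟩
      · exact ⟨_, .forkR h, h4⟩

/-- All computations from `c` pass through `c'`. -/
def Lead0 (prog : Q → Instr Q R) (c c' : Q × (R → ℕ) × ℕ) : Prop := ∃ d, LeadsIn prog d c c'

/-- All computations from `c` pass through `c'` after at least one step. -/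
def Lead (prog : Q → Instr Q R) (c c' : Q × (R → ℕ) × ℕ) : Prop :=
  ∃ d, LeadsIn prog (d + 1) c c'

theorem Lead0.refl (prog : Q → Instr Q R) (c : Q × (R → ℕ) × ℕ) : Lead0 prog c c :=
  ⟨0, LeadsIn.refl prog c⟩

theorem Lead0.trans {prog : Q → Instr Q R} {c c' c'' : Q × (R → ℕ) × ℕ}
    (h : Lead0 prog c c') (h' : Lead0 prog c' c'') : Lead0 prog c c'' := by
  obtain ⟨d, h⟩ := h
  obtain ⟨d', h'⟩ := h'
  exact ⟨_, h.trans h'⟩

theorem Lead.trans {prog : Q → Instr Q R} {c c' c'' : Q × (R → ℕ) × ℕ}
    (h : Lead prog c c') (h' : Lead0 prog c' c'') : Lead prog c c'' := by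
  obtain ⟨d, h⟩ := h
  obtain ⟨d', h'⟩ := h'
  exact ⟨d' + d, h.trans h'⟩

theorem LeadsIn.head {prog : Q → Instr Q R} {c c' c'' : Q × (R → ℕ) × ℕ}
    (h : LeadsIn prog 1 c c') (h' : Lead0 prog c' c'') : Lead0 prog c c'' := by
  obtain ⟨d', h'⟩ := h'
  exact ⟨_, h.trans h'⟩

end Acc

/-! ### The two-counter machine -/

/-- Instructions of a machine that multiplies and divides a single positive number. -/
inductive MI (Q : Type)
  | goto (l : Q) | mul (k : ℕ) (l : Q) | div (k : ℕ) (l0 l1 : Q) | emit (l : Q)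
  | fork (l l' : Q) | halt

/-- The states of the two-counter machine. -/
inductive St (Q : Type) (P : ℕ)
  | start | at (q : Q)
  | mulA (k j : Fin (P + 1)) (l : Q)
  | mv (l : Q) | mv' (l : Q)
  | divA (k j : Fin (P + 1)) (l0 l1 : Q)
  | divI (k : Fin (P + 1)) (l0 l1 : Q)
  | resA (k i j : Fin (P + 1)) (l0 : Q)
  | resB (j : Fin (P + 1)) (l0 : Q)
  | clr | fin
  deriving DecidableEq, Fintype

/-- Truncation. -/
def mk (P n : ℕ) : Fin (P + 1) := ⟨min n P, by omega⟩

theorem mk_val {P n : ℕ} (h : n ≤ P) : (mk P n).val = n := by simp [mk, h]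

variable {Q : Type} {P : ℕ}

/-- The program of the two-counter machine. -/
def comp (mp : Q → MI Q) (q0 : Q) : St Q P → Instr (St Q P) (Fin 2)
  | .start => .inc 0 (.at q0)
  | .at q => match mp q with
    | .goto l => .goto (.at l)
    | .mul k l => .goto (.mulA (mk P k) 0 l)
    | .div k l0 l1 => .goto (.divA (mk P k) 0 l0 l1)
    | .emit l => .emit (.at l)
    | .fork l l' => .fork (.at l) (.at l')
    | .halt => .goto .clr
  | .mulA k j l => if j = 0 then .jz 0 (.mv l) (.mulA k k l) else .inc 1 (.mulA k (mk P (j - 1)) l)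
  | .mv l => .jz 1 (.at l) (.mv' l)
  | .mv' l => .inc 0 (.mv l)
  | .divA k j l0 l1 => .jz 0 (if j = 0 then .mv l1 else .resA k 0 j l0)
      (if j.val + 1 = k.val then .divI k l0 l1 else .divA k (mk P (j.val + 1)) l0 l1)
  | .divI k l0 l1 => .inc 1 (.divA k 0 l0 l1)
  | .resA k i j l0 => if i = 0 then .jz 1 (.resB j l0) (.resA k k j l0)
      else .inc 0 (.resA k (mk P (i - 1)) j l0)
  | .resB j l0 => if j = 0 then .goto (.at l0) else .inc 0 (.resB (mk P (j - 1)) l0)
  | .clr => .jz 0 .fin .clr
  | .fin => .stop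

theorem upd0 (a b x : ℕ) : update (![a, b] : Fin 2 → ℕ) 0 x = ![x, b] := by
  funext i
  fin_cases i <;> simp [update]

theorem upd1 (a b x : ℕ) : update (![a, b] : Fin 2 → ℕ) 1 x = ![a, x] := by
  funext i
  fin_cases i <;> simp [update]

section Micro

variable {mp : Q → MI Q} {q0 : Q}

theorem lead_mulA1 (k : Fin (P + 1)) (l : Q) (a e : ℕ) : ∀ (j : ℕ) (b : ℕ), (hj : j ≤ P) →
    Lead0 (comp mp q0) (.mulA k (mk P j) l, ![a, b], e) (.mulA k 0 l, ![a, b + j], e) := by
  intro j
  induction j with
  | zero => intro b hj; exact Lead0.refl _ _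
  | succ j ih =>
    intro b hj
    have hv : (mk P (j + 1)).val = j + 1 := mk_val hj
    have hne : mk P (j + 1) ≠ 0 := by
      intro h
      rw [h] at hv
      simp at hv
    have h1 := leadsIn_inc (prog := comp mp q0) (q := .mulA k (mk P (j + 1)) l)
      (l := .mulA k (mk P ((mk P (j + 1)).val - 1)) l) (r := 1) (n := ![a, b]) (e := e)
      (by simp [comp, hne])
    rw [hv, Nat.add_sub_cancel, upd1] at h1
    have h2 := ih (b + 1) (by omega)
    rw [show b + (j + 1) = b + 1 + j by omega]
    exact h1.head h2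

theorem lead_mulA2 (k : Fin (P + 1)) (l : Q) (e : ℕ) : ∀ (a b : ℕ),
    Lead0 (comp mp q0) (.mulA k 0 l, ![a, b], e) (.mv l, ![0, b + k * a], e) := by
  intro a
  induction a with
  | zero =>
    intro b
    exact (leadsIn_zero (prog := comp mp q0) (r := 0) (l1 := .mulA k k l)
      (by simp [comp]) (by simp)).head (Lead0.refl _ _)
  | succ a ih =>
    intro b
    have h1 := leadsIn_dec (prog := comp mp q0) (q := .mulA k 0 l) (r := 0) (l0 := .mv l)
      (l1 := .mulA k k l) (n := ![a + 1, b]) (e := e) (m := a) (by simp [comp]) (by simp)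
    rw [upd0] at h1
    have h2 := lead_mulA1 (mp := mp) (q0 := q0) k l a e k.val b (by omega)
    have h3 : mk P k.val = k := by
      ext
      rw [mk_val (by omega)]
    rw [h3] at h2
    have h4 := ih (b + k)
    rw [show b + k.val * (a + 1) = b + k.val + k.val * a by ring]
    exact h1.head (h2.trans h4)

theorem lead_mv (l : Q) (e : ℕ) : ∀ (b a : ℕ),
    Lead0 (comp (P := P) mp q0) (.mv l, ![a, b], e) (.at l, ![a + b, 0], e) := by
  intro b
  induction b with
  | zero =>
    intro a
    exact (leadsIn_zero (prog := comp mp q0) (r := 1) (l1 := .mv' l)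
      (by simp [comp]) (by simp)).head (Lead0.refl _ _)
  | succ b ih =>
    intro a
    have h1 := leadsIn_dec (prog := comp (P := P) mp q0) (q := .mv l) (r := 1) (l0 := .at l)
      (l1 := .mv' l) (n := ![a, b + 1]) (e := e) (m := b) (by simp [comp]) (by simp)
    rw [upd1] at h1
    have h2 := leadsIn_inc (prog := comp (P := P) mp q0) (q := .mv' l)
      (l := .mv l) (r := 0) (n := ![a, b]) (e := e) (by simp [comp])
    rw [upd0] at h2
    have h3 := ih (a + 1)
    rw [show a + (b + 1) = a + 1 + b by ring]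
    exact h1.head (h2.head h3)

/-- Multiplication. -/
theorem lead_mul {q l : Q} {k : ℕ} (hq : mp q = .mul k l) (hk : k ≤ P) (N e : ℕ) :
    Lead (comp (P := P) mp q0) (.at q, ![N, 0], e) (.at l, ![k * N, 0], e) := by
  have h1 := leadsIn_goto (prog := comp (P := P) mp q0) (q := .at q) (l := .mulA (mk P k) 0 l)
    (n := ![N, 0]) (e := e) (by simp [comp, hq])
  have h2 := lead_mulA2 (mp := mp) (q0 := q0) (mk P k) l e N 0
  have h3 := lead_mv (mp := mp) (q0 := q0) (P := P) l e (k * N) 0
  rw [mk_val hk, zero_add] at h2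
  rw [zero_add] at h3
  exact Lead.trans ⟨0, h1⟩ (h2.trans h3)

theorem lead_divA (k : Fin (P + 1)) (hk : 0 < k.val) (l0 l1 : Q) (e : ℕ) : ∀ (a b j : ℕ),
    j < k.val → Lead0 (comp mp q0) (.divA k (mk P j) l0 l1, ![a, b], e)
      (if k.val ∣ a + j then .mv l1 else .resA k 0 (mk P ((a + j) % k)) l0,
        ![0, b + (a + j) / k], e) := by
  intro a
  induction a with
  | zero =>
    intro b j hj
    have hv : (mk P j).val = j := mk_val (by omega)
    have h1 := leadsIn_zero (prog := comp mp q0) (q := .divA k (mk P j) l0 l1) (r := 0)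
      (l0 := if mk P j = 0 then .mv l1 else .resA k 0 (mk P j) l0)
      (l1 := if (mk P j).val + 1 = k.val then .divI k l0 l1
        else .divA k (mk P ((mk P j).val + 1)) l0 l1) (n := ![0, b]) (e := e)
      (by simp [comp]) (by simp)
    have h2 : (if mk P j = 0 then .mv l1 else .resA k 0 (mk P j) l0 : St Q P) =
        if k.val ∣ 0 + j then .mv l1 else .resA k 0 (mk P ((0 + j) % k)) l0 := by
      rw [zero_add, Nat.mod_eq_of_lt hj]
      rcases Nat.eq_zero_or_pos j with rfl | hj0
      · rw [if_pos (by ext; rw [hv]; rfl), if_pos (dvd_zero _)]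
      · rw [if_neg (by intro h; rw [h] at hv; simp at hv; omega),
          if_neg (Nat.not_dvd_of_pos_of_lt hj0 hj)]
    rw [h2] at h1
    have h3 : b + (0 + j) / k.val = b := by rw [zero_add, Nat.div_eq_of_lt hj, add_zero]
    rw [h3]
    exact ⟨1, h1⟩
  | succ a ih =>
    intro b j hj
    have hv : (mk P j).val = j := mk_val (by omega)
    have h1 := leadsIn_dec (prog := comp mp q0) (q := .divA k (mk P j) l0 l1) (r := 0)
      (l0 := if mk P j = 0 then .mv l1 else .resA k 0 (mk P j) l0)
      (l1 := if (mk P j).val + 1 = k.val then .divI k l0 l1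
        else .divA k (mk P ((mk P j).val + 1)) l0 l1) (n := ![a + 1, b]) (e := e) (m := a)
      (by simp [comp]) (by simp)
    rw [upd0, hv] at h1
    by_cases hjk : j + 1 = k.val
    · rw [if_pos hjk] at h1
      have h2 := leadsIn_inc (prog := comp (P := P) mp q0) (q := .divI k l0 l1)
        (l := .divA k 0 l0 l1) (r := 1) (n := ![a, b]) (e := e) (by simp [comp])
      rw [upd1] at h2
      have h3 := ih (b + 1) 0 hk
      have h4 : mk P 0 = 0 := rfl
      rw [h4, add_zero] at h3
      have h5 : a + 1 + j = a + k.val := by omega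
      have h6 : b + (a + 1 + j) / k.val = b + 1 + a / k.val := by
        rw [h5, Nat.add_div_right _ hk]
        omega
      rw [h6, h5, Nat.add_mod_right]
      simp only [Nat.dvd_add_self_right]
      exact h1.head (h2.head h3)
    · rw [if_neg hjk] at h1
      have h3 := ih b (j + 1) (by omega)
      rw [show a + (j + 1) = a + 1 + j by omega] at h3
      exact h1.head h3

theorem lead_resA1 (k j : Fin (P + 1)) (l : Q) (b e : ℕ) : ∀ (i : ℕ) (a : ℕ), (hi : i ≤ P) →
    Lead0 (comp mp q0) (.resA k (mk P i) j l, ![a, b], e) (.resA k 0 j l, ![a + i, b], e) := by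
  intro i
  induction i with
  | zero => intro b hj; exact Lead0.refl _ _
  | succ i ih =>
    intro a hi
    have hv : (mk P (i + 1)).val = i + 1 := mk_val hi
    have hne : mk P (i + 1) ≠ 0 := by
      intro h
      rw [h] at hv
      simp at hv
    have h1 := leadsIn_inc (prog := comp mp q0) (q := .resA k (mk P (i + 1)) j l)
      (l := .resA k (mk P ((mk P (i + 1)).val - 1)) j l) (r := 0) (n := ![a, b]) (e := e)
      (by simp [comp, hne])
    rw [hv, Nat.add_sub_cancel, upd0] at h1
    have h2 := ih (a + 1) (by omega)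
    rw [show a + (i + 1) = a + 1 + i by omega]
    exact h1.head h2

theorem lead_resA2 (k j : Fin (P + 1)) (l : Q) (e : ℕ) : ∀ (b a : ℕ),
    Lead0 (comp mp q0) (.resA k 0 j l, ![a, b], e) (.resB j l, ![a + k * b, 0], e) := by
  intro b
  induction b with
  | zero =>
    intro a
    exact (leadsIn_zero (prog := comp mp q0) (r := 1) (l1 := .resA k k j l)
      (by simp [comp]) (by simp)).head (Lead0.refl _ _)
  | succ b ih =>
    intro a
    have h1 := leadsIn_dec (prog := comp mp q0) (q := .resA k 0 j l) (r := 1) (l0 := .resB j l)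
      (l1 := .resA k k j l) (n := ![a, b + 1]) (e := e) (m := b) (by simp [comp]) (by simp)
    rw [upd1] at h1
    have h2 := lead_resA1 (mp := mp) (q0 := q0) k j l b e k.val a (by omega)
    have h3 : mk P k.val = k := by
      ext
      rw [mk_val (by omega)]
    rw [h3] at h2
    have h4 := ih (a + k)
    rw [show a + k.val * (b + 1) = a + k.val + k.val * b by ring]
    exact h1.head (h2.trans h4)

theorem lead_resB (l : Q) (e : ℕ) : ∀ (j : ℕ) (a : ℕ), (hj : j ≤ P) →
    Lead0 (comp (P := P) mp q0) (.resB (mk P j) l, ![a, 0], e) (.at l, ![a + j, 0], e) := by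
  intro j
  induction j with
  | zero =>
    intro a hj
    exact (leadsIn_goto (prog := comp mp q0) (by simp [comp, mk])).head (Lead0.refl _ _)
  | succ j ih =>
    intro a hj
    have hv : (mk P (j + 1)).val = j + 1 := mk_val hj
    have hne : mk P (j + 1) ≠ 0 := by
      intro h
      rw [h] at hv
      simp at hv
    have h1 := leadsIn_inc (prog := comp mp q0) (q := .resB (mk P (j + 1)) l)
      (l := .resB (mk P ((mk P (j + 1)).val - 1)) l) (r := 0) (n := ![a, 0]) (e := e)
      (by simp [comp, hne])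
    rw [hv, Nat.add_sub_cancel, upd0] at h1
    have h2 := ih (a + 1) (by omega)
    rw [show a + (j + 1) = a + 1 + j by omega]
    exact h1.head h2

/-- Division. -/
theorem lead_div {q l0 l1 : Q} {k : ℕ} (hq : mp q = .div k l0 l1) (hk : k ≤ P) (hk0 : 0 < k)
    (N e : ℕ) : Lead (comp (P := P) mp q0) (.at q, ![N, 0], e)
      (if k ∣ N then (.at l1, ![N / k, 0], e) else (.at l0, ![N, 0], e)) := by
  have h1 := leadsIn_goto (prog := comp (P := P) mp q0) (q := .at q)
    (l := .divA (mk P k) 0 l0 l1) (n := ![N, 0]) (e := e) (by simp [comp, hq])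
  have hv : (mk P k).val = k := mk_val hk
  have h2 := lead_divA (mp := mp) (q0 := q0) (mk P k) (by omega) l0 l1 e N 0 0 (by omega)
  rw [hv, add_zero, zero_add] at h2
  refine Lead.trans ⟨0, h1⟩ (Lead0.trans h2 ?_)
  split_ifs with h
  · have h3 := lead_mv (mp := mp) (q0 := q0) (P := P) l1 e (N / k) 0
    rw [zero_add] at h3
    exact h3
  · have h3 := lead_resA2 (mp := mp) (q0 := q0) (mk P k) (mk P (N % k)) l0 e (N / k) 0
    rw [hv, zero_add] at h3
    have h4 := lead_resB (mp := mp) (q0 := q0) (P := P) l0 e (N % k) (k * (N / k))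
      ((Nat.mod_lt N hk0).le.trans hk)
    rw [Nat.div_add_mod] at h4
    exact h3.trans h4

theorem lead_clr (e : ℕ) : ∀ a : ℕ,
    Lead0 (comp (P := P) mp q0) (.clr, ![a, 0], e) (.fin, ![0, 0], e) := by
  intro a
  induction a with
  | zero =>
    exact (leadsIn_zero (prog := comp mp q0) (r := 0) (l1 := .clr)
      (by simp [comp]) (by simp)).head (Lead0.refl _ _)
  | succ a ih =>
    have h1 := leadsIn_dec (prog := comp (P := P) mp q0) (q := .clr) (r := 0) (l0 := .fin)
      (l1 := .clr) (n := ![a + 1, 0]) (e := e) (m := a) (by simp [comp]) (by simp)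
    rw [upd0] at h1
    exact h1.head ih

end Micro

end Pool.Agent.H75.PSys
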