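import Pool.Agent.H75.PSys.Local

/-!
Soundness of the simulation: every halting computation of the P system follows the machine.
-/

set_option linter.unusedSectionVars false
set_option linter.unusedSimpArgs false

namespace Pool.Agent.H75.PSys

open Multiset

variable {Q R : Type} [Fintype Q] [DecidableEq Q] [Fintype R] [DecidableEq R]

/-- Objects in a counter region that can only lead to the trap. -/
def Cursed (r : R) (o : Obj Q R) : Prop :=
  o = .trap ∨ ∃ i, i ≠ r ∧ (o = .o i ∨ o = .p i ∨ o = .z i)

theorem Cursed.A1_eq {r : R} {o : Obj Q R} (h : Cursed r o) : A1 r o = {trapOut} := by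
  rcases h with rfl | ⟨i, hi, rfl | rfl | rfl⟩
  · rfl
  · simp [A1, hi]
  · simp [A1, hi]
  · simp [A1, hi]

theorem Cursed.A2_sub {r : R} {o : Obj Q R} (h : Cursed r o) : ∀ v ∈ A2 o, v = trapOut := by
  rcases h with rfl | ⟨i, hi, rfl | rfl | rfl⟩
  · intro v hv; exact absurd hv (by simp [A2])
  · intro v hv; exact absurd hv (by simp [A2])
  · intro v hv; simpa using hv
  · intro v hv; simpa using hv

/-- Configurations from which the computation can never halt, because of a trap symbol or of an
object in a wrong region. -/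
def Bad (x : SC Q R) : Prop := .trap ∈ x.s ∨ ∃ r, ∃ o ∈ x.a r, Cursed r o

/-- No halting configuration is reachable. -/
def Doomed (prog : Q → Instr Q R) (x : SC Q R) : Prop :=
  ∀ y, Relation.ReflTransGen (SStep prog) x y → ¬ SHalt prog y

theorem doomed_of_step {prog : Q → Instr Q R} {x : SC Q R} (hx : ¬ SHalt prog x)
    (h : ∀ y, SStep prog x y → Doomed prog y) : Doomed prog x := by
  intro y hy
  rcases Relation.ReflTransGen.cases_head hy with rfl | ⟨z, hz, hzy⟩
  · exact hx
  · exact h z hz y hzy

/-- An object whose rules only produce the trap stays or produces the trap. -/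
theorem stay_or_trap {T1 T2 : Obj Q R → Set (Out (Obj Q R))} {X : Multiset (Obj Q R)}
    {a b : Pick (Obj Q R)} (h : LocalMax T1 T2 X a b) {o : Obj Q R} (ho : o ∈ X)
    (h1 : ∀ v ∈ T1 o, v = trapOut) (h2 : ∀ v ∈ T2 o, v = trapOut) :
    o ∈ nxt X a b ∨ .trap ∈ nxt X a b := by
  by_cases ha : o ∈ used a
  · rcases a with _ | ⟨o', v'⟩
    · simp at ha
    · rw [used_some, mem_singleton] at ha
      subst ha
      have := h1 v' (h.val1 o v' rfl)
      subst this
      exact Or.inr trap_mem_nxt_left
  by_cases hb : o ∈ used b
  · rcases b with _ | ⟨o', v'⟩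
    · simp at hb
    · rw [used_some, mem_singleton] at hb
      subst hb
      have := h2 v' (h.val2 o v' rfl)
      subst this
      exact Or.inr trap_mem_nxt_right
  left
  rw [nxt, mem_add]
  left
  rw [mem_sub, count_add, count_eq_zero.2 ha, count_eq_zero.2 hb]
  exact count_pos.2 ho

/-- The description of a step in terms of `nxt` and `msg`. -/
theorem SStep.elim {prog : Q → Instr Q R} {x y : SC Q R} (h : SStep prog x y) :
    ∃ (A B : Option R → Pick (Obj Q R)) (ρ : Multiset (Obj Q R × R)),
    LocalMax S1 (S2 prog) x.s (A none) (B none) ∧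
    (∀ r, LocalMax (A1 r) A2 (x.a r) (A (some r)) (B (some r))) ∧
    ρ.map Prod.fst = fltr .inn (prods (A none) + prods (B none)) ∧
    y.s = nxt x.s (A none) (B none) + ∑ r, msg (A (some r)) (B (some r)) ∧
    (∀ r, y.a r = nxt (x.a r) (A (some r)) (B (some r)) +
      (ρ.filter (fun q => q.2 = r)).map Prod.fst) ∧
    y.e = x.e + card (fltr .out (prods (A none) + prods (B none))) := by
  obtain ⟨A, B, ρ, hL, hρ, hs, ha, he⟩ := h
  exact ⟨A, B, ρ, hL none, fun r => hL (some r), hρ, hs, ha, he⟩

theorem bad_step {prog : Q → Instr Q R} {x y : SC Q R} (hx : Bad x) (h : SStep prog x y) :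
    Bad y := by
  obtain ⟨A, B, ρ, hL, hLr, hρ, hs, ha, he⟩ := h.elim
  rcases hx with hx | ⟨r, o, ho, hc⟩
  · left
    rw [hs, mem_add]
    left
    rcases stay_or_trap hL hx (by intro v hv; simpa [S1] using hv)
      (by intro v hv; exact absurd hv (by simp [S2])) with h1 | h1 <;> exact h1
  · right
    rcases stay_or_trap (hLr r) ho (by intro v hv; rw [hc.A1_eq] at hv; exact hv) hc.A2_sub
      with h1 | h1
    · exact ⟨r, o, by rw [ha, mem_add]; exact Or.inl h1, hc⟩
    · exact ⟨r, .trap, by rw [ha, mem_add]; exact Or.inl h1, Or.inl rfl⟩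

theorem Bad.not_halt {prog : Q → Instr Q R} {x : SC Q R} (hx : Bad x) : ¬ SHalt prog x := by
  intro hh
  rcases hx with hx | ⟨r, o, ho, hc⟩
  · have := (hh none .trap hx).1
    simp [T1, S1] at this
  · have := (hh (some r) o ho).1
    change A1 r o = ∅ at this
    rw [hc.A1_eq] at this
    simp at this

theorem Bad.doomed {prog : Q → Instr Q R} {x : SC Q R} (hx : Bad x) : Doomed prog x := by
  intro y hy
  have : Bad y := by
    induction hy with
    | refl => exact hx
    | tail _ h ih => exact bad_step ih h
  exact this.not_halt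

/-- Messages of a counter region are register objects. -/
theorem msg_mem {r : R} {X : Multiset (Obj Q R)} {a b : Pick (Obj Q R)}
    (h : LocalMax (A1 r) A2 X a b) : ∀ o ∈ msg a b, o = .o r := by
  intro o ho
  rw [msg, mem_fltr, mem_add] at ho
  rcases ho with ho | ho
  · rcases a with _ | ⟨o', v'⟩
    · simp at ho
    · rw [prods_some] at ho
      have h1 := h.val1 o' v' rfl
      cases o' with
      | o i =>
        by_cases hi : i = r
        · subst hi
          rw [A1_o, Set.mem_singleton_iff] at h1
          subst h1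
          simpa using ho
        · have h2 : v' = trapOut := by simpa [A1, hi] using h1
          subst h2
          simp [trapOut] at ho
      | p i =>
        by_cases hi : i = r
        · subst hi
          rw [A1_p, Set.mem_singleton_iff] at h1
          subst h1
          simp at ho
        · have h2 : v' = trapOut := by simpa [A1, hi] using h1
          subst h2
          simp [trapOut] at ho
      | z i =>
        by_cases hi : i = r
        · subst hi
          rw [A1_z, Set.mem_singleton_iff] at h1
          subst h1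
          simp at ho
        · have h2 : v' = trapOut := by simpa [A1, hi] using h1
          subst h2
          simp [trapOut] at ho
      | b =>
        rw [A1_b, Set.mem_insert_iff, Set.mem_singleton_iff] at h1
        rcases h1 with rfl | rfl <;> simp at ho
      | c1 => simp [A1] at h1
      | c2 => simp [A1] at h1
      | t => simp [A1] at h1
      | ctrl k => simp [A1] at h1
      | trap => have h2 : v' = trapOut := h1; subst h2; simp [trapOut] at ho
      | x i => have h2 : v' = trapOut := h1; subst h2; simp [trapOut] at ho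
      | y i => have h2 : v' = trapOut := h1; subst h2; simp [trapOut] at ho
      | w i => have h2 : v' = trapOut := h1; subst h2; simp [trapOut] at ho
  · rcases b with _ | ⟨o', v'⟩
    · simp at ho
    · rw [prods_some] at ho
      have h1 := h.val2 o' v' rfl
      cases o' with
      | b => have h2 : v' = trapOut := h1; subst h2; simp [trapOut] at ho
      | p i => have h2 : v' = trapOut := h1; subst h2; simp [trapOut] at ho
      | z i => have h2 : v' = trapOut := h1; subst h2; simp [trapOut] at ho
      | x i => have h2 : v' = {(.b, .here)} := h1; subst h2; simp at ho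
      | y i => have h2 : v' = 0 := h1; subst h2; simp at ho
      | w i => have h2 : v' = {(.b, .here)} := h1; subst h2; simp at ho
      | _ => exact absurd h1 (by simp [A2])

/-- Objects of the skin region which lead to the trap when the first catalyst handles them. -/
def G2 (o : Obj Q R) : Prop := S1 o = {trapOut}

theorem G2_o (r : R) : G2 (.o r : Obj Q R) := rfl

/-- Control symbols other than `D3`. -/
def NotD3 : Ctrl Q → Prop
  | .D3 _ => False
  | _ => True

theorem G2_ctrl {k : Ctrl Q} (hk : NotD3 k) : G2 (.ctrl k : Obj Q R) := by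
  cases k with
  | D3 l => exact absurd hk (by simp [NotD3])
  | _ => rfl

/-- Two objects on which the first catalyst is forced. -/
def Over2 (x : SC Q R) : Prop := (∀ o ∈ x.s, G2 o) ∧ 2 ≤ card x.s

theorem Over2.not_halt {prog : Q → Instr Q R} {x : SC Q R} (hx : Over2 x) : ¬ SHalt prog x := by
  intro hh
  obtain ⟨o, ho⟩ := card_pos_iff_exists_mem.1 (show 0 < card x.s by have := hx.2; omega)
  have := (hh none o ho).1
  change S1 o = ∅ at this
  rw [hx.1 o ho] at this
  simp at this

theorem exists_mem_sub_used {X : Multiset (Obj Q R)} (hX : 2 ≤ card X) (a : Pick (Obj Q R)) :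
    ∃ o, o ∈ X - used a := by
  apply card_pos_iff_exists_mem.1
  have h1 : card (used a) ≤ 1 := by rcases a with _ | ⟨o, v⟩ <;> simp
  have h2 : card X ≤ card (X - used a) + card (used a) := by
    rw [← card_add]
    exact card_le_card (le_tsub_add)
  omega

theorem Over2.doomed {prog : Q → Instr Q R} {x : SC Q R} (hx : Over2 x) : Doomed prog x := by
  refine doomed_of_step hx.not_halt fun y h => Bad.doomed ?_
  obtain ⟨A, B, ρ, hL, hLr, hρ, hs, ha, he⟩ := h.elim
  left
  rw [hs, mem_add]
  left
  rcases hA : A none with _ | ⟨o, v⟩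
  · exfalso
    obtain ⟨o, ho⟩ := exists_mem_sub_used hx.2 (B none)
    have h1 := hL.max1 hA o ho
    rw [hx.1 o (mem_of_le (Multiset.sub_le_self _ _) ho)] at h1
    simp at h1
  · rw [hA] at hL
    have h1 := hL.val1 o v rfl
    rw [hx.1 o hL.mem1, Set.mem_singleton_iff] at h1
    subst h1
    exact trap_mem_nxt_left

/-- The control symbol `D3` with at least two messages. -/
def Over3 (x : SC Q R) : Prop :=
  ∃ l K, x.s = .ctrl (.D3 l) ::ₘ K ∧ (∀ o ∈ K, ∃ r, o = .o r) ∧ 2 ≤ card K

theorem sum_msg_mem {x : SC Q R} {A B : Option R → Pick (Obj Q R)}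
    (hLr : ∀ r, LocalMax (A1 r) A2 (x.a r) (A (some r)) (B (some r))) :
    ∀ o ∈ ∑ r, msg (A (some r)) (B (some r)), ∃ r, o = .o r := by
  intro o ho
  rw [mem_sum] at ho
  obtain ⟨r, _, hr⟩ := ho
  exact ⟨r, msg_mem (hLr r) o hr⟩

theorem Over3.doomed {prog : Q → Instr Q R} {x : SC Q R} (hx : Over3 x) : Doomed prog x := by
  obtain ⟨l, K, hxs, hK, hcard⟩ := hx
  refine doomed_of_step ?_ fun y h => ?_
  · intro hh
    have := (hh none (.ctrl (.D3 l)) (by rw [SC.cont, hxs]; exact mem_cons_self _ _)).1
    simp [T1, S1] at this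
  obtain ⟨A, B, ρ, hL, hLr, hρ, hs, ha, he⟩ := h.elim
  rcases hA : A none with _ | ⟨o, v⟩
  · exfalso
    obtain ⟨o, ho⟩ := exists_mem_sub_used (X := x.s) (by rw [hxs, card_cons]; omega) (B none)
    have h1 := hL.max1 hA o ho
    have h2 := mem_of_le (Multiset.sub_le_self _ _) ho
    rw [hxs, mem_cons] at h2
    rcases h2 with rfl | h2
    · simp [S1] at h1
    · obtain ⟨r, rfl⟩ := hK o h2
      simp [S1] at h1
  · rw [hA] at hL
    have h1 := hL.val1 o v rfl
    have h2 := hL.mem1
    rw [hxs, mem_cons] at h2
    rcases h2 with rfl | h2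
    swap
    · obtain ⟨r, rfl⟩ := hK o h2
      apply Bad.doomed
      left
      rw [hs, mem_add, hA]
      left
      have h3 : v = trapOut := h1
      subst h3
      exact trap_mem_nxt_left
    rcases hB : B none with _ | ⟨o', v'⟩
    · exfalso
      rw [hB] at hL
      obtain ⟨o', ho'⟩ := card_pos_iff_exists_mem.1 (show 0 < card K by omega)
      have h3 := hL.max2 rfl o' (by
        rw [used_some, hxs, ← singleton_add, add_tsub_cancel_left]
        exact ho')
      obtain ⟨r, rfl⟩ := hK o' ho'
      simp [S2] at h3
    · rw [hB] at hL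
      have h3 := hL.val2 o' v' rfl
      have h4 := hL.mem2
      rw [hxs, mem_cons] at h4
      rcases h4 with rfl | h4
      · apply Bad.doomed
        left
        rw [hs, mem_add, hB]
        left
        have h5 : v' = trapOut := h3
        subst h5
        exact trap_mem_nxt_right
      · obtain ⟨r, rfl⟩ := hK o' h4
        have h5 : v' = 0 := h3
        subst h5
        have h6 : v = {(.ctrl (.P l), .here)} := h1
        subst h6
        apply Over2.doomed
        obtain ⟨K', rfl⟩ := exists_cons_of_mem h4
        have hn : nxt x.s (A none) (B none) = K' + {.ctrl (.P l)} := by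
          rw [hA, hB, nxt_of K']
          · simp [fltr_singleton]
          · rw [hxs]
            simp only [used_some, ← singleton_add]
            abel
        constructor
        · intro o ho
          rw [hs, hn, mem_add, mem_add, mem_singleton] at ho
          rcases ho with (ho | rfl) | ho
          · obtain ⟨r', rfl⟩ := hK o (mem_cons_of_mem ho)
            exact G2_o r'
          · exact G2_ctrl (by simp [NotD3])
          · obtain ⟨r', rfl⟩ := sum_msg_mem hLr o ho
            exact G2_o r'
        · rw [hs, hn, card_add, card_add, card_singleton]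
          rw [card_cons] at hcard
          omega

/-! ### Phases -/

/-- The phases of the simulation. -/
inductive Phase (Q R : Type)
  | main (q : Q) | d1 (r : R) (l : Q) | d2 (r : R) (l : Q) | d3 (r : R) (l : Q)
  | z1 (r : R) (l : Q) | z2 (r : R) (l : Q) | fin

/-- The contents of the skin region in a phase. -/
def SkinIs : Phase Q R → Multiset (Obj Q R) → Prop
  | .main q, s => s = {.ctrl (.P q)}
  | .d1 _ l, s => s = {.ctrl (.D1 l)}
  | .d2 _ l, s => s = {.ctrl (.D2 l)}
  | .d3 r l, s => s = {.ctrl (.D3 l), .o r}
  | .z1 _ l, s => s = {.ctrl (.Z1 l)}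
  | .z2 _ l, s => s = {.ctrl (.Z2 l)}
  | .fin, s => ∀ o ∈ s, ∀ k, o ≠ .ctrl k

/-- The contents of the counter regions in a phase. -/
def RegIs : Phase Q R → (R → ℕ) → R → Multiset (Obj Q R) → Prop
  | .main _, n, i, X => IsRest i (n i) X
  | .d1 r _, n, i, X => if i = r then IsP i (n i) X else IsRest i (n i) X
  | .d2 r _, n, i, X => if i = r then IsXY i (n i) X else IsRest i (n i) X
  | .d3 r _, n, i, X => if i = r then IsAfter i (n i) X else IsRest i (n i) X
  | .z1 r _, n, i, X => if i = r then IsZ i (n i) X else IsRest i (n i) X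
  | .z2 r _, n, i, X => if i = r then IsW i (n i) X else IsRest i (n i) X
  | .fin, _, _, _ => True

/-- The configurations belonging to a phase. -/
def InPhase (ph : Phase Q R) (n : R → ℕ) (e : ℕ) (x : SC Q R) : Prop :=
  SkinIs ph x.s ∧ (∀ i, RegIs ph n i (x.a i)) ∧ x.e = e

/-- The transitions between phases. -/
inductive Next (prog : Q → Instr Q R) :
    Phase Q R × (R → ℕ) × ℕ → Phase Q R × (R → ℕ) × ℕ → Prop
  | goto {q l n e} : prog q = .goto l → Next prog (.main q, n, e) (.main l, n, e)
  | inc {q r l n e} : prog q = .inc r l →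
      Next prog (.main q, n, e) (.main l, Function.update n r (n r + 1), e)
  | emit {q l n e} : prog q = .emit l → Next prog (.main q, n, e) (.main l, n, e + 1)
  | forkL {q l l' n e} : prog q = .fork l l' → Next prog (.main q, n, e) (.main l, n, e)
  | forkR {q l l' n e} : prog q = .fork l l' → Next prog (.main q, n, e) (.main l', n, e)
  | stop {q n e} : prog q = .stop → Next prog (.main q, n, e) (.fin, n, e)
  | jzD {q r l0 l1 n e} : prog q = .jz r l0 l1 → Next prog (.main q, n, e) (.d1 r l1, n, e)
  | jzZ {q r l0 l1 n e} : prog q = .jz r l0 l1 → Next prog (.main q, n, e) (.z1 r l0, n, e)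
  | d12 {r l n e} : Next prog (.d1 r l, n, e) (.d2 r l, n, e)
  | d23 {r l n e m} : n r = m + 1 → Next prog (.d2 r l, n, e) (.d3 r l, Function.update n r m, e)
  | d3m {r l n e} : Next prog (.d3 r l, n, e) (.main l, n, e)
  | z12 {r l n e} : Next prog (.z1 r l, n, e) (.z2 r l, n, e)
  | z2m {r l n e} : n r = 0 → Next prog (.z2 r l, n, e) (.main l, n, e)
  | fin {n e} : Next prog (.fin, n, e) (.fin, n, e)

/-- The choices in the skin region when it holds a single control symbol other than `D3`. -/
theorem skin_single {prog : Q → Instr Q R} {k : Ctrl Q} (hk : NotD3 k) {a b : Pick (Obj Q R)}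
    (h : LocalMax S1 (S2 prog) {.ctrl k} a b) :
    .trap ∈ nxt {.ctrl k} a b ∨ (a = none ∧ ∃ v ∈ S2 prog (.ctrl k), b = some (.ctrl k, v)) := by
  rcases a with _ | ⟨o, v⟩
  · right
    refine ⟨rfl, ?_⟩
    rcases b with _ | ⟨o, v⟩
    · exfalso
      have := h.max1 rfl (.ctrl k) (by simp)
      rw [G2_ctrl hk] at this
      simp at this
    · have h2 := h.mem2
      rw [mem_singleton] at h2
      subst h2
      exact ⟨v, h.val2 _ v rfl, rfl⟩
  · left
    have h1 := h.val1 o v rfl
    have h2 := h.mem1
    rw [mem_singleton] at h2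
    subst h2
    rw [G2_ctrl hk, Set.mem_singleton_iff] at h1
    subst h1
    exact trap_mem_nxt_left

/-- The choices in the skin region when it holds `D3` and one message. -/
theorem skin_d3 {prog : Q → Instr Q R} {l : Q} {r : R} {a b : Pick (Obj Q R)}
    (h : LocalMax S1 (S2 prog) {.ctrl (.D3 l), .o r} a b) :
    .trap ∈ nxt {.ctrl (.D3 l), .o r} a b ∨
      (a = some (.ctrl (.D3 l), {(.ctrl (.P l), .here)}) ∧ b = some (.o r, 0)) := by
  rcases a with _ | ⟨o, v⟩
  · exfalso
    obtain ⟨o, ho⟩ := exists_mem_sub_used (X := {.ctrl (.D3 l), (.o r : Obj Q R)}) (by simp) b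
    have h1 := h.max1 rfl o ho
    have h2 := mem_of_le (Multiset.sub_le_self _ _) ho
    rw [insert_eq_cons, mem_cons, mem_singleton] at h2
    rcases h2 with rfl | rfl <;> simp [S1] at h1
  · have h1 := h.val1 o v rfl
    have h2 := h.mem1
    rw [insert_eq_cons, mem_cons, mem_singleton] at h2
    rcases h2 with rfl | rfl
    swap
    · left
      have h3 : v = trapOut := h1
      subst h3
      exact trap_mem_nxt_left
    have h3 : v = {(.ctrl (.P l), .here)} := h1
    subst h3
    rcases b with _ | ⟨o', v'⟩
    · exfalso
      have := h.max2 rfl (.o r) (by simp)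
      simp [S2] at this
    · have h4 := h.val2 o' v' rfl
      have h5 := h.mem2
      rw [insert_eq_cons, mem_cons, mem_singleton] at h5
      rcases h5 with rfl | rfl
      · left
        have h6 : v' = trapOut := h4
        subst h6
        exact trap_mem_nxt_right
      · right
        have h6 : v' = 0 := h4
        subst h6
        exact ⟨rfl, rfl⟩

/-- Combining the outcomes of all counter regions. -/
theorem combine {N M : R → Multiset (Obj Q R)} {Good : R → Multiset (Obj Q R) → Prop}
    (h : ∀ i, .trap ∈ N i ∨ M i ≠ 0 ∨ (M i = 0 ∧ Good i (N i))) :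
    (∃ i, .trap ∈ N i) ∨ (∑ i, M i ≠ 0) ∨ ((∑ i, M i = 0) ∧ ∀ i, Good i (N i)) := by
  by_cases h1 : ∃ i, .trap ∈ N i
  · exact Or.inl h1
  by_cases h2 : ∃ i, M i ≠ 0
  · right; left
    obtain ⟨i, hi⟩ := h2
    intro h3
    have h4 := Finset.single_le_sum (f := M) (fun j _ => zero_le) (Finset.mem_univ i)
    rw [h3] at h4
    exact hi (le_zero.1 h4)
  · right; right
    push Not at h1 h2
    refine ⟨Finset.sum_eq_zero fun i _ => h2 i, fun i => ?_⟩
    rcases h i with h3 | h3 | h3
    · exact absurd h3 (h1 i)
    · exact absurd (h2 i) h3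
    · exact h3.2

/-- If the skin region keeps a control symbol and receives a message, the configuration is
doomed. -/
theorem doomed_of_msg {prog : Q → Instr Q R} {y : SC Q R} {k : Ctrl Q} (hk : NotD3 k)
    {M : Multiset (Obj Q R)} (hs : y.s = {.ctrl k} + M) (hM : M ≠ 0)
    (hMo : ∀ o ∈ M, ∃ r, o = .o r) : Doomed prog y := by
  apply Over2.doomed
  constructor
  · intro o ho
    rw [hs, mem_add, mem_singleton] at ho
    rcases ho with rfl | ho
    · exact G2_ctrl hk
    · obtain ⟨r, rfl⟩ := hMo o ho
      exact G2_o r
  · have := card_pos.2 hM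
    rw [hs, card_add, card_singleton]
    omega

/-- Arrivals in the counter regions. -/
theorem filter_nil {i : R} : ((0 : Multiset (Obj Q R × R)).filter (fun q => q.2 = i)).map
    Prod.fst = 0 := by simp

theorem IsRest.p {r : R} {n : ℕ} {X : Multiset (Obj Q R)} (h : IsRest r n X) :
    IsP r n (X + {.p r}) := by
  rcases h with rfl | rfl
  · left; simp only [← singleton_add]; abel
  · right; simp only [← singleton_add]; abel

theorem IsRest.z {r : R} {n : ℕ} {X : Multiset (Obj Q R)} (h : IsRest r n X) :
    IsZ r n (X + {.z r}) := by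
  rcases h with rfl | rfl
  · left; simp only [← singleton_add]; abel
  · right; simp only [← singleton_add]; abel

theorem IsRest.o {r : R} {n : ℕ} {X : Multiset (Obj Q R)} (h : IsRest r n X) :
    IsRest r (n + 1) (X + {.o r}) := by
  rcases h with rfl | rfl
  · left; simp only [os, replicate_succ, ← singleton_add]; abel
  · right; simp only [os, replicate_succ, ← singleton_add]; abel

theorem nxt_single {o : Obj Q R} {v : Out (Obj Q R)} :
    nxt {o} none (some (o, v)) = fltr .here v := by
  simp [nxt]

theorem arrive_none {ρ : Multiset (Obj Q R × R)} (h : ρ.map Prod.fst = 0) (i : R) :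
    (ρ.filter (fun q => q.2 = i)).map Prod.fst = 0 := by
  rw [map_eq_zero] at h
  subst h
  simp

theorem arrive_one {u : Obj Q R} {ρ : Multiset (Obj Q R × R)} (h : ρ.map Prod.fst = {u}) :
    ∃ j, ∀ i, (ρ.filter (fun q => q.2 = i)).map Prod.fst = if j = i then {u} else 0 := by
  obtain ⟨⟨u', j⟩, hρ, hu⟩ := map_eq_singleton.1 h
  simp only at hu
  subst hu hρ
  refine ⟨j, fun i => ?_⟩
  split_ifs with hij
  · subst hij
    simp [filter_singleton]
  · simp [filter_singleton, hij]

/-- A step from a phase whose skin region holds a single control symbol other than `D3`, in which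
nothing is sent `in` or to the environment. -/
theorem plain_step {prog : Q → Instr Q R} {k k' : Ctrl Q} (hk' : NotD3 k')
    {x y : SC Q R} {A B : Option R → Pick (Obj Q R)} {ρ : Multiset (Obj Q R × R)}
    (hLr : ∀ r, LocalMax (A1 r) A2 (x.a r) (A (some r)) (B (some r)))
    (hρ : ρ.map Prod.fst = fltr .inn (prods (A none) + prods (B none)))
    (hs : y.s = nxt {.ctrl k} (A none) (B none) + ∑ r, msg (A (some r)) (B (some r)))
    (ha : ∀ r, y.a r = nxt (x.a r) (A (some r)) (B (some r)) +
      (ρ.filter (fun q => q.2 = r)).map Prod.fst)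
    (he : y.e = x.e + card (fltr .out (prods (A none) + prods (B none))))
    (hA : A none = none) (hB : B none = some (.ctrl k, {(.ctrl k', .here)}))
    {Good : R → Multiset (Obj Q R) → Prop}
    (hG : ∀ i, .trap ∈ nxt (x.a i) (A (some i)) (B (some i)) ∨ msg (A (some i)) (B (some i)) ≠ 0 ∨
      (msg (A (some i)) (B (some i)) = 0 ∧ Good i (nxt (x.a i) (A (some i)) (B (some i))))) :
    Doomed prog y ∨ (y.s = {.ctrl k'} ∧ (∀ i, Good i (y.a i)) ∧ y.e = x.e) := by
  have hMo := sum_msg_mem hLr
  have hsk : nxt {.ctrl k} (A none) (B none) = {.ctrl k'} := by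
    rw [hA, hB, nxt_single, fltr_singleton, if_pos rfl]
  rw [hsk] at hs
  rcases combine hG with ⟨i, hi⟩ | h2 | ⟨hM, h2⟩
  · left
    exact Bad.doomed (Or.inr ⟨i, .trap, by rw [ha, mem_add]; exact Or.inl hi, Or.inl rfl⟩)
  · left
    exact doomed_of_msg hk' hs h2 hMo
  · right
    refine ⟨by rw [hs, hM, add_zero], fun i => ?_, ?_⟩
    · rw [ha i, arrive_none, add_zero]
      · exact h2 i
      · rw [hρ, hA, hB]
        simp [fltr_singleton]
    · rw [he, hA, hB]
      simp [fltr_singleton]

/-- A step in which one object is sent `in`. -/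
theorem send_step {prog : Q → Instr Q R} {k k' : Ctrl Q} (hk' : NotD3 k') {u : Obj Q R} {r : R}
    (hu : ∀ i, r ≠ i → Cursed i u)
    {x y : SC Q R} {A B : Option R → Pick (Obj Q R)} {ρ : Multiset (Obj Q R × R)}
    (hLr : ∀ r, LocalMax (A1 r) A2 (x.a r) (A (some r)) (B (some r)))
    (hρ : ρ.map Prod.fst = fltr .inn (prods (A none) + prods (B none)))
    (hs : y.s = nxt {.ctrl k} (A none) (B none) + ∑ r, msg (A (some r)) (B (some r)))
    (ha : ∀ r, y.a r = nxt (x.a r) (A (some r)) (B (some r)) +
      (ρ.filter (fun q => q.2 = r)).map Prod.fst)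
    (he : y.e = x.e + card (fltr .out (prods (A none) + prods (B none))))
    (hA : A none = none) (hB : B none = some (.ctrl k, {(u, .inn), (.ctrl k', .here)}))
    {Good : R → Multiset (Obj Q R) → Prop}
    (hG : ∀ i, .trap ∈ nxt (x.a i) (A (some i)) (B (some i)) ∨ msg (A (some i)) (B (some i)) ≠ 0 ∨
      (msg (A (some i)) (B (some i)) = 0 ∧ Good i (nxt (x.a i) (A (some i)) (B (some i))))) :
    Doomed prog y ∨ (y.s = {.ctrl k'} ∧
      (∃ X, y.a r = X + {u} ∧ Good r X) ∧ (∀ i, i ≠ r → Good i (y.a i)) ∧ y.e = x.e) := by
  have hMo := sum_msg_mem hLr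
  have hsk : nxt {.ctrl k} (A none) (B none) = {.ctrl k'} := by
    rw [hA, hB, nxt_single, insert_eq_cons, fltr_cons, if_neg (by simp), fltr_singleton,
      if_pos rfl]
  rw [hsk] at hs
  obtain ⟨j, hj⟩ := arrive_one (u := u) (ρ := ρ) (by
    rw [hρ, hA, hB, prods_none, prods_some, zero_add, insert_eq_cons, fltr_cons, if_pos rfl,
      fltr_singleton, if_neg (by simp)]
    rfl)
  by_cases hjr : r = j
  swap
  · left
    refine Bad.doomed (Or.inr ⟨j, u, ?_, hu j hjr⟩)
    rw [ha, hj, if_pos rfl, mem_add]
    exact Or.inr (mem_singleton_self _)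
  subst hjr
  rcases combine hG with ⟨i, hi⟩ | h2 | ⟨hM, h2⟩
  · left
    exact Bad.doomed (Or.inr ⟨i, .trap, by rw [ha, mem_add]; exact Or.inl hi, Or.inl rfl⟩)
  · left
    exact doomed_of_msg hk' hs h2 hMo
  · right
    refine ⟨by rw [hs, hM, add_zero], ⟨_, by rw [ha r, hj, if_pos rfl], h2 r⟩, fun i hi => ?_, ?_⟩
    · rw [ha i, hj, if_neg (Ne.symm hi), add_zero]
      exact h2 i
    · rw [he, hA, hB, prods_none, prods_some, zero_add, insert_eq_cons, fltr_cons,
        if_neg (by simp), fltr_singleton, if_neg (by simp)]
      simp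

/-- The main invariant: every step from a configuration in a phase leads to the next phase or to
a doomed configuration. -/
theorem phase_step {prog : Q → Instr Q R} {ph : Phase Q R} {n : R → ℕ} {e : ℕ} {x y : SC Q R}
    (hx : InPhase ph n e x) (h : SStep prog x y) :
    Doomed prog y ∨ ∃ ph' n' e', Next prog (ph, n, e) (ph', n', e') ∧ InPhase ph' n' e' y := by
  obtain ⟨A, B, ρ, hL, hLr, hρ, hs, ha, he⟩ := h.elim
  obtain ⟨hskin, hreg, hxe⟩ := hx
  have hMo := sum_msg_mem hLr
  -- traps
  have hbad1 : .trap ∈ nxt x.s (A none) (B none) → Doomed prog y := by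
    intro h1
    exact Bad.doomed (Or.inl (by rw [hs, mem_add]; exact Or.inl h1))
  have hbad2 : (∃ i, .trap ∈ nxt (x.a i) (A (some i)) (B (some i))) → Doomed prog y := by
    rintro ⟨i, hi⟩
    exact Bad.doomed (Or.inr ⟨i, .trap, by rw [ha, mem_add]; exact Or.inl hi, Or.inl rfl⟩)
  cases ph with
  | main q =>
    change x.s = {.ctrl (.P q)} at hskin
    rw [hskin] at hL hs hbad1
    rcases skin_single (by simp [NotD3]) hL with h1 | ⟨hA, v, hv, hB⟩
    · exact Or.inl (hbad1 h1)
    have hG := fun i => rest_step (hreg i) (hLr i)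
    cases hq : prog q with
    | goto l =>
      have hv' : v = {(.ctrl (.P l), .here)} := by simpa [S2, hq] using hv
      subst hv'
      rcases plain_step (by simp [NotD3]) hLr hρ hs ha he hA hB hG with h3 | ⟨h3, h4, h5⟩
      · exact Or.inl h3
      · exact Or.inr ⟨.main l, n, e, .goto hq, h3, h4, h5.trans hxe⟩
    | inc r l =>
      have hv' : v = {(.o r, .inn), (.ctrl (.P l), .here)} := by simpa [S2, hq] using hv
      subst hv'
      rcases send_step (r := r) (by simp [NotD3])
        (fun i hi => Or.inr ⟨r, hi, Or.inl rfl⟩) hLr hρ hs ha he hA hB hG with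
        h3 | ⟨h3, ⟨X, h4, h4'⟩, h6, h5⟩
      · exact Or.inl h3
      · refine Or.inr ⟨.main l, _, e, .inc hq, h3, fun i => ?_, h5.trans hxe⟩
        change IsRest i _ _
        by_cases hi : i = r
        · subst hi
          rw [Function.update_self, h4]
          exact h4'.o
        · rw [Function.update_of_ne hi]
          exact h6 i hi
    | jz r l0 l1 =>
      have hv' : v = {(.p r, .inn), (.ctrl (.D1 l1), .here)} ∨
        v = {(.z r, .inn), (.ctrl (.Z1 l0), .here)} := by simpa [S2, hq] using hv
      rcases hv' with rfl | rfl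
      · rcases send_step (r := r) (by simp [NotD3])
          (fun i hi => Or.inr ⟨r, hi, Or.inr (Or.inl rfl)⟩) hLr hρ hs ha he hA hB hG with
          h3 | ⟨h3, ⟨X, h4, h4'⟩, h6, h5⟩
        · exact Or.inl h3
        · refine Or.inr ⟨.d1 r l1, _, e, .jzD hq, h3, fun i => ?_, h5.trans hxe⟩
          change if i = r then IsP i (n i) (y.a i) else IsRest i (n i) (y.a i)
          by_cases hi : i = r
          · subst hi
            rw [if_pos rfl, h4]
            exact h4'.p
          · rw [if_neg hi]
            exact h6 i hi
      · rcases send_step (r := r) (by simp [NotD3])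
          (fun i hi => Or.inr ⟨r, hi, Or.inr (Or.inr rfl)⟩) hLr hρ hs ha he hA hB hG with
          h3 | ⟨h3, ⟨X, h4, h4'⟩, h6, h5⟩
        · exact Or.inl h3
        · refine Or.inr ⟨.z1 r l0, _, e, .jzZ hq, h3, fun i => ?_, h5.trans hxe⟩
          change if i = r then IsZ i (n i) (y.a i) else IsRest i (n i) (y.a i)
          by_cases hi : i = r
          · subst hi
            rw [if_pos rfl, h4]
            exact h4'.z
          · rw [if_neg hi]
            exact h6 i hi
    | emit l =>
      have hv' : v = {(.t, .out), (.ctrl (.P l), .here)} := by simpa [S2, hq] using hv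
      subst hv'
      have hsk : nxt {.ctrl (.P q)} (A none) (B none) = {(.ctrl (.P l) : Obj Q R)} := by
        rw [hA, hB, nxt_single, insert_eq_cons, fltr_cons, if_neg (by simp), fltr_singleton,
          if_pos rfl]
      rw [hsk] at hs
      rcases combine hG with h2 | h2 | ⟨hM, h2⟩
      · exact Or.inl (hbad2 h2)
      · exact Or.inl (doomed_of_msg (by simp [NotD3]) hs h2 hMo)
      · refine Or.inr ⟨.main l, n, e + 1, .emit hq, ?_, fun i => ?_, ?_⟩
        · change y.s = _
          rw [hs, hM, add_zero]
        · rw [ha i, arrive_none, add_zero]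
          · exact h2 i
          · rw [hρ, hA, hB, prods_none, prods_some, zero_add, insert_eq_cons, fltr_cons,
              if_neg (by simp), fltr_singleton, if_neg (by simp)]
        · rw [he, hA, hB, prods_none, prods_some, zero_add, insert_eq_cons, fltr_cons,
            if_pos rfl, fltr_singleton, if_neg (by simp), hxe]
          simp
    | fork l l' =>
      have hv' : v = {(.ctrl (.P l), .here)} ∨ v = {(.ctrl (.P l'), .here)} := by
        simpa [S2, hq] using hv
      rcases hv' with rfl | rfl
      · rcases plain_step (by simp [NotD3]) hLr hρ hs ha he hA hB hG with h3 | ⟨h3, h4, h5⟩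
        · exact Or.inl h3
        · exact Or.inr ⟨.main l, n, e, .forkL hq, h3, h4, h5.trans hxe⟩
      · rcases plain_step (by simp [NotD3]) hLr hρ hs ha he hA hB hG with h3 | ⟨h3, h4, h5⟩
        · exact Or.inl h3
        · exact Or.inr ⟨.main l', n, e, .forkR hq, h3, h4, h5.trans hxe⟩
    | stop =>
      have hv' : v = 0 := by simpa [S2, hq] using hv
      subst hv'
      have hsk : nxt {.ctrl (.P q)} (A none) (B none) = (0 : Multiset (Obj Q R)) := by
        rw [hA, hB, nxt_single, fltr_zero]
      rw [hsk, zero_add] at hs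
      refine Or.inr ⟨.fin, n, e, .stop hq, ?_, fun i => trivial, ?_⟩
      · intro o ho k
        rw [hs] at ho
        obtain ⟨r, rfl⟩ := hMo o ho
        simp
      · rw [he, hA, hB, hxe]
        simp
  | d1 r l =>
    change x.s = {.ctrl (.D1 l)} at hskin
    rw [hskin] at hL hs hbad1
    rcases skin_single (by simp [NotD3]) hL with h1 | ⟨hA, v, hv, hB⟩
    · exact Or.inl (hbad1 h1)
    have hv' : v = {(.ctrl (.D2 l), .here)} := hv
    subst hv'
    rcases plain_step (Good := fun i X => if i = r then IsXY i (n i) X else IsRest i (n i) X)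
      (by simp [NotD3]) hLr hρ hs ha he hA hB (fun i => by
        have h7 := hreg i
        simp only [RegIs] at h7
        by_cases hi : i = r
        · rw [if_pos hi] at h7 ⊢
          rcases p_step h7 (hLr i) with h8 | h8
          · exact Or.inl h8
          · exact Or.inr (Or.inr h8)
        · rw [if_neg hi] at h7 ⊢
          exact rest_step h7 (hLr i)) with h3 | ⟨h3, h4, h5⟩
    · exact Or.inl h3
    · exact Or.inr ⟨.d2 r l, n, e, .d12, h3, h4, h5.trans hxe⟩
  | d2 r l =>
    change x.s = {.ctrl (.D2 l)} at hskin
    rw [hskin] at hL hs hbad1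
    rcases skin_single (by simp [NotD3]) hL with h1 | ⟨hA, v, hv, hB⟩
    · exact Or.inl (hbad1 h1)
    have hv' : v = {(.ctrl (.D3 l), .here)} := hv
    subst hv'
    have hsk : nxt {.ctrl (.D2 l)} (A none) (B none) = {(.ctrl (.D3 l) : Obj Q R)} := by
      rw [hA, hB, nxt_single, fltr_singleton, if_pos rfl]
    rw [hsk] at hs
    have hr : IsXY r (n r) (x.a r) := by
      have := hreg r
      simp only [RegIs, if_true] at this
      exact this
    rcases xy_step hr (hLr r) with h8 | ⟨m, hm, hmr, haf⟩
    · exact Or.inl (hbad2 ⟨r, h8⟩)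
    -- the other regions
    have hoth : ∀ i, i ≠ r → .trap ∈ nxt (x.a i) (A (some i)) (B (some i)) ∨
        msg (A (some i)) (B (some i)) ≠ 0 ∨ (msg (A (some i)) (B (some i)) = 0 ∧
          IsRest i (n i) (nxt (x.a i) (A (some i)) (B (some i)))) := by
      intro i hi
      have h7 := hreg i
      simp only [RegIs, if_neg hi] at h7
      exact rest_step h7 (hLr i)
    have hsplit : ∑ i, msg (A (some i)) (B (some i)) = {.o r} +
        ∑ i ∈ Finset.univ.erase r, msg (A (some i)) (B (some i)) := by
      rw [← hmr]
      exact (Finset.add_sum_erase Finset.univ (fun i => msg (A (some i)) (B (some i)))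
        (Finset.mem_univ r)).symm
    by_cases h9 : ∃ i, .trap ∈ nxt (x.a i) (A (some i)) (B (some i))
    · exact Or.inl (hbad2 h9)
    by_cases h10 : ∃ i, i ≠ r ∧ msg (A (some i)) (B (some i)) ≠ 0
    · left
      apply Over3.doomed
      refine ⟨l, _, by rw [hs, singleton_add], hMo, ?_⟩
      obtain ⟨i, hi, hmi⟩ := h10
      rw [hsplit, card_add, card_singleton]
      have h11 : msg (A (some i)) (B (some i)) ≤
          ∑ i ∈ Finset.univ.erase r, msg (A (some i)) (B (some i)) :=
        Finset.single_le_sum (f := fun i => msg (A (some i)) (B (some i)))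
          (fun j _ => zero_le) (Finset.mem_erase.2 ⟨hi, Finset.mem_univ i⟩)
      have h12 := card_le_card h11
      have h13 := card_pos.2 hmi
      omega
    · push Not at h9 h10
      right
      refine ⟨.d3 r l, _, e, .d23 hm, ?_, fun i => ?_, ?_⟩
      · change y.s = _
        rw [hs, hsplit, Finset.sum_eq_zero, add_zero]
        · rfl
        · intro i hi
          exact h10 i (Finset.mem_erase.1 hi).1
      · change if i = r then IsAfter i _ (y.a i) else IsRest i _ (y.a i)
        rw [ha i, arrive_none, add_zero]
        · by_cases hi : i = r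
          · subst hi
            rw [if_pos rfl, Function.update_self]
            exact haf
          · rw [if_neg hi, Function.update_of_ne hi]
            rcases hoth i hi with h14 | h14 | h14
            · exact absurd h14 (h9 i)
            · exact absurd (h10 i hi) h14
            · exact h14.2
        · rw [hρ, hA, hB]
          simp [fltr_singleton]
      · rw [he, hA, hB, hxe]
        simp [fltr_singleton]
  | d3 r l =>
    change x.s = {.ctrl (.D3 l), .o r} at hskin
    rw [hskin] at hL hs hbad1
    rcases skin_d3 hL with h1 | ⟨hA, hB⟩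
    · exact Or.inl (hbad1 h1)
    have hsk : nxt {.ctrl (.D3 l), .o r} (A none) (B none) = {(.ctrl (.P l) : Obj Q R)} := by
      rw [hA, hB, nxt_of 0]
      · simp [fltr_singleton]
      · rfl
    rw [hsk] at hs
    rcases combine (Good := fun i X => IsRest i (n i) X) (fun i => by
        have h7 := hreg i
        simp only [RegIs] at h7
        by_cases hi : i = r
        · rw [if_pos hi] at h7
          exact after_step h7 (hLr i)
        · rw [if_neg hi] at h7
          exact rest_step h7 (hLr i)) with h2 | h2 | ⟨hM, h2⟩
    · exact Or.inl (hbad2 h2)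
    · exact Or.inl (doomed_of_msg (by simp [NotD3]) hs h2 hMo)
    · refine Or.inr ⟨.main l, n, e, .d3m, ?_, fun i => ?_, ?_⟩
      · change y.s = _
        rw [hs, hM, add_zero]
      · rw [ha i, arrive_none, add_zero]
        · exact h2 i
        · rw [hρ, hA, hB]
          simp [fltr_singleton]
      · rw [he, hA, hB, hxe]
        simp [fltr_singleton]
  | z1 r l =>
    change x.s = {.ctrl (.Z1 l)} at hskin
    rw [hskin] at hL hs hbad1
    rcases skin_single (by simp [NotD3]) hL with h1 | ⟨hA, v, hv, hB⟩
    · exact Or.inl (hbad1 h1)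
    have hv' : v = {(.ctrl (.Z2 l), .here)} := hv
    subst hv'
    rcases plain_step (Good := fun i X => if i = r then IsW i (n i) X else IsRest i (n i) X)
      (by simp [NotD3]) hLr hρ hs ha he hA hB (fun i => by
        have h7 := hreg i
        simp only [RegIs] at h7
        by_cases hi : i = r
        · rw [if_pos hi] at h7 ⊢
          rcases z_step h7 (hLr i) with h8 | h8
          · exact Or.inl h8
          · exact Or.inr (Or.inr h8)
        · rw [if_neg hi] at h7 ⊢
          exact rest_step h7 (hLr i)) with h3 | ⟨h3, h4, h5⟩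
    · exact Or.inl h3
    · exact Or.inr ⟨.z2 r l, n, e, .z12, h3, h4, h5.trans hxe⟩
  | z2 r l =>
    change x.s = {.ctrl (.Z2 l)} at hskin
    rw [hskin] at hL hs hbad1
    rcases skin_single (by simp [NotD3]) hL with h1 | ⟨hA, v, hv, hB⟩
    · exact Or.inl (hbad1 h1)
    have hv' : v = {(.ctrl (.P l), .here)} := hv
    subst hv'
    rcases plain_step (Good := fun i X => (i = r → n r = 0) ∧ IsRest i (n i) X)
      (by simp [NotD3]) hLr hρ hs ha he hA hB (fun i => by
        have h7 := hreg i
        simp only [RegIs] at h7
        by_cases hi : i = r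
        · rw [if_pos hi] at h7
          rcases w_step h7 (hLr i) with h8 | h8 | ⟨h8, h9, h10⟩
          · exact Or.inl h8
          · exact Or.inr (Or.inl h8)
          · exact Or.inr (Or.inr ⟨h9, fun _ => by rw [← hi]; exact h8, h10⟩)
        · rw [if_neg hi] at h7
          rcases rest_step h7 (hLr i) with h8 | h8 | ⟨h8, h9⟩
          · exact Or.inl h8
          · exact Or.inr (Or.inl h8)
          · exact Or.inr (Or.inr ⟨h8, fun h => absurd h hi, h9⟩)) with h3 | ⟨h3, h4, h5⟩
    · exact Or.inl h3
    · exact Or.inr ⟨.main l, n, e, .z2m ((h4 r).1 rfl), h3, fun i => (h4 i).2, h5.trans hxe⟩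
  | fin =>
    change ∀ o ∈ x.s, ∀ k, o ≠ .ctrl k at hskin
    right
    -- only register objects, traps etc. are in the skin region
    have hprods : ∀ p ∈ prods (A none) + prods (B none), p = (.trap, .here) := by
      intro p hp
      rw [mem_add] at hp
      rcases hp with hp | hp
      · rcases hA : A none with _ | ⟨o, v⟩
        · rw [hA] at hp; simp at hp
        · rw [hA] at hp hL
          rw [prods_some] at hp
          have h1 := hL.val1 o v rfl
          have h2 := hL.mem1
          cases o with
          | ctrl k => exact absurd rfl (hskin _ h2 k)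
          | o i => have h3 : v = trapOut := h1; subst h3; simpa [trapOut] using hp
          | trap => have h3 : v = trapOut := h1; subst h3; simpa [trapOut] using hp
          | _ => exact absurd h1 (by simp [S1])
      · rcases hB : B none with _ | ⟨o, v⟩
        · rw [hB] at hp; simp at hp
        · rw [hB] at hp hL
          rw [prods_some] at hp
          have h1 := hL.val2 o v rfl
          have h2 := hL.mem2
          cases o with
          | ctrl k => exact absurd rfl (hskin _ h2 k)
          | o i => have h3 : v = 0 := h1; subst h3; simp at hp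
          | _ => exact absurd h1 (by simp [S2])
    refine ⟨.fin, n, e, .fin, ?_, fun i => trivial, ?_⟩
    · intro o ho k
      rw [hs, mem_add, nxt, mem_add] at ho
      rcases ho with (ho | ho) | ho
      · exact hskin o (mem_of_le (Multiset.sub_le_self _ _) ho) k
      · rw [mem_fltr] at ho
        have := hprods _ ho
        simp only [Prod.mk.injEq, and_true] at this
        rw [this]
        simp
      · obtain ⟨r, rfl⟩ := hMo o ho
        simp
    · rw [he, hxe]
      have h0 : fltr .out (prods (A none) + prods (B none)) = 0 := by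
        rw [eq_zero_iff_forall_notMem]
        intro o ho
        rw [mem_fltr] at ho
        have := hprods _ ho
        simp at this
      rw [h0]
      simp

/-- Halting configurations in a phase are in the final phase. -/
theorem phase_of_halt {prog : Q → Instr Q R} {ph : Phase Q R} {n : R → ℕ} {e : ℕ} {x : SC Q R}
    (hx : InPhase ph n e x) (h : SHalt prog x) : ph = .fin := by
  obtain ⟨hskin, _, _⟩ := hx
  have key : ∀ k, (.ctrl k : Obj Q R) ∈ x.s → False := by
    intro k hk
    have := (h none _ hk).1
    change S1 (.ctrl k) = ∅ at this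
    cases k <;> simp [S1] at this
  cases ph with
  | fin => rfl
  | main q => exact absurd (key (.P q) (by rw [show x.s = _ from hskin]; simp)) (by simp)
  | d1 r l => exact absurd (key (.D1 l) (by rw [show x.s = _ from hskin]; simp)) (by simp)
  | d2 r l => exact absurd (key (.D2 l) (by rw [show x.s = _ from hskin]; simp)) (by simp)
  | d3 r l => exact absurd (key (.D3 l) (by rw [show x.s = _ from hskin]; simp)) (by simp)
  | z1 r l => exact absurd (key (.Z1 l) (by rw [show x.s = _ from hskin]; simp)) (by simp)
  | z2 r l => exact absurd (key (.Z2 l) (by rw [show x.s = _ from hskin]; simp)) (by simp)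

/-- Soundness: a halting computation from a phase gives a path of phases. -/
theorem sound {prog : Q → Instr Q R} {x y : SC Q R} (hxy : Relation.ReflTransGen (SStep prog) x y)
    (hy : SHalt prog y) {ph : Phase Q R} {n : R → ℕ} {e : ℕ} (hx : InPhase ph n e x) :
    ∃ n', Relation.ReflTransGen (Next prog) (ph, n, e) (.fin, n', y.e) := by
  induction hxy using Relation.ReflTransGen.head_induction_on generalizing ph n e with
  | refl =>
    have := phase_of_halt hx hy
    subst this
    refine ⟨n, ?_⟩
    rw [hx.2.2]
  | head h1 h2 ih =>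
    rcases phase_step hx h1 with h3 | ⟨ph', n', e', h3, h4⟩
    · exact absurd hy (h3 y h2)
    · obtain ⟨n'', h5⟩ := ih h4
      exact ⟨n'', Relation.ReflTransGen.head h3 h5⟩

end Pool.Agent.H75.PSys
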