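import Pool.Agent.H75.PSys.Sys

/-!
The steps of the simulating P system, described by simplified configurations.
-/

set_option linter.unusedSectionVars false

namespace Pool.Agent.H75.PSys

open Multiset

variable {Q R : Type} [Fintype Q] [DecidableEq Q] [Fintype R] [DecidableEq R]

/-- Splitting a multiset of targeted objects by targets. -/
theorem fltr_decomp {O : Type} (v : Out O) :
    (fltr .here v).map (fun o => (o, Target.here)) + (fltr .out v).map (fun o => (o, Target.out)) +
      (fltr .inn v).map (fun o => (o, Target.inn)) = v := by
  induction v using Multiset.induction_on with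
  | empty => simp
  | cons p v ih =>
    obtain ⟨o, t⟩ := p
    conv_rhs => rw [← ih]
    rw [fltr_cons, fltr_cons, fltr_cons]
    cases t <;> simp [← singleton_add] <;> abel

theorem mem_fltr {O : Type} {t : Target} {v : Out O} {o : O} : o ∈ fltr t v ↔ (o, t) ∈ v := by
  simp only [fltr, mem_map, mem_filter]
  constructor
  · rintro ⟨⟨o', t'⟩, ⟨h, h'⟩, h''⟩
    simp only at h' h''
    rw [← h', ← h'']
    exact h
  · intro h
    exact ⟨_, ⟨h, rfl⟩, rfl⟩

/-- The route of the objects sent `in` by the skin region. -/
def routeOf {O : Type} (D : Multiset (O × Target × Option (Option R))) : Multiset (O × R) :=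
  D.filterMap (fun q => match q.2.2 with
    | some (some r) => some (q.1, r)
    | _ => none)

theorem routeOf_cons_none {O : Type} (o : O) (t : Target)
    (D : Multiset (O × Target × Option (Option R))) :
    routeOf ((o, t, none) ::ₘ D) = routeOf D := by
  simp [routeOf]

theorem routeOf_cons_some_none {O : Type} (o : O) (t : Target)
    (D : Multiset (O × Target × Option (Option R))) :
    routeOf ((o, t, some none) ::ₘ D) = routeOf D := by
  simp [routeOf]

theorem routeOf_cons_some_some {O : Type} (o : O) (t : Target) (r : R)
    (D : Multiset (O × Target × Option (Option R))) :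
    routeOf ((o, t, some (some r)) ::ₘ D) = (o, r) ::ₘ routeOf D := by
  simp [routeOf]

/-- The destinations allowed in the skin region. -/
def SkinOK {O : Type} (q : O × Target × Option (Option R)) : Prop :=
  (q.2.2 = some none ↔ q.2.1 = .here) ∧ (q.2.2 = none ↔ q.2.1 = .out) ∧
    ((∃ r, q.2.2 = some (some r)) ↔ q.2.1 = .inn)

theorem routeOf_map {O : Type} (D : Multiset (O × Target × Option (Option R)))
    (h : ∀ q ∈ D, SkinOK q) :
    (routeOf D).map Prod.fst = fltr .inn (D.map (fun q => (q.1, q.2.1))) := by
  induction D using Multiset.induction_on with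
  | empty => simp [routeOf]
  | cons q D ih =>
    have ih' := ih (fun q' hq' => h q' (mem_cons_of_mem hq'))
    obtain ⟨o, t, d⟩ := q
    have hq := h _ (mem_cons_self _ _)
    simp only [SkinOK] at hq
    rw [map_cons, fltr_cons]
    rcases d with _ | _ | r
    · have ht : t = .out := hq.2.1.1 rfl
      subst ht
      rw [routeOf_cons_none, if_neg (by simp)]
      exact ih'
    · have ht : t = .here := hq.1.1 rfl
      subst ht
      rw [routeOf_cons_some_none, if_neg (by simp)]
      exact ih'
    · have ht : t = .inn := hq.2.2.1 ⟨r, rfl⟩
      subst ht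
      rw [routeOf_cons_some_some, if_pos rfl, map_cons, ih']

theorem routeOf_filter {O : Type} (D : Multiset (O × Target × Option (Option R))) (r : R) :
    (D.filter (fun q => q.2.2 = some (some r))).map Prod.fst =
      ((routeOf D).filter (fun q => q.2 = r)).map Prod.fst := by
  induction D using Multiset.induction_on with
  | empty => simp [routeOf]
  | cons q D ih =>
    obtain ⟨o, t, d⟩ := q
    rcases d with _ | _ | i
    · rw [filter_cons_of_neg (p := fun q : O × Target × Option (Option R) =>
        q.2.2 = some (some r)) _ (by simp), ih]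
      rw [routeOf_cons_none]
    · rw [filter_cons_of_neg (p := fun q : O × Target × Option (Option R) =>
        q.2.2 = some (some r)) _ (by simp), ih]
      rw [routeOf_cons_some_none]
    · rw [routeOf_cons_some_some]
      by_cases h : i = r
      · subst h
        rw [filter_cons_of_pos (p := fun q : O × Target × Option (Option R) =>
          q.2.2 = some (some i)) _ rfl,
          filter_cons_of_pos (p := fun q : O × R => q.2 = i) _ rfl, map_cons, map_cons, ih]
      · rw [filter_cons_of_neg (p := fun q : O × Target × Option (Option R) =>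
          q.2.2 = some (some r)) _ (by simpa using h),
          filter_cons_of_neg (p := fun q : O × R => q.2 = r) _ h, ih]

/-- The membrane structure of the simulating system. -/
def par : Option R → Option (Option R) := fun m => m.map (fun _ => none)

theorem dest_skin {O : Type} (q : O × Target × Option (Option R))
    (h : RawDest (par (R := R)) none q.2.1 q.2.2) : SkinOK q := by
  obtain ⟨o, t, d⟩ := q
  unfold SkinOK
  cases t with
  | here =>
    change d = some none at h
    subst h
    simp
  | out =>
    change d = none at h
    subst h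
    simp
  | inn =>
    obtain ⟨m', hm', hd⟩ : ∃ m' : Option R, m'.map (fun _ => (none : Option R)) = some none ∧
      d = some m' := h
    subst hd
    rcases m' with _ | r
    · simp at hm'
    · simp

/-- The destinations allowed in a counter region. -/
theorem dest_counter {O : Type} (r : R) (q : O × Target × Option (Option R))
    (h : RawDest (par (R := R)) (some r) q.2.1 q.2.2) :
    (q.2.2 = some none ↔ q.2.1 = .out) ∧ q.2.2 ≠ none ∧
      (q.2.2 = some (some r) ↔ q.2.1 = .here) ∧ ∀ i, i ≠ r → q.2.2 ≠ some (some i) := by
  obtain ⟨o, t, d⟩ := q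
  cases t with
  | here =>
    change d = some (some r) at h
    subst h
    simp only [ne_eq, Option.some.injEq, reduceCtorEq, not_false_eq_true, true_and, iff_self]
    exact fun i hi hr => hi hr.symm
  | out =>
    change d = some none at h
    subst h
    simp
  | inn =>
    exfalso
    obtain ⟨m', hm', _⟩ : ∃ m' : Option R, m'.map (fun _ => (none : Option R)) = some (some r) ∧
      d = some m' := h
    rcases m' with _ | i <;> simp at hm'

theorem clean_of_prods (prog : Q → Instr Q R) {x : SC Q R} {m : Option R}
    {A B : Pick (Obj Q R)} (h : LocalMax (T1 m) (T2 prog m) (x.cont m) A B) :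
    ∀ p ∈ prods A + prods B, p.1 ≠ .c1 ∧ p.1 ≠ .c2 := by
  intro p hp
  rw [mem_add] at hp
  rcases hp with hp | hp
  · rcases A with _ | ⟨o, v⟩
    · simp at hp
    · exact (T1_clean m _ _ (h.val1 o v rfl)).2.2 p hp
  · rcases B with _ | ⟨o, v⟩
    · simp at hp
    · exact (T2_clean prog m _ _ (h.val2 o v rfl)).2.2 p hp

theorem SStep.clean {prog : Q → Instr Q R} {x y : SC Q R} (hx : x.Clean) (h : SStep prog x y) :
    y.Clean := by
  obtain ⟨A, B, ρ, hL, hρ, hs, ha, he⟩ := h
  have hf : ∀ (m : Option R) (t : Target) (k : Obj Q R), (k = .c1 ∨ k = .c2) →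
      k ∉ fltr t (prods (A m) + prods (B m)) := by
    intro m t k hk hmem
    rw [mem_fltr] at hmem
    have := clean_of_prods prog (hL m) _ hmem
    simp only at this
    rcases hk with rfl | rfl
    · exact this.1 rfl
    · exact this.2 rfl
  have key : ∀ k : Obj Q R, (k = .c1 ∨ k = .c2) → ∀ m, k ∉ y.cont m := by
    intro k hk m hmem
    rcases m with _ | r
    · rw [SC.cont, hs, mem_add, mem_add, mem_sum] at hmem
      rcases hmem with (hmem | hmem) | ⟨r, _, hmem⟩
      · have := mem_of_le (Multiset.sub_le_self _ _) hmem
        rcases hk with rfl | rfl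
        · exact (hx none).1 this
        · exact (hx none).2 this
      · exact hf _ _ k hk hmem
      · exact hf _ _ k hk hmem
    · rw [SC.cont, ha, mem_add, mem_add] at hmem
      rcases hmem with (hmem | hmem) | hmem
      · have := mem_of_le (Multiset.sub_le_self _ _) hmem
        rcases hk with rfl | rfl
        · exact (hx (some r)).1 this
        · exact (hx (some r)).2 this
      · exact hf _ _ k hk hmem
      · have h1 : k ∈ ρ.map Prod.fst := mem_of_le (map_le_map (filter_le _ _)) hmem
        rw [hρ] at h1
        exact hf _ _ k hk h1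
  exact fun m => ⟨key _ (Or.inl rfl) m, key _ (Or.inr rfl) m⟩

/-- Steps of the P system are the steps of simplified configurations. -/
theorem rawStep_iff (prog : Q → Instr Q R) {x : SC Q R} (hx : x.Clean)
    {Us : Option R → Rule (Obj Q R) → Prop}
    (hus : ∀ m ρ, Us m ρ ↔ ρ ∈ rulesOf .c1 .c2 (T1 m) (T2 prog m))
    (reg' : Option R → Multiset (Obj Q R)) (env' : ℕ) :
    RawStep par Us (fun m => .c1 ::ₘ .c2 ::ₘ x.cont m) x.e reg' env' ↔
      ∃ y, SStep prog x y ∧ reg' = (fun m => .c1 ::ₘ .c2 ::ₘ y.cont m) ∧ env' = y.e := by
  have hmaxiff : ∀ (m : Option R) (σ : Multiset (Rule (Obj Q R))),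
      RawMax (Us m) (.c1 ::ₘ .c2 ::ₘ x.cont m) σ ↔
      ∃ a b : Pick (Obj Q R), LocalMax (T1 m) (T2 prog m) (x.cont m) a b ∧
        σ = toRules .c1 a + toRules .c2 b := by
    intro m σ
    refine maxApplicable_iff (c1 := Obj.c1) (c2 := Obj.c2) (by simp)
      ?_ ?_ (hus m) (hx m).1 (hx m).2 σ
    · intro v
      exact ⟨fun h => (T1_clean m _ _ h).1 rfl, fun h => (T1_clean m _ _ h).2.1 rfl⟩
    · intro v
      exact ⟨fun h => (T2_clean prog m _ _ h).1 rfl, fun h => (T2_clean prog m _ _ h).2.1 rfl⟩
  constructor
  · rintro ⟨σ, D, hmax, hD, hdest, hreg, henv⟩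
    choose A B hL hσ using fun m => (hmaxiff m (σ m)).1 (hmax m)
    have hD' : ∀ m : Option R, (D m).map (fun q => (q.1, q.2.1)) = prods (A m) + prods (B m) := by
      intro m
      rw [hD m, hσ m, add_bind, bind_prod_toRules, bind_prod_toRules]
    have hobj : ∀ m : Option R, (σ m).map Rule.obj = used (A m) + used (B m) := by
      intro m
      rw [hσ m, Multiset.map_add, map_obj_toRules, map_obj_toRules]
    have hskin : ∀ q ∈ D none, SkinOK q := fun q hq => dest_skin q (hdest none q hq)
    have hcnt := fun (r : R) q hq => dest_counter r q (hdest (some r) q hq)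
    refine ⟨⟨x.s - (used (A none) + used (B none)) +
        fltr .here (prods (A none) + prods (B none)) +
        ∑ r, fltr .out (prods (A (some r)) + prods (B (some r))),
      fun r => x.a r - (used (A (some r)) + used (B (some r))) +
        fltr .here (prods (A (some r)) + prods (B (some r))) +
        ((routeOf (D none)).filter (fun q => q.2 = r)).map Prod.fst,
      x.e + card (fltr .out (prods (A none) + prods (B none)))⟩,
      ⟨A, B, routeOf (D none), hL, ?_, rfl, fun r => rfl, rfl⟩, ?_, ?_⟩
    · rw [routeOf_map _ hskin, hD']
    · funext m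
      rw [hreg m, hobj, Fintype.sum_option]
      rcases m with _ | r
      · have h1 : ((D none).filter (fun q => q.2.2 = some none)).map Prod.fst =
            fltr .here (prods (A none) + prods (B none)) := by
          rw [← hD', sum_map_eq]
          exact fun q hq => (hskin q hq).1
        have h2 : ∀ r : R, ((D (some r)).filter (fun q => q.2.2 = some none)).map Prod.fst =
            fltr .out (prods (A (some r)) + prods (B (some r))) := by
          intro r
          rw [← hD', sum_map_eq]
          exact fun q hq => (hcnt r q hq).1
        simp only [h1, h2]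
        have hle := (hL none).le
        change (Obj.c1 ::ₘ Obj.c2 ::ₘ x.s) - _ + _ = Obj.c1 ::ₘ Obj.c2 ::ₘ _
        change _ ≤ x.s at hle
        rw [Multiset.cons_sub_of_le _ (hle.trans (le_cons_self _ _)),
          Multiset.cons_sub_of_le _ hle, cons_add, cons_add, add_assoc]
        rfl
      · have h1 : ((D none).filter (fun q => q.2.2 = some (some r))).map Prod.fst =
            ((routeOf (D none)).filter (fun q => q.2 = r)).map Prod.fst := routeOf_filter _ _
        have h2 : (∑ i : R, ((D (some i)).filter (fun q => q.2.2 = some (some r))).map Prod.fst) =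
            fltr .here (prods (A (some r)) + prods (B (some r))) := by
          rw [Finset.sum_eq_single r]
          · rw [← hD', sum_map_eq]
            exact fun q hq => (hcnt r q hq).2.2.1
          · intro i _ hi
            rw [filter_eq_nil.2, map_zero]
            intro q hq
            exact (hcnt i q hq).2.2.2 r (Ne.symm hi)
          · simp
        rw [h1, h2]
        have hle := (hL (some r)).le
        change (Obj.c1 ::ₘ Obj.c2 ::ₘ x.a r) - _ + _ = Obj.c1 ::ₘ Obj.c2 ::ₘ _
        change _ ≤ x.a r at hle
        rw [Multiset.cons_sub_of_le _ (hle.trans (le_cons_self _ _)),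
          Multiset.cons_sub_of_le _ hle, cons_add, cons_add, add_comm (Multiset.map _ _),
          ← add_assoc]
        rfl
    · rw [henv, Fintype.sum_option]
      have h1 : card ((D none).filter (fun q => q.2.2 = none)) =
          card (fltr .out (prods (A none) + prods (B none))) := by
        rw [← hD', ← sum_map_eq (D none) none .out (fun q hq => (hskin q hq).2.1), card_map]
      have h2 : ∀ r : R, card ((D (some r)).filter (fun q => q.2.2 = none)) = 0 := by
        intro r
        rw [card_eq_zero, filter_eq_nil]
        exact fun q hq => (hcnt r q hq).2.1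
      simp only [h1, h2, Finset.sum_const_zero, add_zero]
  · rintro ⟨y, ⟨A, B, ρ, hL, hρ, hs, ha, he⟩, rfl, rfl⟩
    have hno : ∀ r, ∀ p ∈ prods (A (some r)) + prods (B (some r)), p.2 ≠ Target.inn := by
      intro r p hp
      rw [mem_add] at hp
      rcases hp with hp | hp
      · rcases hA : A (some r) with _ | ⟨o, v⟩
        · rw [hA] at hp; simp at hp
        · rw [hA] at hp
          exact A1_no_in r o v ((hL (some r)).val1 o v hA) p hp
      · rcases hB : B (some r) with _ | ⟨o, v⟩
        · rw [hB] at hp; simp at hp
        · rw [hB] at hp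
          exact A2_no_in o v ((hL (some r)).val2 o v hB) p hp
    obtain ⟨Dn, hDn⟩ : ∃ Dn : Multiset (Obj Q R × Target × Option (Option R)),
        Dn = (fltr .here (prods (A none) + prods (B none))).map
            (fun o => (o, Target.here, some none)) +
          (fltr .out (prods (A none) + prods (B none))).map (fun o => (o, Target.out, none)) +
          ρ.map (fun q => (q.1, Target.inn, some (some q.2))) := ⟨_, rfl⟩
    obtain ⟨Ds, hDs⟩ : ∃ Ds : R → Multiset (Obj Q R × Target × Option (Option R)),
        ∀ r, Ds r = (prods (A (some r)) + prods (B (some r))).map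
            (fun p => (p.1, p.2, if p.2 = .here then some (some r) else some none)) :=
      ⟨fun r => _, fun r => rfl⟩
    have hmapn : Dn.map (fun q => (q.1, q.2.1)) = prods (A none) + prods (B none) := by
      rw [hDn, Multiset.map_add, Multiset.map_add, Multiset.map_map, Multiset.map_map,
        Multiset.map_map]
      conv_rhs => rw [← fltr_decomp (prods (A none) + prods (B none)), ← hρ, Multiset.map_map]
      rfl
    have hmaps : ∀ r, (Ds r).map (fun q => (q.1, q.2.1)) =
        prods (A (some r)) + prods (B (some r)) := by
      intro r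
      rw [hDs, Multiset.map_map]
      exact map_id' _
    have hskin : ∀ q ∈ Dn, SkinOK q := by
      intro q hq
      rw [hDn, mem_add, mem_add, mem_map, mem_map, mem_map] at hq
      rcases hq with (⟨o, _, rfl⟩ | ⟨o, _, rfl⟩) | ⟨o, _, rfl⟩ <;> simp [SkinOK]
    have hcnt : ∀ r, ∀ q ∈ Ds r, (q.2.2 = some none ↔ q.2.1 = .out) ∧ q.2.2 ≠ none ∧
        (q.2.2 = some (some r) ↔ q.2.1 = .here) ∧ ∀ i, i ≠ r → q.2.2 ≠ some (some i) := by
      intro r q hq
      rw [hDs, mem_map] at hq
      obtain ⟨p, hp, rfl⟩ := hq
      have := hno r p hp
      obtain ⟨o, t⟩ := p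
      cases t with
      | here =>
        simp only [reduceIte, Option.some.injEq, reduceCtorEq, ne_eq, not_false_eq_true,
          true_and, iff_self]
        exact fun i hi hr => hi hr.symm
      | out => simp
      | inn => exact absurd rfl this
    refine ⟨fun m => toRules .c1 (A m) + toRules .c2 (B m),
      fun m => match m with
        | none => Dn
        | some r => Ds r, ?_, ?_, ?_, ?_, ?_⟩
    · exact fun m => (hmaxiff m _).2 ⟨A m, B m, hL m, rfl⟩
    · intro m
      rw [add_bind, bind_prod_toRules, bind_prod_toRules]
      rcases m with _ | r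
      · exact hmapn
      · exact hmaps r
    · intro m q hq
      rcases m with _ | r
      · change q ∈ Dn at hq
        rw [hDn, mem_add, mem_add, mem_map, mem_map, mem_map] at hq
        rcases hq with (⟨o, _, rfl⟩ | ⟨o, _, rfl⟩) | ⟨o, _, rfl⟩
        · rfl
        · rfl
        · exact ⟨(some o.2 : Option R), rfl, rfl⟩
      · change q ∈ Ds r at hq
        rw [hDs, mem_map] at hq
        obtain ⟨p, hp, rfl⟩ := hq
        have := hno r p hp
        obtain ⟨o, t⟩ := p
        cases t with
        | here => rfl
        | out => rfl
        | inn => exact absurd rfl this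
    · intro m
      rw [Fintype.sum_option, Multiset.map_add, map_obj_toRules, map_obj_toRules]
      rcases m with _ | r
      · have h1 : (Dn.filter (fun q => q.2.2 = some none)).map Prod.fst =
            fltr .here (prods (A none) + prods (B none)) := by
          rw [← hmapn, sum_map_eq]
          exact fun q hq => (hskin q hq).1
        have h2 : ∀ r : R, ((Ds r).filter (fun q => q.2.2 = some none)).map Prod.fst =
            fltr .out (prods (A (some r)) + prods (B (some r))) := by
          intro r
          rw [← hmaps, sum_map_eq]
          exact fun q hq => (hcnt r q hq).1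
        simp only [h1, h2]
        change Obj.c1 ::ₘ Obj.c2 ::ₘ y.s = (Obj.c1 ::ₘ Obj.c2 ::ₘ x.s) - _ + _
        have hle := (hL none).le
        change _ ≤ x.s at hle
        rw [hs, Multiset.cons_sub_of_le _ (hle.trans (le_cons_self _ _)),
          Multiset.cons_sub_of_le _ hle, cons_add, cons_add, add_assoc]
      · have h1 : (Dn.filter (fun q => q.2.2 = some (some r))).map Prod.fst =
            (ρ.filter (fun q => q.2 = r)).map Prod.fst := by
          rw [routeOf_filter]
          congr 2
          have hz : ∀ (f : Obj Q R → Obj Q R × Target × Option (Option R)) (v : Multiset (Obj Q R)),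
              (∀ o, ∀ i, (f o).2.2 ≠ some (some i)) → routeOf (v.map f) = 0 := by
            intro f v hf
            induction v using Multiset.induction_on with
            | empty => simp [routeOf]
            | cons o v ih =>
              rw [map_cons]
              have := hf o
              revert this
              generalize f o = q
              obtain ⟨o', t', d'⟩ := q
              intro this
              rcases d' with _ | _ | i
              · rw [routeOf_cons_none, ih]
              · rw [routeOf_cons_some_none, ih]
              · exact absurd rfl (this i)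
          have hadd : ∀ u v : Multiset (Obj Q R × Target × Option (Option R)),
              routeOf (u + v) = routeOf u + routeOf v := by
            intro u v
            induction u using Multiset.induction_on with
            | empty => simp [routeOf]
            | cons q u ih =>
              obtain ⟨o', t', d'⟩ := q
              rw [cons_add]
              rcases d' with _ | _ | i
              · rw [routeOf_cons_none, routeOf_cons_none, ih]
              · rw [routeOf_cons_some_none, routeOf_cons_some_none, ih]
              · rw [routeOf_cons_some_some, routeOf_cons_some_some, ih, cons_add]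
          have hρ' : ∀ v : Multiset (Obj Q R × R),
              routeOf (v.map (fun q => (q.1, Target.inn, some (some q.2)))) = v := by
            intro v
            induction v using Multiset.induction_on with
            | empty => simp [routeOf]
            | cons q v ih =>
              rw [map_cons, routeOf_cons_some_some, ih]
          rw [hDn, hadd, hadd, hρ', hz _ _ (by simp), hz _ _ (by simp), zero_add, zero_add]
        have h2 : (∑ i : R, ((Ds i).filter (fun q => q.2.2 = some (some r))).map Prod.fst) =
            fltr .here (prods (A (some r)) + prods (B (some r))) := by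
          rw [Finset.sum_eq_single r]
          · rw [← hmaps, sum_map_eq]
            exact fun q hq => (hcnt r q hq).2.2.1
          · intro i _ hi
            rw [filter_eq_nil.2, map_zero]
            intro q hq
            exact (hcnt i q hq).2.2.2 r (Ne.symm hi)
          · simp
        simp only [h1, h2]
        change Obj.c1 ::ₘ Obj.c2 ::ₘ y.a r = (Obj.c1 ::ₘ Obj.c2 ::ₘ x.a r) - _ + _
        have hle := (hL (some r)).le
        change _ ≤ x.a r at hle
        rw [ha, Multiset.cons_sub_of_le _ (hle.trans (le_cons_self _ _)),
          Multiset.cons_sub_of_le _ hle, cons_add, cons_add, add_comm (Multiset.map _ _),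
          ← add_assoc]
    · rw [Fintype.sum_option, he]
      have h1 : card (Dn.filter (fun q => q.2.2 = none)) =
          card (fltr .out (prods (A none) + prods (B none))) := by
        rw [← hmapn, ← sum_map_eq Dn none .out (fun q hq => (hskin q hq).2.1), card_map]
      have h2 : ∀ r : R, card ((Ds r).filter (fun q => q.2.2 = none)) = 0 := by
        intro r
        rw [card_eq_zero, filter_eq_nil]
        exact fun q hq => (hcnt r q hq).2.1
      simp only [h1, h2, Finset.sum_const_zero, add_zero]

/-- The configuration of the P system described by a simplified configuration: steps. -/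
theorem step_iff [Nonempty R] (prog : Q → Instr Q R) (q0 : Q) {x : SC Q R} (hx : x.Clean)
    (c' : (sys prog q0).Conf) :
    (sys prog q0).Step (toConf prog q0 x) c' ↔
      ∃ y, SStep prog x y ∧ c' = toConf prog q0 y := by
  rw [step_iff_raw]
  refine (rawStep_iff prog hx (fun m ρ => usable_iff prog q0 m ρ) c'.reg c'.env).trans ?_
  refine exists_congr fun y => and_congr_right fun _ => ?_
  constructor
  · rintro ⟨h1, h2⟩
    exact PSystem.Conf.ext h1 h2
  · rintro rfl
    exact ⟨rfl, rfl⟩

/-- Halting in terms of simplified configurations. -/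
theorem halting_iff [Nonempty R] (prog : Q → Instr Q R) (q0 : Q) {x : SC Q R} :
    (sys prog q0).Halting (toConf prog q0 x) ↔ SHalt prog x := by
  have key : ∀ (m : Option R) (ρ : Rule (Obj Q R)), ρ ∈ rulesOf .c1 .c2 (T1 m) (T2 prog m) →
      (ρ.lhs ≤ (.c1 ::ₘ .c2 ::ₘ x.cont m : Multiset (Obj Q R)) ↔ ρ.obj ∈ x.cont m) := by
    intro m ρ hρ
    have hobj : ρ.obj ≠ .c1 ∧ ρ.obj ≠ .c2 := by
      rcases hρ with ⟨_, hv⟩ | ⟨_, hv⟩
      · exact ⟨(T1_clean m _ _ hv).1, (T1_clean m _ _ hv).2.1⟩
      · exact ⟨(T2_clean prog m _ _ hv).1, (T2_clean prog m _ _ hv).2.1⟩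
    constructor
    · intro h
      have := mem_of_le h (show ρ.obj ∈ ρ.lhs by simp [Rule.lhs])
      rw [mem_cons, mem_cons] at this
      rcases this with h1 | h1 | h1
      · exact absurd h1 hobj.1
      · exact absurd h1 hobj.2
      · exact h1
    · intro h
      have h1 : ({ρ.obj} : Multiset (Obj Q R)) ≤ x.cont m := singleton_le.2 h
      rcases hρ with ⟨hc, _⟩ | ⟨hc, _⟩
      · rw [Rule.lhs, hc]
        calc ({Obj.c1, ρ.obj} : Multiset (Obj Q R)) = Obj.c1 ::ₘ {ρ.obj} := rfl
          _ ≤ Obj.c1 ::ₘ Obj.c2 ::ₘ x.cont m := cons_le_cons _ (h1.trans (le_cons_self _ _))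
      · rw [Rule.lhs, hc]
        calc ({Obj.c2, ρ.obj} : Multiset (Obj Q R)) = Obj.c2 ::ₘ {ρ.obj} := rfl
          _ ≤ Obj.c2 ::ₘ x.cont m := cons_le_cons _ h1
          _ ≤ Obj.c1 ::ₘ Obj.c2 ::ₘ x.cont m := le_cons_self _ _
  constructor
  · intro h m o ho
    constructor
    · by_contra hcon
      obtain ⟨v, hv⟩ := Set.nonempty_iff_ne_empty.2 hcon
      have hr : (⟨.c1, o, v⟩ : Rule (Obj Q R)) ∈ rulesOf .c1 .c2 (T1 m) (T2 prog m) :=
        Or.inl ⟨rfl, hv⟩
      exact h m _ ((usable_iff prog q0 m _).2 hr) ((key m _ hr).2 ho)
    · by_contra hcon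
      obtain ⟨v, hv⟩ := Set.nonempty_iff_ne_empty.2 hcon
      have hr : (⟨.c2, o, v⟩ : Rule (Obj Q R)) ∈ rulesOf .c1 .c2 (T1 m) (T2 prog m) :=
        Or.inr ⟨rfl, hv⟩
      exact h m _ ((usable_iff prog q0 m _).2 hr) ((key m _ hr).2 ho)
  · intro h m ρ hρ hle
    have hr := (usable_iff prog q0 m ρ).1 hρ
    have ho := (key m ρ hr).1 hle
    obtain ⟨h1, h2⟩ := h m _ ho
    rcases hr with ⟨_, hv⟩ | ⟨_, hv⟩
    · rw [h1] at hv
      exact hv
    · rw [h2] at hv
      exact hv

end Pool.Agent.H75.PSys
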