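import Pool.Agent.H75.PSys.Two

/-!
The P system with two catalysts that simulates a nondeterministic counter machine with output,
and a simplified description of its steps.
-/

set_option linter.unusedSectionVars false

namespace Pool.Agent.H75.PSys

open Multiset

/-- Instructions of a nondeterministic counter machine with output. -/
inductive Instr (Q R : Type)
  | goto (l : Q)
  | inc (r : R) (l : Q)
  | jz (r : R) (l0 l1 : Q)
  | emit (l : Q)
  | fork (l l' : Q)
  | stop

/-- Control symbols of the skin region. -/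
inductive Ctrl (Q : Type)
  | P (q : Q) | D1 (q : Q) | D2 (q : Q) | D3 (q : Q) | Z1 (q : Q) | Z2 (q : Q)
  deriving DecidableEq, Fintype

/-- The objects of the simulating P system. -/
inductive Obj (Q R : Type)
  | c1 | c2 | trap | b | t
  | o (r : R) | p (r : R) | x (r : R) | y (r : R) | z (r : R) | w (r : R)
  | ctrl (k : Ctrl Q)
  deriving DecidableEq, Fintype

variable {Q R : Type} [Fintype Q] [DecidableEq Q] [Fintype R] [DecidableEq R]

/-- The right-hand side that produces the trap. -/
def trapOut : Out (Obj Q R) := {(Obj.trap, Target.here)}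

/-- Right-hand sides for the first catalyst in the skin region. -/
def S1 : Obj Q R → Set (Out (Obj Q R))
  | .ctrl (.D3 l) => {{(.ctrl (.P l), .here)}}
  | .ctrl _ => {trapOut}
  | .o _ => {trapOut}
  | .trap => {trapOut}
  | _ => ∅

/-- Right-hand sides for the second catalyst in the skin region. -/
def S2 (prog : Q → Instr Q R) : Obj Q R → Set (Out (Obj Q R))
  | .ctrl (.P q) => match prog q with
    | .goto l => {{(.ctrl (.P l), .here)}}
    | .inc r l => {{(.o r, .inn), (.ctrl (.P l), .here)}}
    | .jz r l0 l1 => {{(.p r, .inn), (.ctrl (.D1 l1), .here)}, {(.z r, .inn), (.ctrl (.Z1 l0), .here)}}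
    | .emit l => {{(.t, .out), (.ctrl (.P l), .here)}}
    | .fork l l' => {{(.ctrl (.P l), .here)}, {(.ctrl (.P l'), .here)}}
    | .stop => {0}
  | .ctrl (.D1 l) => {{(.ctrl (.D2 l), .here)}}
  | .ctrl (.D2 l) => {{(.ctrl (.D3 l), .here)}}
  | .ctrl (.D3 _) => {trapOut}
  | .ctrl (.Z1 l) => {{(.ctrl (.Z2 l), .here)}}
  | .ctrl (.Z2 l) => {{(.ctrl (.P l), .here)}}
  | .o _ => {0}
  | _ => ∅

/-- Right-hand sides for the first catalyst in the region of counter `r`. -/
def A1 (r : R) : Obj Q R → Set (Out (Obj Q R))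
  | .b => {{(.b, .here)}, 0}
  | .o i => if i = r then {{(.o r, .out)}} else {trapOut}
  | .p i => if i = r then {{(.x r, .here), (.y r, .here)}} else {trapOut}
  | .z i => if i = r then {{(.w r, .here)}} else {trapOut}
  | .x _ => {trapOut}
  | .y _ => {trapOut}
  | .w _ => {trapOut}
  | .trap => {trapOut}
  | _ => ∅

/-- Right-hand sides for the second catalyst in a counter region. -/
def A2 : Obj Q R → Set (Out (Obj Q R))
  | .b => {trapOut}
  | .p _ => {trapOut}
  | .z _ => {trapOut}
  | .x _ => {{(.b, .here)}}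
  | .y _ => {0}
  | .w _ => {{(.b, .here)}}
  | _ => ∅

/-- The tables for all regions; `none` is the skin region. -/
def T1 : Option R → Obj Q R → Set (Out (Obj Q R))
  | none => S1
  | some r => A1 r

/-- The tables for all regions; `none` is the skin region. -/
def T2 (prog : Q → Instr Q R) : Option R → Obj Q R → Set (Out (Obj Q R))
  | none => S2 prog
  | some _ => A2

theorem finite_T1 (m : Option R) (o : Obj Q R) : (T1 m o : Set (Out (Obj Q R))).Finite := by
  rcases m with _ | r
  · cases o with
    | ctrl k => cases k <;> simp [T1, S1]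
    | _ => simp [T1, S1]
  · cases o with
    | o i => by_cases h : i = r <;> simp [T1, A1, h]
    | p i => by_cases h : i = r <;> simp [T1, A1, h]
    | z i => by_cases h : i = r <;> simp [T1, A1, h]
    | _ => simp [T1, A1]

theorem finite_T2 (prog : Q → Instr Q R) (m : Option R) (o : Obj Q R) :
    (T2 prog m o : Set (Out (Obj Q R))).Finite := by
  rcases m with _ | r
  · cases o with
    | ctrl k =>
      cases k with
      | P q => simp only [T2, S2]; cases prog q <;> simp
      | _ => simp [T2, S2]
    | _ => simp [T2, S2]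
  · cases o <;> simp [T2, A2]

/-- No catalyst is ever consumed or produced. -/
theorem T1_clean (m : Option R) (o : Obj Q R) (v : Out (Obj Q R)) (hv : v ∈ T1 m o) :
    o ≠ .c1 ∧ o ≠ .c2 ∧ ∀ p ∈ v, p.1 ≠ .c1 ∧ p.1 ≠ .c2 := by
  rcases m with _ | r
  · cases o with
    | ctrl k => cases k <;> simp_all [T1, S1, trapOut]
    | _ => simp_all [T1, S1, trapOut]
  · cases o with
    | o i => by_cases h : i = r <;> simp_all [T1, A1, trapOut]
    | p i => by_cases h : i = r <;> simp_all [T1, A1, trapOut]
    | z i => by_cases h : i = r <;> simp_all [T1, A1, trapOut]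
    | b =>
      simp only [T1, A1, Set.mem_insert_iff, Set.mem_singleton_iff] at hv
      rcases hv with rfl | rfl <;> simp
    | _ => simp_all [T1, A1, trapOut]

theorem T2_clean (prog : Q → Instr Q R) (m : Option R) (o : Obj Q R) (v : Out (Obj Q R))
    (hv : v ∈ T2 prog m o) :
    o ≠ .c1 ∧ o ≠ .c2 ∧ ∀ p ∈ v, p.1 ≠ .c1 ∧ p.1 ≠ .c2 := by
  rcases m with _ | r
  · cases o with
    | ctrl k =>
      cases k with
      | P q =>
        simp only [T2, S2] at hv
        cases h : prog q with
        | jz r l0 l1 =>
          rw [h] at hv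
          simp only [Set.mem_insert_iff, Set.mem_singleton_iff] at hv
          rcases hv with rfl | rfl <;> simp
        | fork l l' =>
          rw [h] at hv
          simp only [Set.mem_insert_iff, Set.mem_singleton_iff] at hv
          rcases hv with rfl | rfl <;> simp
        | _ =>
          rw [h] at hv
          simp_all
      | _ => simp_all [T2, S2, trapOut]
    | _ => simp_all [T2, S2, trapOut]
  · cases o <;> simp_all [T2, A2, trapOut]

/-- In the counter regions no object is sent `in`. -/
theorem A1_no_in (r : R) (o : Obj Q R) (v : Out (Obj Q R)) (hv : v ∈ A1 r o) :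
    ∀ p ∈ v, p.2 ≠ Target.inn := by
  cases o with
  | o i => by_cases h : i = r <;> simp_all [A1, trapOut]
  | p i => by_cases h : i = r <;> simp_all [A1, trapOut]
  | z i => by_cases h : i = r <;> simp_all [A1, trapOut]
  | b =>
    simp only [A1, Set.mem_insert_iff, Set.mem_singleton_iff] at hv
    rcases hv with rfl | rfl <;> simp
  | _ => simp_all [A1, trapOut]

theorem A2_no_in (o : Obj Q R) (v : Out (Obj Q R)) (hv : v ∈ (A2 : Obj Q R → Set _) o) :
    ∀ p ∈ v, p.2 ≠ Target.inn := by
  cases o <;> simp_all [A2, trapOut]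

theorem rulesOf_finite (T1 T2 : Obj Q R → Set (Out (Obj Q R))) (h1 : ∀ o, (T1 o).Finite)
    (h2 : ∀ o, (T2 o).Finite) : (rulesOf Obj.c1 Obj.c2 T1 T2).Finite := by
  have : rulesOf Obj.c1 Obj.c2 T1 T2 ⊆
      (⋃ o, (fun v => (⟨Obj.c1, o, v⟩ : Rule (Obj Q R))) '' T1 o) ∪
      (⋃ o, (fun v => (⟨Obj.c2, o, v⟩ : Rule (Obj Q R))) '' T2 o) := by
    rintro ⟨c, o, v⟩ h
    rcases h with ⟨h, hv⟩ | ⟨h, hv⟩
    · left
      simp only at h hv
      subst h
      exact Set.mem_iUnion.2 ⟨o, v, hv, rfl⟩
    · right
      simp only at h hv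
      subst h
      exact Set.mem_iUnion.2 ⟨o, v, hv, rfl⟩
  refine Set.Finite.subset (Set.Finite.union ?_ ?_) this
  · exact Set.finite_iUnion fun o => (h1 o).image _
  · exact Set.finite_iUnion fun o => (h2 o).image _

/-- The simulating P system. -/
def sys (prog : Q → Instr Q R) (q0 : Q) : PSystem where
  O := Obj Q R
  C := {.c1, .c2}
  M := Option R
  skin := none
  parent m := m.map (fun _ => none)
  parent_skin := rfl
  reach_skin m := by
    rcases m with _ | r
    · exact Relation.ReflTransGen.refl
    · exact Relation.ReflTransGen.single rfl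
  w m := match m with
    | none => {.c1, .c2, .ctrl (.P q0)}
    | some _ => {.c1, .c2, .b}
  rules m := rulesOf .c1 .c2 (T1 m) (T2 prog m)
  rules_finite m := rulesOf_finite _ _ (finite_T1 m) (finite_T2 prog m)
  catalytic := by
    rintro m ρ (⟨h, hv⟩ | ⟨h, hv⟩)
    · obtain ⟨h1, h2, h3⟩ := T1_clean m _ _ hv
      exact ⟨by simp [h], by simp [h1, h2]⟩
    · obtain ⟨h1, h2, h3⟩ := T2_clean prog m _ _ hv
      exact ⟨by simp [h], by simp [h1, h2]⟩
  iout := none
  iout_elementary := by simp

/-- No rule of the simulating system produces a catalyst. -/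
theorem sys_no_catalyst (prog : Q → Instr Q R) (q0 : Q) (m : Option R) (ρ : Rule (Obj Q R))
    (hρ : ρ ∈ (sys prog q0).rules m) : ∀ p ∈ ρ.prod, p.1 ∉ (sys prog q0).C := by
  intro p hp
  change p.1 ∉ ({.c1, .c2} : Finset (Obj Q R))
  rcases hρ with ⟨h, hv⟩ | ⟨h, hv⟩
  · obtain ⟨h1, h2, h3⟩ := T1_clean m _ _ hv
    simp [(h3 p hp).1, (h3 p hp).2]
  · obtain ⟨h1, h2, h3⟩ := T2_clean prog m _ _ hv
    simp [(h3 p hp).1, (h3 p hp).2]

/-- Simplified configurations: the non-catalyst objects in the skin region and in the counter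
regions, and the number of objects in the environment. -/
@[ext] structure SC (Q R : Type) where
  s : Multiset (Obj Q R)
  a : R → Multiset (Obj Q R)
  e : ℕ

/-- The contents of a region. -/
def SC.cont (x : SC Q R) : Option R → Multiset (Obj Q R)
  | none => x.s
  | some r => x.a r

/-- The configuration of the P system described by a simplified configuration. -/
def toConf (prog : Q → Instr Q R) (q0 : Q) (x : SC Q R) : (sys prog q0).Conf where
  reg m := (.c1 ::ₘ .c2 ::ₘ x.cont m : Multiset (Obj Q R))
  env := x.e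

/-- No catalysts. -/
def SC.Clean (x : SC Q R) : Prop := ∀ m, Obj.c1 ∉ x.cont m ∧ Obj.c2 ∉ x.cont m

/-- The objects with a given target. -/
def fltr {O : Type} (t : Target) (v : Out O) : Multiset O :=
  (v.filter (fun p => p.2 = t)).map Prod.fst

theorem fltr_add {O : Type} (t : Target) (v w : Out O) : fltr t (v + w) = fltr t v + fltr t w := by
  simp [fltr, filter_add]

@[simp] theorem fltr_zero {O : Type} (t : Target) : fltr t (0 : Out O) = 0 := by simp [fltr]

theorem fltr_cons {O : Type} (t : Target) (p : O × Target) (v : Out O) :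
    fltr t (p ::ₘ v) = if p.2 = t then p.1 ::ₘ fltr t v else fltr t v := by
  unfold fltr
  by_cases h : p.2 = t
  · rw [filter_cons_of_pos (p := fun p : O × Target => p.2 = t) _ h, map_cons, if_pos h]
  · rw [filter_cons_of_neg (p := fun p : O × Target => p.2 = t) _ h, if_neg h]

theorem fltr_singleton {O : Type} (t : Target) (p : O × Target) :
    fltr t ({p} : Out O) = if p.2 = t then {p.1} else 0 := by
  rw [← cons_zero, fltr_cons]
  split_ifs <;> simp

/-- Steps of simplified configurations. -/
def SStep (prog : Q → Instr Q R) (x y : SC Q R) : Prop :=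
  ∃ (A B : Option R → Pick (Obj Q R)) (ρ : Multiset (Obj Q R × R)),
    (∀ m, LocalMax (T1 m) (T2 prog m) (x.cont m) (A m) (B m)) ∧
    ρ.map Prod.fst = fltr .inn (prods (A none) + prods (B none)) ∧
    y.s = x.s - (used (A none) + used (B none)) + fltr .here (prods (A none) + prods (B none)) +
      ∑ r, fltr .out (prods (A (some r)) + prods (B (some r))) ∧
    (∀ r, y.a r = x.a r - (used (A (some r)) + used (B (some r))) +
      fltr .here (prods (A (some r)) + prods (B (some r))) +
      (ρ.filter (fun q => q.2 = r)).map Prod.fst) ∧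
    y.e = x.e + card (fltr .out (prods (A none) + prods (B none)))

/-- Halting simplified configurations. -/
def SHalt (prog : Q → Instr Q R) (x : SC Q R) : Prop :=
  ∀ m, ∀ o ∈ x.cont m, T1 m o = ∅ ∧ T2 prog m o = ∅

theorem usable_iff [Nonempty R] (prog : Q → Instr Q R) (q0 : Q) (m : Option R)
    (ρ : Rule (Obj Q R)) :
    (sys prog q0).Usable m ρ ↔ ρ ∈ rulesOf .c1 .c2 (T1 m) (T2 prog m) := by
  constructor
  · exact fun h => h.1
  · intro h
    refine ⟨h, fun ⟨p, hp, hpi⟩ => ?_⟩
    rcases m with _ | r
    · obtain ⟨r⟩ := ‹Nonempty R›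
      exact ⟨(some r : Option R), rfl⟩
    · exfalso
      rcases h with ⟨_, hv⟩ | ⟨_, hv⟩
      · exact A1_no_in r _ _ hv p hp hpi
      · exact A2_no_in _ _ hv p hp hpi

theorem sum_map_eq {O M : Type} [DecidableEq M] (D : Multiset (O × Target × Option M))
    (d : Option M) (t : Target) (h : ∀ q ∈ D, (q.2.2 = d ↔ q.2.1 = t)) :
    (D.filter (fun q => q.2.2 = d)).map Prod.fst = fltr t (D.map (fun q => (q.1, q.2.1))) := by
  rw [filter_congr h, fltr, filter_map, map_map]
  rfl

end Pool.Agent.H75.PSys
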