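import Pool.Agent.H75.PSys.Defs

/-!
Local analysis of a region that holds exactly one copy of each of two catalysts.
-/

set_option linter.unusedSectionVars false

namespace Pool.Agent.H75.PSys

open Multiset

section TwoCat

variable {O : Type} [DecidableEq O]

/-- Right-hand sides. -/
abbrev Out (O : Type) := Multiset (O × Target)

/-- The choice of a catalyst: nothing, or an object together with a right-hand side. -/
abbrev Pick (O : Type) := Option (O × Out O)

/-- The object used by a choice. -/
def used : Pick O → Multiset O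
  | none => 0
  | some (a, _) => {a}

/-- The objects produced by a choice. -/
def prods : Pick O → Out O
  | none => 0
  | some (_, v) => v

/-- The multiset of rules belonging to a choice. -/
def toRules (c : O) : Pick O → Multiset (Rule O)
  | none => 0
  | some (a, v) => {⟨c, a, v⟩}

@[simp] theorem used_none : used (none : Pick O) = 0 := rfl
@[simp] theorem used_some (a : O) (v : Out O) : used (some (a, v)) = {a} := rfl
@[simp] theorem prods_none : prods (none : Pick O) = 0 := rfl
@[simp] theorem prods_some (a : O) (v : Out O) : prods (some (a, v)) = v := rfl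
@[simp] theorem toRules_none (c : O) : toRules c (none : Pick O) = 0 := rfl
@[simp] theorem toRules_some (c a : O) (v : Out O) : toRules c (some (a, v)) = {⟨c, a, v⟩} := rfl

/-- The rules given by two tables. -/
def rulesOf (c1 c2 : O) (T1 T2 : O → Set (Out O)) : Set (Rule O) :=
  {ρ | (ρ.cat = c1 ∧ ρ.prod ∈ T1 ρ.obj) ∨ (ρ.cat = c2 ∧ ρ.prod ∈ T2 ρ.obj)}

/-- A maximal choice for a region whose non-catalyst objects form `X`. -/
structure LocalMax (T1 T2 : O → Set (Out O)) (X : Multiset O) (a b : Pick O) : Prop where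
  val1 : ∀ o v, a = some (o, v) → v ∈ T1 o
  val2 : ∀ o v, b = some (o, v) → v ∈ T2 o
  le : used a + used b ≤ X
  max1 : a = none → ∀ o ∈ X - used b, T1 o = ∅
  max2 : b = none → ∀ o ∈ X - used a, T2 o = ∅

theorem map_obj_toRules (c : O) (a : Pick O) : (toRules c a).map Rule.obj = used a := by
  rcases a with _ | ⟨o, v⟩ <;> simp

theorem bind_prod_toRules (c : O) (a : Pick O) : (toRules c a).bind Rule.prod = prods a := by
  rcases a with _ | ⟨o, v⟩ <;> simp

/-- The catalyst used by a choice. -/
def catUsed (c : O) : Pick O → Multiset O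
  | none => 0
  | some _ => {c}

theorem sum_lhs_toRules (c : O) (a : Pick O) :
    ((toRules c a).map Rule.lhs).sum = catUsed c a + used a := by
  rcases a with _ | ⟨o, v⟩
  · simp [catUsed]
  · simp [catUsed, Rule.lhs]

theorem catUsed_le (c : O) (a : Pick O) : catUsed c a ≤ {c} := by
  rcases a with _ | ⟨o, v⟩ <;> simp [catUsed]

theorem card_filter_le_count (c : O) (σ : Multiset (Rule O)) :
    card (σ.filter (fun ρ => ρ.cat = c)) ≤ count c (σ.map Rule.lhs).sum := by
  induction σ using Multiset.induction_on with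
  | empty => simp
  | cons ρ σ ih =>
    rw [map_cons, sum_cons, count_add]
    by_cases h : ρ.cat = c
    · rw [filter_cons_of_pos (p := fun ρ : Rule O => ρ.cat = c) _ h, card_cons]
      have : 1 ≤ count c ρ.lhs := by
        rw [one_le_count_iff_mem]
        simp [Rule.lhs, h]
      omega
    · rw [filter_cons_of_neg (p := fun ρ : Rule O => ρ.cat = c) _ h]
      omega

theorem card_le_one_cases {α : Type} {s : Multiset α} (h : card s ≤ 1) : s = 0 ∨ ∃ a, s = {a} := by
  rcases Nat.lt_or_ge (card s) 1 with h0 | h1
  · left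
    exact card_eq_zero.1 (by omega)
  · right
    exact card_eq_one.1 (by omega)

/-- Decomposition of an applicable multiset of rules. -/
theorem exists_picks {c1 c2 : O} (hne : c1 ≠ c2) {T1 T2 : O → Set (Out O)} {X : Multiset O}
    (hX1 : c1 ∉ X) (hX2 : c2 ∉ X) {σ : Multiset (Rule O)}
    (hσ : ∀ ρ ∈ σ, ρ ∈ rulesOf c1 c2 T1 T2)
    (hle : (σ.map Rule.lhs).sum ≤ c1 ::ₘ c2 ::ₘ X) :
    ∃ a b : Pick O, (∀ o v, a = some (o, v) → v ∈ T1 o) ∧ (∀ o v, b = some (o, v) → v ∈ T2 o) ∧
      σ = toRules c1 a + toRules c2 b := by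
  have hc1 : count c1 (c1 ::ₘ c2 ::ₘ X) = 1 := by
    rw [count_cons_self, count_cons_of_ne hne, count_eq_zero.2 hX1]
  have hc2 : count c2 (c1 ::ₘ c2 ::ₘ X) = 1 := by
    rw [count_cons_of_ne hne.symm, count_cons_self, count_eq_zero.2 hX2]
  have h1 : card (σ.filter (fun ρ => ρ.cat = c1)) ≤ 1 :=
    (card_filter_le_count c1 σ).trans ((count_le_of_le c1 hle).trans hc1.le)
  have h2 : card (σ.filter (fun ρ => ρ.cat = c2)) ≤ 1 :=
    (card_filter_le_count c2 σ).trans ((count_le_of_le c2 hle).trans hc2.le)
  have hsplit : σ = σ.filter (fun ρ => ρ.cat = c1) + σ.filter (fun ρ => ρ.cat = c2) := by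
    conv_lhs => rw [← filter_add_not (fun ρ => ρ.cat = c1) σ]
    congr 1
    apply filter_congr
    intro ρ hρ
    rcases hσ ρ hρ with ⟨h, _⟩ | ⟨h, _⟩
    · simp [h, hne]
    · simp [h, hne.symm]
  have key : ∀ (c : O) (T : O → Set (Out O)) (s : Multiset (Rule O)),
      card s ≤ 1 → (∀ ρ ∈ s, ρ.cat = c ∧ ρ.prod ∈ T ρ.obj) →
      ∃ a : Pick O, (∀ o v, a = some (o, v) → v ∈ T o) ∧ s = toRules c a := by
    intro c T s hs hT
    rcases card_le_one_cases hs with rfl | ⟨ρ, rfl⟩
    · exact ⟨none, by simp, by simp⟩
    · obtain ⟨hc, hp⟩ := hT ρ (mem_singleton_self ρ)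
      refine ⟨some (ρ.obj, ρ.prod), ?_, ?_⟩
      · intro o v h
        simp only [Option.some.injEq, Prod.mk.injEq] at h
        rw [← h.1, ← h.2]
        exact hp
      · rw [toRules_some]
        congr 1
        cases ρ
        simp only at hc
        subst hc
        rfl
  obtain ⟨a, ha, hsa⟩ := key c1 T1 _ h1 (by
    intro ρ hρ
    rw [mem_filter] at hρ
    rcases hσ ρ hρ.1 with h | h
    · exact h
    · exact absurd (hρ.2.symm.trans h.1) hne)
  obtain ⟨b, hb, hsb⟩ := key c2 T2 _ h2 (by
    intro ρ hρ
    rw [mem_filter] at hρ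
    rcases hσ ρ hρ.1 with h | h
    · exact absurd (h.1.symm.trans hρ.2) hne
    · exact h)
  refine ⟨a, b, ha, hb, ?_⟩
  rw [← hsa, ← hsb]
  exact hsplit

theorem sum_lhs_le_iff {c1 c2 : O} (hne : c1 ≠ c2) {T1 T2 : O → Set (Out O)} {X : Multiset O}
    (hT1 : ∀ v, v ∉ T1 c1 ∧ v ∉ T1 c2) (hT2 : ∀ v, v ∉ T2 c1 ∧ v ∉ T2 c2)
    {a b : Pick O} (ha : ∀ o v, a = some (o, v) → v ∈ T1 o) (hb : ∀ o v, b = some (o, v) → v ∈ T2 o) :
    ((toRules c1 a + toRules c2 b).map Rule.lhs).sum ≤ c1 ::ₘ c2 ::ₘ X ↔ used a + used b ≤ X := by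
  rw [map_add, sum_add, sum_lhs_toRules, sum_lhs_toRules]
  have hua : ∀ c, (c = c1 ∨ c = c2) → count c (used a) = 0 := by
    intro c hc
    rcases a with _ | ⟨o, v⟩
    · simp
    · have := ha o v rfl
      rw [used_some, count_singleton, if_neg]
      rintro rfl
      rcases hc with rfl | rfl
      · exact (hT1 v).1 this
      · exact (hT1 v).2 this
  have hub : ∀ c, (c = c1 ∨ c = c2) → count c (used b) = 0 := by
    intro c hc
    rcases b with _ | ⟨o, v⟩
    · simp
    · have := hb o v rfl
      rw [used_some, count_singleton, if_neg]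
      rintro rfl
      rcases hc with rfl | rfl
      · exact (hT2 v).1 this
      · exact (hT2 v).2 this
  constructor
  · intro h
    rw [le_iff_count] at h ⊢
    intro o
    by_cases ho1 : o = c1
    · rw [count_add, hua o (Or.inl ho1), hub o (Or.inl ho1)]
      exact Nat.zero_le _
    by_cases ho2 : o = c2
    · rw [count_add, hua o (Or.inr ho2), hub o (Or.inr ho2)]
      exact Nat.zero_le _
    have := h o
    rw [count_cons_of_ne ho1, count_cons_of_ne ho2] at this
    simp only [count_add] at this ⊢
    omega
  · intro h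
    have h1 : catUsed c1 a + catUsed c2 b ≤ {c1} + {c2} := add_le_add (catUsed_le c1 a) (catUsed_le c2 b)
    calc catUsed c1 a + used a + (catUsed c2 b + used b)
        = (catUsed c1 a + catUsed c2 b) + (used a + used b) := by abel
      _ ≤ ({c1} + {c2}) + X := add_le_add h1 h
      _ = c1 ::ₘ c2 ::ₘ X := by
        rw [add_assoc, singleton_add, singleton_add]

theorem toRules_eq_of_le {c1 c2 : O} (hne : c1 ≠ c2) {a b a' b' : Pick O}
    (h : toRules c1 a + toRules c2 b ≤ toRules c1 a' + toRules c2 b') :
    (∀ x, a = some x → a' = some x) ∧ (∀ x, b = some x → b' = some x) := by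
  constructor
  · rintro ⟨o, v⟩ rfl
    have : (⟨c1, o, v⟩ : Rule O) ∈ toRules c1 a' + toRules c2 b' :=
      mem_of_le h (by simp)
    rw [mem_add] at this
    rcases this with h1 | h1
    · rcases a' with _ | ⟨o', v'⟩
      · simp at h1
      · simp only [toRules_some, mem_singleton, Rule.mk.injEq, true_and] at h1
        rw [h1.1, h1.2]
    · rcases b' with _ | ⟨o', v'⟩
      · simp at h1
      · simp only [toRules_some, mem_singleton, Rule.mk.injEq] at h1
        exact absurd h1.1 hne
  · rintro ⟨o, v⟩ rfl
    have : (⟨c2, o, v⟩ : Rule O) ∈ toRules c1 a' + toRules c2 b' :=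
      mem_of_le h (by simp)
    rw [mem_add] at this
    rcases this with h1 | h1
    · rcases a' with _ | ⟨o', v'⟩
      · simp at h1
      · simp only [toRules_some, mem_singleton, Rule.mk.injEq] at h1
        exact absurd h1.1 hne.symm
    · rcases b' with _ | ⟨o', v'⟩
      · simp at h1
      · simp only [toRules_some, mem_singleton, Rule.mk.injEq, true_and] at h1
        rw [h1.1, h1.2]

end TwoCat

/-- Applicable multisets of rules, for given usable rules and region contents. -/
def RawApplicable {O : Type} (Us : Rule O → Prop) (Y : Multiset O) (σ : Multiset (Rule O)) : Prop :=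
  (∀ ρ ∈ σ, Us ρ) ∧ (σ.map Rule.lhs).sum ≤ Y

/-- Maximal applicable multisets of rules. -/
def RawMax {O : Type} (Us : Rule O → Prop) (Y : Multiset O) (σ : Multiset (Rule O)) : Prop :=
  RawApplicable Us Y σ ∧ ∀ τ, RawApplicable Us Y τ → σ ≤ τ → τ = σ

/-- Destinations. -/
def RawDest {M : Type} (parent : M → Option M) (m : M) : Target → Option M → Prop
  | .here, d => d = some m
  | .out, d => d = parent m
  | .inn, d => ∃ m', parent m' = some m ∧ d = some m'

/-- Steps, in unbundled form. -/
def RawStep {O M : Type} [DecidableEq O] [Fintype M] [DecidableEq M] (parent : M → Option M)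
    (Us : M → Rule O → Prop) (reg : M → Multiset O) (env : ℕ) (reg' : M → Multiset O)
    (env' : ℕ) : Prop :=
  ∃ (σ : M → Multiset (Rule O)) (D : M → Multiset (O × Target × Option M)),
    (∀ m, RawMax (Us m) (reg m) (σ m)) ∧
    (∀ m, (D m).map (fun q => (q.1, q.2.1)) = (σ m).bind Rule.prod) ∧
    (∀ m, ∀ q ∈ D m, RawDest parent m q.2.1 q.2.2) ∧
    (∀ m, reg' m = reg m - (σ m).map Rule.obj +
      ∑ m', ((D m').filter (fun q => q.2.2 = some m)).map Prod.fst) ∧
    env' = env + ∑ m', Multiset.card ((D m').filter (fun q => q.2.2 = none))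

theorem step_iff_raw (Γ : PSystem) (c c' : Γ.Conf) :
    Γ.Step c c' ↔ RawStep Γ.parent Γ.Usable c.reg c.env c'.reg c'.env := by
  have hd : ∀ (m : Γ.M) (t : Target) (d : Option Γ.M), RawDest Γ.parent m t d ↔ Γ.Dest m t d := by
    intro m t d
    cases t <;> exact Iff.rfl
  unfold RawStep PSystem.Step
  simp only [hd]
  exact Iff.rfl

/-- Maximal applicable multisets of rules in a region with one copy of each of the two
catalysts. -/
theorem maxApplicable_iff {O : Type} [DecidableEq O] {c1 c2 : O} (hne : c1 ≠ c2)
    {T1 T2 : O → Set (Out O)} (hT1 : ∀ v, v ∉ T1 c1 ∧ v ∉ T1 c2)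
    (hT2 : ∀ v, v ∉ T2 c1 ∧ v ∉ T2 c2) {Us : Rule O → Prop}
    (hus : ∀ ρ, Us ρ ↔ ρ ∈ rulesOf c1 c2 T1 T2) {X : Multiset O} (hX1 : c1 ∉ X)
    (hX2 : c2 ∉ X) (σ : Multiset (Rule O)) :
    RawMax Us (c1 ::ₘ c2 ::ₘ X) σ ↔ ∃ a b : Pick O, LocalMax T1 T2 X a b ∧
      σ = toRules c1 a + toRules c2 b := by
  have hmem : ∀ {a b : Pick O}, (∀ o v, a = some (o, v) → v ∈ T1 o) →
      (∀ o v, b = some (o, v) → v ∈ T2 o) → ∀ ρ ∈ toRules c1 a + toRules c2 b,
      ρ ∈ rulesOf c1 c2 T1 T2 := by
    intro a b ha hb ρ hρ
    rw [mem_add] at hρ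
    rcases hρ with h | h
    · rcases a with _ | ⟨o, v⟩
      · simp at h
      · simp only [toRules_some, mem_singleton] at h
        subst h
        exact Or.inl ⟨rfl, ha o v rfl⟩
    · rcases b with _ | ⟨o, v⟩
      · simp at h
      · simp only [toRules_some, mem_singleton] at h
        subst h
        exact Or.inr ⟨rfl, hb o v rfl⟩
  constructor
  · rintro ⟨⟨hu, hle⟩, hmax⟩
    obtain ⟨a, b, ha, hb, rfl⟩ := exists_picks hne hX1 hX2 (fun ρ hρ => (hus ρ).1 (hu ρ hρ)) hle
    have hle' := (sum_lhs_le_iff hne hT1 hT2 ha hb).1 hle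
    refine ⟨a, b, ⟨ha, hb, hle', ?_, ?_⟩, rfl⟩
    · rintro rfl o ho
      by_contra hcon
      obtain ⟨v, hv⟩ := Set.nonempty_iff_ne_empty.2 hcon
      have ha' : ∀ o' v', (some (o, v) : Pick O) = some (o', v') → v' ∈ T1 o' := by
        intro o' v' h
        simp only [Option.some.injEq, Prod.mk.injEq] at h
        rw [← h.1, ← h.2]
        exact hv
      have happ : RawApplicable Us (c1 ::ₘ c2 ::ₘ X) (toRules c1 (some (o, v)) + toRules c2 b) := by
        refine ⟨fun ρ hρ => (hus ρ).2 (hmem ha' hb ρ hρ), ?_⟩
        rw [sum_lhs_le_iff hne hT1 hT2 ha' hb, used_some, singleton_add]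
        have := ho
        rw [used_none, zero_add] at hle'
        have h2 : ({o} : Multiset O) ≤ X - used b := singleton_le.2 ho
        have h3 : ({o} : Multiset O) + used b ≤ X := by
          calc ({o} : Multiset O) + used b ≤ (X - used b) + used b := add_le_add h2 le_rfl
            _ = X := tsub_add_cancel_of_le hle'
        rwa [singleton_add] at h3
      have h4 := hmax _ happ (by
        rw [toRules_none, zero_add]
        exact le_add_of_nonneg_left (zero_le))
      have h5 := congrArg card h4
      simp at h5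
    · rintro rfl o ho
      by_contra hcon
      obtain ⟨v, hv⟩ := Set.nonempty_iff_ne_empty.2 hcon
      have hb' : ∀ o' v', (some (o, v) : Pick O) = some (o', v') → v' ∈ T2 o' := by
        intro o' v' h
        simp only [Option.some.injEq, Prod.mk.injEq] at h
        rw [← h.1, ← h.2]
        exact hv
      have happ : RawApplicable Us (c1 ::ₘ c2 ::ₘ X) (toRules c1 a + toRules c2 (some (o, v))) := by
        refine ⟨fun ρ hρ => (hus ρ).2 (hmem ha hb' ρ hρ), ?_⟩
        rw [sum_lhs_le_iff hne hT1 hT2 ha hb', used_some]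
        rw [used_none, add_zero] at hle'
        have h2 : ({o} : Multiset O) ≤ X - used a := singleton_le.2 ho
        calc used a + ({o} : Multiset O) ≤ used a + (X - used a) := add_le_add le_rfl h2
          _ = X := add_tsub_cancel_of_le hle'
      have h4 := hmax _ happ (by
        rw [toRules_none, add_zero]
        exact le_add_of_nonneg_right (zero_le))
      have h5 := congrArg card h4
      simp at h5
  · rintro ⟨a, b, hL, rfl⟩
    refine ⟨⟨fun ρ hρ => (hus ρ).2 (hmem hL.val1 hL.val2 ρ hρ), ?_⟩, ?_⟩
    · exact (sum_lhs_le_iff hne hT1 hT2 hL.val1 hL.val2).2 hL.le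
    · rintro τ ⟨hu, hle⟩ hτ
      obtain ⟨a', b', ha', hb', rfl⟩ := exists_picks hne hX1 hX2
        (fun ρ hρ => (hus ρ).1 (hu ρ hρ)) hle
      have hle' := (sum_lhs_le_iff hne hT1 hT2 ha' hb').1 hle
      obtain ⟨h1, h2⟩ := toRules_eq_of_le hne hτ
      have haa : a' = a := by
        rcases a with _ | x
        · rcases a' with _ | ⟨o', v'⟩
          · rfl
          · exfalso
            have hmax := hL.max1 rfl o' ?_
            · have := ha' o' v' rfl
              rw [hmax] at this
              exact this
            · rw [mem_sub]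
              have hcount : count o' (used b) ≤ count o' (used b') := by
                rcases b with _ | y
                · simp
                · rw [h2 y rfl]
              have := (le_iff_count.1 hle') o'
              rw [count_add, used_some, count_singleton_self] at this
              omega
        · exact h1 x rfl
      have hbb : b' = b := by
        rcases b with _ | x
        · rcases b' with _ | ⟨o', v'⟩
          · rfl
          · exfalso
            have hmax := hL.max2 rfl o' ?_
            · have := hb' o' v' rfl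
              rw [hmax] at this
              exact this
            · rw [mem_sub]
              have hcount : count o' (used a) ≤ count o' (used a') := by
                rcases a with _ | y
                · simp
                · rw [h1 y rfl]
              have := (le_iff_count.1 hle') o'
              rw [count_add, used_some, count_singleton_self] at this
              omega
        · exact h2 x rfl
      rw [haa, hbb]

end Pool.Agent.H75.PSys
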