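import Pool.Agent.H75.PSys.Machine

/-!
Every recursively enumerable set of natural numbers is generated by a purely catalytic P system
with two catalysts.
-/

set_option linter.unusedSectionVars false
set_option linter.unusedSimpArgs false

namespace Pool.Agent.H75.PSys

open Function

/-- The states of the generating machine: the generator and the states of a counter machine. -/
inductive GS (N : ℕ)
  | gen | genE | genM | st (q : Fin (N + 1))
  deriving DecidableEq, Fintype

/-- The primes. -/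
noncomputable def pr (r : ℕ) : ℕ := Nat.nth Nat.Prime r

theorem pr_prime (r : ℕ) : (pr r).Prime := Nat.prime_nth_prime r

theorem pr_zero : pr 0 = 2 := Nat.nth_prime_zero_eq_two

theorem pr_mono {r s : ℕ} (h : r ≤ s) : pr r ≤ pr s :=
  (Nat.nth_strictMono Nat.infinite_setOfPred_prime).monotone h

theorem pr_inj {r s : ℕ} (h : pr r = pr s) : r = s :=
  (Nat.nth_strictMono Nat.infinite_setOfPred_prime).injective h

/-- The number `M` encodes the register contents `s`. -/
def Enc (M : ℕ) (s : ℕ → ℕ) : Prop := M ≠ 0 ∧ ∀ r, M.factorization (pr r) = s r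

theorem Enc.mul {M : ℕ} {s : ℕ → ℕ} (h : Enc M s) (r : ℕ) :
    Enc (pr r * M) (update s r (s r + 1)) := by
  refine ⟨Nat.mul_ne_zero (pr_prime r).ne_zero h.1, fun i => ?_⟩
  rw [Nat.factorization_mul (pr_prime r).ne_zero h.1, Finsupp.add_apply, h.2,
    (pr_prime r).factorization, Finsupp.single_apply]
  by_cases hi : i = r
  · subst hi
    simp [add_comm]
  · rw [if_neg (fun h' => hi (pr_inj h').symm), update_of_ne hi, zero_add]

theorem Enc.dvd {M : ℕ} {s : ℕ → ℕ} (h : Enc M s) (r : ℕ) : pr r ∣ M ↔ s r ≠ 0 := by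
  rw [← h.2 r, ← Nat.pos_iff_ne_zero, (pr_prime r).dvd_iff_one_le_factorization h.1]
  rfl

theorem Enc.div {M : ℕ} {s : ℕ → ℕ} (h : Enc M s) {r : ℕ} (hr : s r ≠ 0) :
    Enc (M / pr r) (update s r (s r - 1)) := by
  have hd := (h.dvd r).2 hr
  obtain ⟨K, rfl⟩ := hd
  rw [Nat.mul_div_cancel_left _ (pr_prime r).pos]
  have hK : K ≠ 0 := fun h0 => h.1 (by rw [h0, mul_zero])
  refine ⟨hK, fun i => ?_⟩
  have h2 := h.2 i
  rw [Nat.factorization_mul (pr_prime r).ne_zero hK, Finsupp.add_apply,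
    (pr_prime r).factorization, Finsupp.single_apply] at h2
  by_cases hi : i = r
  · subst hi
    rw [if_pos rfl] at h2
    rw [update_self]
    omega
  · rw [if_neg (fun h' => hi (pr_inj h').symm), zero_add] at h2
    rw [update_of_ne hi, h2]

theorem enc_pow (n : ℕ) : Enc (2 ^ n) (H83.init n) := by
  refine ⟨by positivity, fun r => ?_⟩
  rw [Nat.prime_two.factorization_pow, Finsupp.single_apply, H83.init]
  by_cases hr : r = 0
  · subst hr
    rw [if_pos pr_zero.symm, update_self]
  · rw [if_neg (fun h => hr (pr_inj (pr_zero.trans h)).symm), update_of_ne hr]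

/-- The program of the generating machine. -/
noncomputable def gmp (ins : ℕ → H83.Instr) (N q₀ : ℕ) : GS N → MI (GS N)
  | .gen => .fork .genE (.st (mk N q₀))
  | .genE => .emit .genM
  | .genM => .mul 2 .gen
  | .st q => match ins q.val with
    | .halt => .halt
    | .goto l => .goto (.st (mk N l))
    | .inc r l => .mul (pr r) (.st (mk N l))
    | .jz r l0 l1 => .div (pr r) (.st (mk N l0)) (.st (mk N l1))

section Sim

variable {ins : ℕ → H83.Instr} {N R q₀ P : ℕ}

/-- The program of the generating two-counter machine. -/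
noncomputable def gprog (ins : ℕ → H83.Instr) (N q₀ P : ℕ) :
    St (GS N) P → Instr (St (GS N) P) (Fin 2) := comp (gmp ins N q₀) .gen

/-- The last stage. -/
theorem lead_halt {q : ℕ} (hq : q ≤ N) (h : ins q = .halt) (M e : ℕ) :
    Lead0 (gprog ins N q₀ P) (.at (.st (mk N q)), ![M, 0], e) (.fin, ![0, 0], e) := by
  have h1 := leadsIn_goto (prog := gprog ins N q₀ P) (q := .at (.st (mk N q))) (l := .clr)
    (n := ![M, 0]) (e := e) (by simp [gprog, comp, gmp, mk_val hq, h])
  exact h1.head (lead_clr e M)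

theorem acc_fin {F : St (GS N) P × (Fin 2 → ℕ) × ℕ → Prop} {k e : ℕ} :
    Acc (gprog ins N q₀ P) F k (.fin, ![0, 0], e) ↔ k = 0 ∧ F (.fin, ![0, 0], e) := by
  cases k with
  | zero => simp [Acc, gprog, comp]
  | succ k =>
    simp only [Nat.succ_ne_zero, false_and, iff_false, Nat.add_eq_zero_iff]
    rintro ⟨c', h, _⟩
    have : gprog ins N q₀ P .fin = .stop := rfl
    cases h with
    | goto hq => rw [this] at hq; cases hq
    | inc hq => rw [this] at hq; cases hq
    | emit hq => rw [this] at hq; cases hq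
    | forkL hq => rw [this] at hq; cases hq
    | forkR hq => rw [this] at hq; cases hq
    | dec hq _ => rw [this] at hq; cases hq
    | zero hq _ => rw [this] at hq; cases hq

/-- One step of the simulated machine. -/
theorem lead_step (hB : ∀ q < N, (ins q).Below N) (hR : ∀ q < N, (ins q).RegBelow R)
    (hP : pr R ≤ P) {q : ℕ} (hq : q < N) (h : ins q ≠ .halt) {M : ℕ} {s : ℕ → ℕ} (hE : Enc M s)
    (e : ℕ) : ∃ q' s' M', H83.mstep ins (q, s) = (q', s') ∧ q' < N ∧ Enc M' s' ∧
      Lead (gprog ins N q₀ P) (.at (.st (mk N q)), ![M, 0], e)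
        (.at (.st (mk N q')), ![M', 0], e) := by
  have hb := hB q hq
  have hr := hR q hq
  have hv : (mk N q).val = q := mk_val hq.le
  cases hi : ins q with
  | halt => exact absurd hi h
  | goto l =>
    rw [hi] at hb
    refine ⟨l, s, M, by simp [H83.mstep, hi], hb, hE, 0, ?_⟩
    exact leadsIn_goto (by simp [gprog, comp, gmp, hv, hi])
  | inc r l =>
    rw [hi] at hb hr
    have hr' : r < R := hr
    refine ⟨l, update s r (s r + 1), pr r * M, by simp [H83.mstep, hi], hb, hE.mul r, ?_⟩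
    exact lead_mul (by simp [gmp, hv, hi]) ((pr_mono hr'.le).trans hP) M e
  | jz r l0 l1 =>
    rw [hi] at hb hr
    have hr' : r < R := hr
    have h1 := lead_div (mp := gmp ins N q₀) (q0 := .gen) (P := P) (q := .st (mk N q))
      (l0 := .st (mk N l0)) (l1 := .st (mk N l1)) (k := pr r) (by simp [gmp, hv, hi])
      ((pr_mono hr'.le).trans hP) (pr_prime r).pos M e
    by_cases hs : s r = 0
    · refine ⟨l0, s, M, by simp [H83.mstep, hi, hs], hb.1, hE, ?_⟩
      rw [if_neg (by rw [hE.dvd]; simpa using hs)] at h1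
      exact h1
    · refine ⟨l1, update s r (s r - 1), M / pr r, by simp [H83.mstep, hi, hs], hb.2,
        hE.div hs, ?_⟩
      rw [if_pos ((hE.dvd r).2 hs)] at h1
      exact h1

/-- Soundness of the simulation. -/
theorem sim_sound (hB : ∀ q < N, (ins q).Below N) (hR : ∀ q < N, (ins q).RegBelow R)
    (hP : pr R ≤ P) (e : ℕ) : ∀ (k : ℕ) (q M e' : ℕ) (s : ℕ → ℕ), q < N → Enc M s →
      Acc (gprog ins N q₀ P) (fun c => c.2.2 = e) k (.at (.st (mk N q)), ![M, 0], e') →
      (∃ i, ins ((H83.mstep ins)^[i] (q, s)).1 = .halt) ∧ e' = e := by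
  intro k
  induction k using Nat.strong_induction_on with
  | _ k ih =>
    intro q M e' s hq hE hacc
    by_cases h : ins q = .halt
    · refine ⟨⟨0, h⟩, ?_⟩
      obtain ⟨d, hd⟩ := lead_halt (q₀ := q₀) (P := P) hq.le h M e'
      obtain ⟨k', _, h2⟩ := (hd _ _).1 hacc
      exact (acc_fin.1 h2).2
    · obtain ⟨q', s', M', h1, h2, h3, d, h4⟩ := lead_step (q₀ := q₀) hB hR hP hq h hE e'
      obtain ⟨k', rfl, h5⟩ := (h4 _ _).1 hacc
      obtain ⟨⟨i, hi⟩, he⟩ := ih k' (by omega) q' M' e' s' h2 h3 h5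
      refine ⟨⟨i + 1, ?_⟩, he⟩
      rw [iterate_succ_apply, h1]
      exact hi

/-- Completeness of the simulation. -/
theorem sim_complete (hB : ∀ q < N, (ins q).Below N) (hR : ∀ q < N, (ins q).RegBelow R)
    (hP : pr R ≤ P) : ∀ (i : ℕ) (q M e : ℕ) (s : ℕ → ℕ), q < N → Enc M s →
      ins ((H83.mstep ins)^[i] (q, s)).1 = .halt →
      ∃ k, Acc (gprog ins N q₀ P) (fun c => c.2 = (0, e)) k (.at (.st (mk N q)), ![M, 0], e) := by
  intro i
  have hhalt : ∀ (q M e : ℕ), q < N → ins q = .halt →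
      ∃ k, Acc (gprog ins N q₀ P) (fun c => c.2 = (0, e)) k
        (.at (.st (mk N q)), ![M, 0], e) := by
    intro q M e hq h
    obtain ⟨d, hd⟩ := lead_halt (q₀ := q₀) (P := P) hq.le h M e
    refine ⟨0 + d, (hd _ _).2 ⟨0, rfl, acc_fin.2 ⟨rfl, ?_⟩⟩⟩
    simp only [Prod.mk.injEq, and_true]
    funext j
    fin_cases j <;> rfl
  induction i with
  | zero =>
    intro q M e s hq hE h
    exact hhalt q M e hq h
  | succ i ih =>
    intro q M e s hq hE h
    by_cases hh : ins q = .halt
    · exact hhalt q M e hq hh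
    · obtain ⟨q', s', M', h1, h2, h3, d, h4⟩ := lead_step (q₀ := q₀) hB hR hP hq hh hE e
      rw [iterate_succ_apply, h1] at h
      obtain ⟨k, hk⟩ := ih q' M' e s' h2 h3 h
      exact ⟨k + (d + 1), (h4 _ _).2 ⟨k, rfl, hk⟩⟩

end Sim

/-- Every recursively enumerable set is generated by a nondeterministic machine with two counters
and output, which can end all of its successful computations with empty counters. -/
theorem exists_two_counter {S : Set ℕ} (hS : REPred fun n => n ∈ S) :
    ∃ (Q : Type) (_ : Fintype Q) (_ : DecidableEq Q) (prog : Q → Instr Q (Fin 2)) (q0 : Q),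
      (∀ q n e, Relation.ReflTransGen (MStep prog) (q0, 0, 0) (q, n, e) →
        prog q = .stop → e ∈ S) ∧
      (∀ e ∈ S, ∃ q, Relation.ReflTransGen (MStep prog) (q0, 0, 0) (q, 0, e) ∧
        prog q = .stop) := by
  obtain ⟨ins, N, R, q₀, hq₀, hR0, hB, hR, hins⟩ := H83.exists_machine hS
  set P := pr R with hP
  have h2P : 2 ≤ P := by rw [← pr_zero]; exact pr_mono (Nat.zero_le R)
  set prog := gprog ins N q₀ P with hprog
  -- the two branches of the generator
  have hgen : ∀ (n : ℕ), prog (.at .gen) = .fork (.at .genE) (.at (.st (mk N q₀))) := by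
    intro n
    simp [hprog, gprog, comp, gmp]
  have hloop : ∀ n : ℕ, Lead0 prog (.at .genE, ![2 ^ n, 0], n) (.at .gen, ![2 ^ (n + 1), 0], n + 1) := by
    intro n
    have h1 := leadsIn_emit (prog := prog) (q := .at .genE) (l := .at .genM)
      (n := ![2 ^ n, 0]) (e := n) (by simp [hprog, gprog, comp, gmp])
    obtain ⟨d, h2⟩ := lead_mul (mp := gmp ins N q₀) (q0 := .gen) (P := P) (q := .genM)
      (l := .gen) (k := 2) (by simp [gmp]) h2P (2 ^ n) (n + 1)
    rw [show 2 * 2 ^ n = 2 ^ (n + 1) by ring] at h2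
    exact h1.head ⟨_, h2⟩
  have hsound : ∀ (e k n : ℕ), Acc prog (fun c => c.2.2 = e) k (.at .gen, ![2 ^ n, 0], n) →
      e ∈ S := by
    intro e k
    induction k using Nat.strong_induction_on with
    | _ k ih =>
      intro n hacc
      obtain ⟨k', rfl, h1 | h1⟩ := (acc_fork (hgen n) _ _).1 hacc
      · obtain ⟨d, hd⟩ := hloop n
        obtain ⟨k'', rfl, h2⟩ := (hd _ _).1 h1
        exact ih k'' (by omega) (n + 1) h2
      · obtain ⟨h2, rfl⟩ := sim_sound (q₀ := q₀) hB hR le_rfl e k' q₀ (2 ^ n) n (H83.init n) hq₀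
          (enc_pow n) h1
        exact (hins n).2 h2
  have hcomplete : ∀ e ∈ S, ∀ j ≤ e, ∃ k, Acc prog (fun c => c.2 = (0, e)) k
      (.at .gen, ![2 ^ (e - j), 0], e - j) := by
    intro e he j
    induction j with
    | zero =>
      intro _
      obtain ⟨i, hi⟩ := (hins e).1 he
      obtain ⟨k, hk⟩ := sim_complete (q₀ := q₀) hB hR le_rfl i q₀ (2 ^ e) e (H83.init e) hq₀
        (enc_pow e) hi
      exact ⟨k + 1, (acc_fork (hgen e) _ _).2 ⟨k, rfl, Or.inr hk⟩⟩
    | succ j ih =>
      intro hj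
      obtain ⟨k, hk⟩ := ih (by omega)
      obtain ⟨d, hd⟩ := hloop (e - (j + 1))
      rw [show e - (j + 1) + 1 = e - j by omega] at hd
      exact ⟨k + d + 1, (acc_fork (hgen e) _ _).2 ⟨k + d, rfl, Or.inl ((hd _ _).2 ⟨k, rfl, hk⟩)⟩⟩
  have hstart : LeadsIn prog 1 (.start, 0, 0) (.at .gen, ![2 ^ 0, 0], 0) := by
    have h1 := leadsIn_inc (prog := prog) (q := .start) (l := .at .gen) (r := 0)
      (n := 0) (e := 0) (by simp [hprog, gprog, comp])
    have h2 : update (0 : Fin 2 → ℕ) 0 ((0 : Fin 2 → ℕ) 0 + 1) = ![2 ^ 0, 0] := by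
      funext i
      fin_cases i <;> simp
    rw [h2] at h1
    exact h1
  refine ⟨St (GS N) P, inferInstance, inferInstance, prog, .start, ?_, ?_⟩
  · intro q n e h hq
    obtain ⟨k, hk⟩ := acc_of_reach (F := fun c => c.2.2 = e) h hq rfl
    obtain ⟨k', _, h2⟩ := (hstart _ _).1 hk
    exact hsound e k' 0 h2
  · intro e he
    obtain ⟨k, hk⟩ := hcomplete e he e le_rfl
    rw [Nat.sub_self] at hk
    obtain ⟨⟨q, n, e'⟩, h1, h2, h3⟩ := reach_of_acc ((hstart _ _).2 ⟨k, rfl, hk⟩)
    simp only [Prod.mk.injEq] at h3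
    obtain ⟨rfl, rfl⟩ := h3
    exact ⟨q, h1, h2⟩

end Pool.Agent.H75.PSys
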