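import Pool.Agent.H75.PSys.Defs
import Pool.Agent.H75.PrimVec

/-!
The set of natural numbers generated by a purely catalytic P system is recursively enumerable.
-/

set_option linter.unusedSectionVars false

namespace Pool.Agent.H75.PSys

open Multiset Pool.Agent.H75.PrimVec

attribute [local instance] vecCod

instance : Fintype Target := ⟨{.here, .out, .inn}, by intro x; cases x <;> simp⟩

namespace PSystem

variable (Γ : PSystem)

/-- All rules of the system. -/
abbrev Rl : Type := {ρ : Rule Γ.O // ∃ m, ρ ∈ Γ.rules m}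

theorem finite_Rl : Finite Γ.Rl := by
  have h1 : (⋃ m, Γ.rules m).Finite := Set.finite_iUnion Γ.rules_finite
  have h2 : {ρ | ∃ m, ρ ∈ Γ.rules m}.Finite := h1.subset fun ρ hρ => Set.mem_iUnion.2 hρ
  exact h2.to_subtype

noncomputable instance : Fintype Γ.Rl := by
  haveI := Γ.finite_Rl
  exact Fintype.ofFinite _

noncomputable instance : DecidableEq Γ.Rl := Classical.decEq _

/-- Codes of configurations. -/
abbrev CC : Type := Option (Γ.M × Γ.O) → ℕ

/-- The contents of a region. -/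
def regOf (v : Γ.CC) (m : Γ.M) : Multiset Γ.O := ofCounts fun o => v (some (m, o))

/-- The coded configuration. -/
def confOf (v : Γ.CC) : Γ.Conf := ⟨Γ.regOf v, v none⟩

/-- The code of a configuration. -/
def codeOf (c : Γ.Conf) : Γ.CC := fun x => match x with
  | none => c.env
  | some (m, o) => count o (c.reg m)

theorem confOf_codeOf (c : Γ.Conf) : Γ.confOf (Γ.codeOf c) = c := by
  apply Conf.ext
  · funext m
    exact ofCounts_count (c.reg m)
  · rfl

/-- Codes of the choices made in a step. -/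
abbrev WW : Type := (Γ.M × Γ.Rl → ℕ) × (Γ.M × (Γ.O × Target × Option Γ.M) → ℕ)

/-- The rules applied in a region. -/
noncomputable def sg (w : Γ.WW) (m : Γ.M) : Multiset Γ.Rl := ofCounts fun ρ => w.1 (m, ρ)

/-- The routed products of a region. -/
def dd (w : Γ.WW) (m : Γ.M) : Multiset (Γ.O × Target × Option Γ.M) := ofCounts fun q => w.2 (m, q)

/-- The coded step relation. -/
def CStep (v v' : Γ.CC) (w : Γ.WW) : Prop :=
  (∀ m, ((∀ ρ : Γ.Rl, count ρ (Γ.sg w m) = 0 ∨ Γ.Usable m ρ.1) ∧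
    (Γ.sg w m).bind (fun ρ => ρ.1.lhs) ≤ Γ.regOf v m) ∧
    ∀ ρ : Γ.Rl, Γ.Usable m ρ.1 →
      ¬ (Γ.sg w m).bind (fun ρ => ρ.1.lhs) + ρ.1.lhs ≤ Γ.regOf v m) ∧
  (∀ m, (Γ.dd w m).map (fun q => (q.1, q.2.1)) = (Γ.sg w m).bind (fun ρ => ρ.1.prod)) ∧
  (∀ m, ∀ q, count q (Γ.dd w m) = 0 ∨ Γ.Dest m q.2.1 q.2.2) ∧
  (∀ m, Γ.regOf v' m = Γ.regOf v m - (Γ.sg w m).map (fun ρ => ρ.1.obj) +
    ∑ m', ((Γ.dd w m').filter (fun q => q.2.2 = some m)).map Prod.fst) ∧
  v' none = v none + ∑ m', card ((Γ.dd w m').filter (fun q => q.2.2 = none))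

theorem map_val_sum (s : Multiset Γ.Rl) :
    ((s.map Subtype.val).map Rule.lhs).sum = s.bind (fun ρ => ρ.1.lhs) := by
  rw [map_map]
  rfl

theorem exists_subtype {m : Γ.M} {σ : Multiset (Rule Γ.O)} (h : ∀ ρ ∈ σ, Γ.Usable m ρ) :
    ∃ s : Multiset Γ.Rl, s.map Subtype.val = σ := by
  induction σ using Multiset.induction_on with
  | empty => exact ⟨0, rfl⟩
  | cons ρ σ ih =>
    obtain ⟨s, hs⟩ := ih fun ρ' h' => h ρ' (mem_cons_of_mem h')
    refine ⟨⟨ρ, m, (h ρ (mem_cons_self _ _)).1⟩ ::ₘ s, ?_⟩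
    rw [map_cons, hs]

theorem maxApplicable_code (c : Γ.Conf) (m : Γ.M) (s : Multiset Γ.Rl) :
    Γ.MaxApplicable c m (s.map Subtype.val) ↔
      ((∀ ρ : Γ.Rl, count ρ s = 0 ∨ Γ.Usable m ρ.1) ∧ s.bind (fun ρ => ρ.1.lhs) ≤ c.reg m) ∧
      ∀ ρ : Γ.Rl, Γ.Usable m ρ.1 → ¬ s.bind (fun ρ => ρ.1.lhs) + ρ.1.lhs ≤ c.reg m := by
  have happ : ∀ s : Multiset Γ.Rl, Γ.Applicable c m (s.map Subtype.val) ↔
      ((∀ ρ : Γ.Rl, count ρ s = 0 ∨ Γ.Usable m ρ.1) ∧
        s.bind (fun ρ => ρ.1.lhs) ≤ c.reg m) := by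
    intro s
    unfold Applicable
    rw [map_val_sum]
    refine and_congr_left fun _ => ?_
    constructor
    · intro h ρ
      by_cases h0 : count ρ s = 0
      · exact Or.inl h0
      · exact Or.inr (h ρ.1 (mem_map_of_mem _ (by rwa [← count_ne_zero])))
    · intro h ρ hρ
      obtain ⟨ρ', h1, rfl⟩ := mem_map.1 hρ
      rcases h ρ' with h2 | h2
      · exact absurd h2 (count_ne_zero.2 h1)
      · exact h2
  unfold MaxApplicable
  rw [happ]
  refine and_congr_right fun hs => ?_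
  constructor
  · intro h ρ hρ hle
    have h1 : Γ.Applicable c m ((ρ ::ₘ s).map Subtype.val) := by
      rw [happ]
      refine ⟨fun ρ' => ?_, ?_⟩
      · by_cases he : ρ' = ρ
        · subst he; exact Or.inr hρ
        · rcases hs.1 ρ' with h2 | h2
          · left
            rw [count_cons_of_ne he, h2]
          · exact Or.inr h2
      · rw [cons_bind, add_comm]
        exact hle
    have h2 := h _ h1 (map_le_map (le_cons_self _ _))
    have h3 := congrArg card h2
    simp at h3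
  · intro h τ hτ hle
    obtain ⟨t, rfl⟩ := Γ.exists_subtype hτ.1
    by_contra hne
    have hlt : s.map Subtype.val < t.map Subtype.val := lt_of_le_of_ne hle (Ne.symm hne)
    obtain ⟨ρ, hρ⟩ := lt_iff_cons_le.1 hlt
    have hρm : ρ ∈ t.map Subtype.val := mem_of_le hρ (mem_cons_self _ _)
    have hus := hτ.1 ρ hρm
    refine h ⟨ρ, m, hus.1⟩ hus ?_
    have h4 : ((ρ ::ₘ s.map Subtype.val).map Rule.lhs).sum ≤ c.reg m := by
      refine le_trans ?_ hτ.2
      obtain ⟨u, hu⟩ := Multiset.le_iff_exists_add.1 hρ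
      rw [hu, Multiset.map_add, Multiset.sum_add]
      exact le_self_add
    rw [map_cons, sum_cons, map_val_sum, add_comm] at h4
    exact h4

theorem step_code (v v' : Γ.CC) :
    Γ.Step (Γ.confOf v) (Γ.confOf v') ↔ ∃ w, Γ.CStep v v' w := by
  constructor
  · rintro ⟨σ, D, h1, h2, h3, h4, h5⟩
    choose s hs using fun m => Γ.exists_subtype (h1 m).1.1
    set w : Γ.WW := (fun x => count x.2 (s x.1), fun x => count x.2 (D x.1)) with hw
    have hsg : ∀ m, Γ.sg w m = s m := fun m => ofCounts_count (s m)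
    have hdd : ∀ m, Γ.dd w m = D m := fun m => ofCounts_count (D m)
    refine ⟨w, fun m => ?_, fun m => ?_, fun m q => ?_, fun m => ?_, ?_⟩
    · rw [hsg]
      exact (Γ.maxApplicable_code _ m (s m)).1 (by rw [hs]; exact h1 m)
    · rw [hsg, hdd, h2, ← hs, bind_map]
    · rw [hdd]
      by_cases h0 : count q (D m) = 0
      · exact Or.inl h0
      · exact Or.inr (h3 m q (count_ne_zero.1 h0))
    · have h6 := h4 m
      simp only [hsg, hdd]
      rw [← hs m, map_map] at h6
      exact h6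
    · simp only [hdd]
      exact h5
  · rintro ⟨w, h1, h2, h3, h4, h5⟩
    refine ⟨fun m => (Γ.sg w m).map Subtype.val, Γ.dd w, fun m => ?_, fun m => ?_,
      fun m q hq => ?_, fun m => ?_, h5⟩
    · exact (Γ.maxApplicable_code _ m _).2 (h1 m)
    · rw [h2, bind_map]
    · rcases h3 m q with h0 | h0
      · exact absurd h0 (count_ne_zero.2 hq)
      · exact h0
    · have h6 := h4 m
      rw [map_map]
      exact h6

theorem PM_regOf {α : Type} [Primcodable α] {f : α → Γ.CC} (hf : Primrec f) (m : Γ.M) :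
    PM fun a => Γ.regOf (f a) m :=
  PM.ofCounts fun o => (prim_coord (some (m, o))).comp hf

theorem PM_sg {α : Type} [Primcodable α] {f : α → Γ.WW} (hf : Primrec f) (m : Γ.M) :
    PM fun a => Γ.sg (f a) m :=
  PM.ofCounts fun ρ => (prim_coord (m, ρ)).comp (Primrec.fst.comp hf)

theorem PM_dd {α : Type} [Primcodable α] {f : α → Γ.WW} (hf : Primrec f) (m : Γ.M) :
    PM fun a => Γ.dd (f a) m :=
  PM.ofCounts fun q => (prim_coord (m, q)).comp (Primrec.snd.comp hf)

theorem prim_CStep : PrimrecPred fun x : Γ.CC × Γ.CC × Γ.WW => Γ.CStep x.1 x.2.1 x.2.2 := by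
  have hv : Primrec fun x : Γ.CC × Γ.CC × Γ.WW => x.1 := Primrec.fst
  have hv' : Primrec fun x : Γ.CC × Γ.CC × Γ.WW => x.2.1 := Primrec.fst.comp Primrec.snd
  have hw : Primrec fun x : Γ.CC × Γ.CC × Γ.WW => x.2.2 := Primrec.snd.comp Primrec.snd
  refine PrimrecPred.and (prim_all fun m => ?_) (PrimrecPred.and (prim_all fun m => ?_)
    (PrimrecPred.and (prim_all fun m => prim_all fun q => ?_)
      (PrimrecPred.and (prim_all fun m => ?_) ?_)))
  · refine PrimrecPred.and (PrimrecPred.and (prim_all fun ρ => ?_) ?_)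
      (prim_all fun ρ => prim_imp ?_)
    · exact (Primrec.eq.comp (Γ.PM_sg hw m ρ) (Primrec.const 0)).or (prim_const _)
    · exact ((Γ.PM_sg hw m).bind _).le (Γ.PM_regOf hv m)
    · exact ((((Γ.PM_sg hw m).bind _).add (PM.const _)).le (Γ.PM_regOf hv m)).not
  · exact ((Γ.PM_dd hw m).map _).eq ((Γ.PM_sg hw m).bind _)
  · exact (Primrec.eq.comp (Γ.PM_dd hw m q) (Primrec.const 0)).or (prim_const _)
  · exact (Γ.PM_regOf hv' m).eq (((Γ.PM_regOf hv m).sub ((Γ.PM_sg hw m).map _)).add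
      (PM.sum Finset.univ fun m' => ((Γ.PM_dd hw m').filter _).map _))
  · refine Primrec.eq.comp ((prim_coord none).comp hv')
      (Primrec.nat_add.comp ((prim_coord none).comp hv) ?_)
    exact prim_sum Finset.univ _ fun m' _ => ((Γ.PM_dd hw m').filter _).card

theorem halting_code (v : Γ.CC) : Γ.Halting (Γ.confOf v) ↔
    ∀ m, ∀ ρ : Γ.Rl, Γ.Usable m ρ.1 → ¬ ρ.1.lhs ≤ Γ.regOf v m := by
  constructor
  · exact fun h m ρ => h m ρ.1
  · exact fun h m ρ hρ => h m ⟨ρ, m, hρ.1⟩ hρ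

/-- The generated set is recursively enumerable. -/
theorem rePred_N : REPred fun n => n ∈ Γ.N := by
  have hfin : PrimrecRel fun (n : ℕ) (v : Γ.CC) =>
      (∀ m, ∀ ρ : Γ.Rl, Γ.Usable m ρ.1 → ¬ ρ.1.lhs ≤ Γ.regOf v m) ∧
        Γ.result (Γ.confOf v) = n := by
    refine PrimrecPred.and (prim_all fun m => prim_all fun ρ => prim_imp ?_) ?_
    · exact ((PM.const _).le (Γ.PM_regOf Primrec.snd m)).not
    · refine Primrec.eq.comp ?_ Primrec.fst
      unfold result
      rcases Γ.iout with _ | m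
      · exact (prim_coord none).comp Primrec.snd
      · exact (Γ.PM_regOf Primrec.snd m).card
  refine (rePred_reach Γ.prim_CStep (Γ.codeOf Γ.init) hfin).of_eq fun n => ?_
  constructor
  · rintro ⟨v, h1, h2, h3⟩
    refine ⟨Γ.confOf v, ?_, (Γ.halting_code v).2 h2, h3⟩
    have h4 : Relation.ReflTransGen Γ.Step (Γ.confOf (Γ.codeOf Γ.init)) (Γ.confOf v) :=
      Relation.ReflTransGen.lift (p := Γ.Step) Γ.confOf
        (fun a b h => (Γ.step_code a b).2 h) _ _ h1
    rwa [confOf_codeOf] at h4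
  · rintro ⟨c, h1, h2, h3⟩
    refine ⟨Γ.codeOf c, ?_, (Γ.halting_code _).1 (by rwa [confOf_codeOf]), by
      rwa [confOf_codeOf]⟩
    refine Relation.ReflTransGen.lift Γ.codeOf (fun a b h => ?_) _ _ h1
    change ∃ w, Γ.CStep (Γ.codeOf a) (Γ.codeOf b) w
    rw [← step_code, confOf_codeOf, confOf_codeOf]
    exact h

end PSystem

end Pool.Agent.H75.PSys
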